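import Mathlib

set_option autoImplicit false

open Finset

namespace Pool.Agent.MP_089fcb_co.H7

/-- `C` is a perfect `e`-code in the Johnson graph of `w`-subsets of `α`. -/
def IsPerf {α : Type} [Fintype α] [DecidableEq α] (w e : ℕ) (C : Finset (Finset α)) : Prop :=
  (∀ A ∈ C, A.card = w) ∧ ∀ X : Finset α, X.card = w → ∃! A, A ∈ C ∧ (X \ A).card ≤ e

/-- Size of a ball of radius `e`. -/
def Phi (w w' e : ℕ) : ℕ := ∑ i ∈ range (e + 1), w.choose i * w'.choose i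

/-! ### Module S: counting around a codeword -/

def SteinerStmt : Prop :=
  ∀ (α : Type) [Fintype α] [DecidableEq α] (w w' e : ℕ) (C : Finset (Finset α)),
    IsPerf w e C → Fintype.card α = w + w' → 1 ≤ e → 2 ≤ C.card → 2 * e + 1 < w →
    (e + 1) ∣ (w + 1) ∧ (e + 1) ∣ (w' + 1) ∧ e ^ 2 + 4 * e + 2 ≤ w ∧ e ^ 2 + 4 * e + 2 ≤ w' ∧
      e * w' + 2 * e + 1 ≤ (e + 1) * w ∧ e * w + 2 * e + 1 ≤ (e + 1) * w' ∧
      (e = 2 → w % 4 = 2 ∧ w' % 4 = 2)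

/-! ### Module L: Lloyd's theorem and the design property -/

/-- Up operator. -/
def Uop (α : Type) [Fintype α] [DecidableEq α] : Module.End ℚ (Finset α → ℚ) where
  toFun g := fun S => ∑ a ∈ S, g (S.erase a)
  map_add' g h := by ext S; simp [Finset.sum_add_distrib]
  map_smul' c g := by ext S; simp [Finset.mul_sum]

/-- Down operator. -/
def Dop (α : Type) [Fintype α] [DecidableEq α] : Module.End ℚ (Finset α → ℚ) where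
  toFun g := fun S => ∑ b ∈ Sᶜ, g (insert b S)
  map_add' g h := by ext S; simp [Finset.sum_add_distrib]
  map_smul' c g := by ext S; simp [Finset.mul_sum]

/-- `U ∘ D`; on level `w` this is the adjacency operator plus `w`. -/
def Mop (α : Type) [Fintype α] [DecidableEq α] : Module.End ℚ (Finset α → ℚ) :=
  Uop α * Dop α

/-- Eigenvalues of `Mop` on level `i`. -/
def mu (n i j : ℕ) : ℚ := ((i : ℚ) - j) * ((n : ℚ) - i - j + 1)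

/-- Indicator function of a family. -/
def ind {α : Type} [DecidableEq α] (C : Finset (Finset α)) : Finset α → ℚ :=
  fun S => if S ∈ C then 1 else 0

/-- Indicator function of level `w`. -/
def lev (α : Type) (w : ℕ) : Finset α → ℚ := fun S => if S.card = w then 1 else 0

/-- Pairs of consecutive ball polynomials. -/
noncomputable def SpAux (w w' : ℕ) : ℕ → Polynomial ℚ × Polynomial ℚ
  | 0 => (0, 1)
  | i + 1 =>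
    ((SpAux w w' i).2,
      Polynomial.C (1 / ((i : ℚ) + 1) ^ 2) *
        ((Polynomial.X - Polynomial.C ((w : ℚ) * (w' + 1) - ((w : ℚ) - i) * ((w' : ℚ) - i)
            - ((i : ℚ) + 1) ^ 2)) * (SpAux w w' i).2
          - Polynomial.C (((w : ℚ) - i) * ((w' : ℚ) - i)) * (SpAux w w' i).1))

/-- Ball polynomial of radius `i` in the variable `Mop`. -/
noncomputable def Sp (w w' i : ℕ) : Polynomial ℚ := (SpAux w w' i).2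

def AnnStmt : Prop :=
  ∀ (α : Type) [Fintype α] [DecidableEq α] (i : ℕ) (g : Finset α → ℚ),
    (∀ S, S.card ≠ i → g S = 0) →
    Polynomial.aeval (Mop α)
      (∏ j ∈ range (i + 1), (Polynomial.X - Polynomial.C (mu (Fintype.card α) i j))) g = 0

def DesignStmt : Prop :=
  ∀ (α : Type) [Fintype α] [DecidableEq α] (w : ℕ) (C : Finset (Finset α)) (J : Finset ℕ) (φ : ℚ),
    (∀ A ∈ C, A.card = w) → 2 * w ≤ Fintype.card α → (∀ j ∈ J, j ≤ w) →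
    Polynomial.aeval (Mop α)
      (∏ j ∈ J, (Polynomial.X - Polynomial.C (mu (Fintype.card α) w j)))
        (ind C - φ • lev α w) = 0 →
    ∀ i, i ≤ w → (∀ j ∈ J, i < j) → ∀ S : Finset α, S.card = i →
      ((C.filter (fun A => S ⊆ A)).card : ℚ) = φ * ((Fintype.card α - i).choose (w - i) : ℕ)

def BallStmt : Prop :=
  ∀ (α : Type) [Fintype α] [DecidableEq α] (w w' : ℕ) (C : Finset (Finset α)),
    (∀ A ∈ C, A.card = w) → Fintype.card α = w + w' → ∀ (i : ℕ) (X : Finset α),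
      Polynomial.aeval (Mop α) (Sp w w' i) (ind C) X =
        if X.card = w then ((C.filter (fun A => (X \ A).card ≤ i)).card : ℚ) else 0

def SpStmt : Prop :=
  ∀ w w' e : ℕ, (Sp w w' e).natDegree = e ∧ (Sp w w' e).leadingCoeff = 1 / ((e.factorial : ℚ)) ^ 2 ∧
    (Sp w w' e).eval ((w : ℚ) * (w' + 1)) = Phi w w' e ∧
    (1 ≤ w → e ≤ w → e ≤ w' → ∀ t : ℚ, (2 * (e : ℚ) - 3 / 2) * (w + w') ≤ t - w →
      0 < (Sp w w' e).eval t)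

def LloydStmt : Prop :=
  ∀ (α : Type) [Fintype α] [DecidableEq α] (w w' e : ℕ) (C : Finset (Finset α)),
    IsPerf w e C → Fintype.card α = w + w' → 1 ≤ e → e ≤ w → w ≤ w' →
    ∃ J : Finset ℕ, J.card = e ∧ (∀ j ∈ J, 1 ≤ j ∧ j ≤ w) ∧
      Phi w w' e * e.factorial ^ 2 = ∏ j ∈ J, j * (w + w' + 1 - j) ∧
      (∀ j ∈ J, 2 * ((w - j) * (w' - j)) < (4 * e - 3) * (w + w') + 2 * j) ∧
      ∀ i, (∀ j ∈ J, i < j) → Phi w w' e ∣ (w + w' - i).choose (w - i)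

/-! ### Module T: a lower bound for `|m ^ b - g ^ a|` -/

def DetStmt : Prop :=
  ∀ (ι : Type) [Fintype ι] [DecidableEq ι] (Z ρ : ℝ) (ζ : ι → ℝ) (c : ι → ℕ → ℝ)
    (f E : ι → ι → ℝ) (M : ι → ℝ), 0 ≤ Z → 1 ≤ ρ → (∀ j, |ζ j| ≤ Z) →
    (∀ i j, HasSum (fun n => c i n * ζ j ^ n) (f i j)) →
    (∀ i, Summable (fun n => |c i n| * (ρ * Z) ^ n)) →
    (∀ i, ∑' n, |c i n| * (ρ * Z) ^ n ≤ M i) →
    (∀ i j, |E i j| ≤ M i / ρ ^ Fintype.card ι) →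
    |Matrix.det (Matrix.of fun i j => f i j + E i j)| ≤
      (Fintype.card ι).factorial * (∏ i, 2 * M i) /
        ρ ^ (Fintype.card ι * (Fintype.card ι - 1) / 2)

def MajStmt : Prop :=
  ∀ (z ρ β : ℝ) (k : ℕ), 0 ≤ z → 1 ≤ ρ → (k : ℝ) ≤ 2 * z + 1 →
    ∃ c : ℕ → ℝ, (∀ ζ : ℝ, |ζ| ≤ z → HasSum (fun n => c n * ζ ^ n)
        ((∏ t ∈ range k, (ζ + z - t)) / k.factorial * Real.exp (β * ζ))) ∧
      Summable (fun n => |c n| * (ρ * z) ^ n) ∧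
      ∑' n, |c n| * (ρ * z) ^ n ≤ ((ρ + 1) * z) ^ k / k.factorial * Real.exp (|β| * (ρ * z))

def ZeroStmt : Prop :=
  ∀ g m a b K L U V : ℕ, 2 ≤ g → 1 ≤ m → 1 ≤ L → Nat.gcd a b ≤ 2 → 2 * V ≤ b → K * L < U * V →
    ∃ σ : Fin K × Fin L → Fin (U + L - 1) × Fin V, Function.Injective σ ∧
      Matrix.det (Matrix.of fun i j : Fin K × Fin L =>
        (((b * (σ j).1 + a * (σ j).2).choose i.1 * (g ^ ((σ j).1 : ℕ) * m ^ ((σ j).2 : ℕ)) ^ (i.2 : ℕ)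
          : ℕ) : ℤ)) ≠ 0

def TwoLogStmt : Prop :=
  ∀ g G m a b : ℕ, 2 ≤ g → g ≤ 2 ^ G → 3 ≤ m → Nat.gcd a b ≤ 2 → 20000 * G ≤ b →
    (2 : ℤ) ^ (G + 2) * (g : ℤ) ^ a < ((m : ℤ) ^ b - (g : ℤ) ^ a) ^ 2

/-! ### Module K: kernel computations -/

/-- No `b`-th power is within `2 ^ (a / 2)` of `2 ^ a`. -/
def Far (a b : ℕ) : Prop := ∀ m : ℕ, (2 : ℤ) ^ a ≤ ((m : ℤ) ^ b - 2 ^ a) ^ 2

def K1Stmt : Prop := ∀ a b : ℕ, 13 ≤ a → a ≤ 400 → 4 ≤ b → Nat.Coprime a b → Far a b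

def K2Stmt : Prop :=
  ∀ l a : ℕ, (l = 4 ∨ l.Prime) → 3 ≤ l → l < 421 → 400 < a → a ≤ 115296 → ¬ l ∣ a → Far a l

def K3Stmt : Prop :=
  ∀ l a : ℕ, (l = 4 ∨ l.Prime) → 3 ≤ l → l ≤ 31 → 400 < a → a ≤ 3055344 → ¬ l ∣ a → Far a l

def K4Stmt : Prop :=
  ∀ a x y : ℕ, a ≤ 12 → 2 ≤ x → x ≤ y → (x + 1) * (y + 1) + 1 ≤ 2 ^ a + x →
    2 ^ a ≤ (x + 1) * (y + 1) + 1 → Squarefree (x * y + 1) →
    ∃ p, p.Prime ∧ p ∣ x * y + 1 ∧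
      ∀ r, ¬ ((x + 1) * (y + 1) + 1 ≤ p ^ r + x ∧ p ^ r ≤ (x + 1) * (y + 1) + 1)

def K5Stmt : Prop :=
  (∑ l ∈ (Ico 421 20000).filter Nat.Prime, (1 : ℝ) / l ≤ 49 / 100) ∧
  (∑ l ∈ (Ico 37 20000).filter Nat.Prime, (1 : ℝ) / l ≤ 99 / 100) ∧
  (∑ l ∈ (range 20000).filter Nat.Prime,
    (if l ≤ 53 then (1 : ℝ) / max 54 (l ^ 2) else 1 / l) ≤ 98 / 100) ∧
  (∑ l ∈ (range 29).filter Nat.Prime, (1 : ℝ) / l ≤ 3 / 2) ∧
  (∀ G : ℕ, 3 ≤ G → ∑ l ∈ (range (20000 * G)).filter Nat.Prime, (1 : ℝ) / l ≤ (13 + G) / 6) ∧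
  ∃ Λ : ℕ, 0 < Λ ∧ Λ < 2 ^ 28821 ∧ ∀ r, 1 ≤ r → r < 20000 → r ∣ Λ

def K6Stmt : Prop :=
  ∀ a b : ℕ, 6 ≤ b → b < 20000 → (8 : ℤ) * 2 ^ a ≤ ((3 : ℤ) ^ b - 2 ^ a) ^ 2

def K7Stmt : Prop :=
  ∀ e w w' : ℕ, 2 ≤ e → e ^ 2 + 4 * e + 2 ≤ w → (w < 36 * e ∨ w < 300 ∨ (5 ≤ e ∧ w < 400)) → w ≤ w' →
    (e + 1) ∣ (w + 1) → (e + 1) ∣ (w' + 1) → e * w' + 2 * e + 1 ≤ (e + 1) * w →
    (e = 2 → w % 4 = 2 ∧ w' % 4 = 2) → ¬ Phi w w' e ∣ (w + w').choose w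

def K8Stmt : Prop :=
  ∀ e w c G : ℕ, 3 ≤ e → 36 * e ≤ w → 300 ≤ w → (5 ≤ e → 400 ≤ w) → e ^ 2 ≤ w →
    c = Nat.sqrt ((e - 1) / 4) → G = max 3 (Nat.clog 2 (e + 1)) →
    (3 ^ e * e.factorial ^ 2 * (2 * (e + 1))) ^ 6 *
      (2 * w) ^ (if 2 * w < 3 ^ 29 then 9 + 5 * c else 13 + G + 5 * c) < (2 * w) ^ (6 * e)

/-! ### Module A: the arithmetic of the parameters -/

structure Par (e w w' : ℕ) (J : Finset ℕ) : Prop where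
  he : 1 ≤ e
  hww : w ≤ w'
  hc : (e + 1) ∣ (w + 1)
  hc' : (e + 1) ∣ (w' + 1)
  hlow : e ^ 2 + 4 * e + 2 ≤ w
  hroos : e * w' + 2 * e + 1 ≤ (e + 1) * w
  h4 : e = 2 → w % 4 = 2 ∧ w' % 4 = 2
  hcard : J.card = e
  hmem : ∀ j ∈ J, 1 ≤ j ∧ j ≤ w
  hprod : Phi w w' e * e.factorial ^ 2 = ∏ j ∈ J, j * (w + w' + 1 - j)
  hroot : ∀ j ∈ J, 2 * ((w - j) * (w' - j)) < (4 * e - 3) * (w + w') + 2 * j
  hdes : ∀ i, (∀ j ∈ J, i < j) → Phi w w' e ∣ (w + w' - i).choose (w - i)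

/-- Primes dividing all middle binomial coefficients. -/
def PPStmt : Prop :=
  ∀ F N x : ℕ, 4 * x + 2 ≤ N → (∀ k, x + 1 ≤ k → k + x + 1 ≤ N → F ∣ N.choose k) →
    Squarefree F ∧ ∀ p, p.Prime → p ∣ F → ∃ r, N ≤ p ^ r + x ∧ p ^ r ≤ N

def AnchorStmt : Prop :=
  (∀ e w w' p : ℕ, p.Prime → p ∣ e + 1 → p ∣ w + 1 → p ∣ w' + 1 → p ∣ Phi w w' e) ∧
  ∀ w w' : ℕ, w % 4 = 2 → w' % 4 = 2 → 2 ∣ Phi w w' 2

/-- The number theory of the case `e = 1`. -/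
def OneStmt : Prop :=
  ∀ x y a : ℕ, 2 ≤ x → x ≤ y → Squarefree (x * y + 1) →
    (x + 1) * (y + 1) + 1 ≤ 2 ^ a + x → 2 ^ a ≤ (x + 1) * (y + 1) + 1 →
    (∀ p, p.Prime → p ∣ x * y + 1 →
      ∃ r, (x + 1) * (y + 1) + 1 ≤ p ^ r + x ∧ p ^ r ≤ (x + 1) * (y + 1) + 1) → False

/-- Product of odd primes having a power in a short interval. -/
def ProdStmt : Prop :=
  ∀ (P : Finset ℕ) (r : ℕ → ℕ) (I x e R : ℕ) (s : ℝ), 1 ≤ e → e ^ 2 ≤ I → x ^ 2 < 4 * e * I →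
    (∀ p ∈ P, p.Prime ∧ p ≠ 2 ∧ 2 ≤ r p ∧ (r p).minFac < R ∧ I ≤ p ^ r p ∧ p ^ r p ≤ I + x) →
    ∑ l ∈ (range R).filter Nat.Prime, (1 : ℝ) / l ≤ s →
    Real.log (∏ p ∈ P, p : ℕ) ≤ Real.log (I + x : ℕ) * (s + 5 * (Nat.sqrt ((e - 1) / 4) : ℝ) / 6)

def ArithStmt : Prop := ∀ (e w w' : ℕ) (J : Finset ℕ), ¬ Par e w w' J

end Pool.Agent.MP_089fcb_co.H7
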