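import Pool.Agent.MP_089fcb_co.H7.Defs

set_option autoImplicit false

open Finset

namespace Pool.Agent.MP_089fcb_co.H7.Arith

theorem pascal (F n w φ : ℕ) (hw : φ ≤ w) (hn : w ≤ n)
    (h : ∀ i, i ≤ φ → F ∣ (n - i).choose (w - i)) :
    ∀ s i, i + s ≤ φ → F ∣ (n - (i + s)).choose (w - i) := by
  intro s
  induction s with
  | zero => intro i hi; exact h i (by omega)
  | succ s ih =>
    intro i hi
    have h1 := ih i (by omega)
    have h2 := ih (i + 1) (by omega)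
    have e1 : n - (i + s) = n - (i + (s + 1)) + 1 := by omega
    have e2 : w - i = (w - (i + 1)) + 1 := by omega
    have e3 : n - (i + 1 + s) = n - (i + (s + 1)) := by omega
    rw [e1, e2, Nat.choose_succ_succ'] at h1
    rw [e3] at h2
    rw [e2]
    exact (Nat.dvd_add_right h2).1 h1

theorem red (hPP : PPStmt) {e w w' : ℕ} {J : Finset ℕ} (h : Par e w w' J) {j1 x : ℕ}
    (hj1 : j1 ∈ J) (hmin : ∀ j ∈ J, j1 ≤ j) (hx : x + j1 = w) (hcont : w' ≤ w + j1)
    (h4 : 3 * x + 1 ≤ w') :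
    Squarefree (Phi w w' e) ∧
      ∀ p, p.Prime → p ∣ Phi w w' e → ∃ r, w' + 1 ≤ p ^ r ∧ p ^ r ≤ w' + 1 + x := by
  have hj := (h.hmem j1 hj1).1
  have hww := h.hww
  have hp := pascal (Phi w w' e) (w + w') w (j1 - 1) (by omega) (by omega)
    (fun i hi => h.hdes i (fun j hj' => by have := hmin j hj'; omega))
  have hlow : ∀ k, x + 1 ≤ k → k ≤ w → Phi w w' e ∣ (w' + 1 + x).choose k := by
    intro k hk1 hk2
    have := hp (j1 - 1 - (w - k)) (w - k) (by omega)
    have e1 : w + w' - (w - k + (j1 - 1 - (w - k))) = w' + 1 + x := by omega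
    have e2 : w - (w - k) = k := by omega
    rwa [e1, e2] at this
  have := hPP (Phi w w' e) (w' + 1 + x) x (by omega) (by
    intro k hk1 hk2
    by_cases hk : k ≤ w
    · exact hlow k hk1 hk
    · have := hlow (w' + 1 + x - k) (by omega) (by omega)
      rwa [Nat.choose_symm (by omega)] at this)
  refine ⟨this.1, fun p hp hd => ?_⟩
  obtain ⟨r, h1, h2⟩ := this.2 p hp hd
  exact ⟨r, by omega, h2⟩

theorem spacing {m m' l : ℕ} (h : m < m') : m ^ l + l * m ^ (l - 1) ≤ m' ^ l := by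
  have h1 : (m + 1) ^ l ≤ m' ^ l := Nat.pow_le_pow_left h l
  refine le_trans ?_ h1
  clear h1
  induction l with
  | zero => simp
  | succ l ih =>
    rcases l with _ | l
    · simp
    · simp only [Nat.add_sub_cancel] at ih ⊢
      have : (m + 1) ^ (l + 1 + 1) = (m + 1) ^ (l + 1) * (m + 1) := pow_succ _ _
      rw [this]
      have h2 := Nat.mul_le_mul_right (m + 1) ih
      refine le_trans ?_ h2
      have e1 : m ^ (l + 1 + 1) = m ^ l * m * m := by ring
      have e2 : m ^ (l + 1) = m ^ l * m := by ring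
      rw [e1, e2]
      nlinarith [Nat.zero_le (m ^ l), Nat.zero_le (l * m ^ l)]

/-- Two different `l`-th powers do not fit into a short interval. -/
theorem no_two {m m' l I x : ℕ} (hl : 3 ≤ l) (hI : 1 ≤ I) (hx : x ^ 3 < 27 * I ^ 2) (hne : m ≠ m')
    (h1 : I ≤ m ^ l) (h2 : m ^ l ≤ I + x) (h3 : I ≤ m' ^ l) (h4 : m' ^ l ≤ I + x) : False := by
  wlog hlt : m < m' generalizing m m'
  · exact this hne.symm h3 h4 h1 h2 (by omega)
  have hs := spacing (l := l) hlt
  have hm : 1 ≤ m := by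
    rcases Nat.eq_zero_or_pos m with rfl | hm
    · rw [zero_pow (by omega)] at h1; omega
    · exact hm
  have h5 : 3 * m ^ (l - 1) ≤ x := by
    have := Nat.mul_le_mul_right (m ^ (l - 1)) hl
    omega
  have h6 : I ^ 2 ≤ (m ^ (l - 1)) ^ 3 := by
    calc I ^ 2 ≤ (m ^ l) ^ 2 := Nat.pow_le_pow_left h1 2
      _ = m ^ (l * 2) := by rw [pow_mul]
      _ ≤ m ^ ((l - 1) * 3) := Nat.pow_le_pow_right hm (by omega)
      _ = (m ^ (l - 1)) ^ 3 := by rw [pow_mul]
  have h7 := Nat.pow_le_pow_left h5 3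
  rw [mul_pow] at h7
  omega

theorem no_two4 {m m' l I x : ℕ} (hl : 4 ≤ l) (hI : 1 ≤ I) (hx : x ^ 4 < 16 * I ^ 3) (hne : m ≠ m')
    (h1 : I ≤ m ^ l) (h2 : m ^ l ≤ I + x) (h3 : I ≤ m' ^ l) (h4 : m' ^ l ≤ I + x) : False := by
  wlog hlt : m < m' generalizing m m'
  · exact this hne.symm h3 h4 h1 h2 (by omega)
  have hs := spacing (l := l) hlt
  have hm : 1 ≤ m := by
    rcases Nat.eq_zero_or_pos m with rfl | hm
    · rw [zero_pow (by omega)] at h1; omega
    · exact hm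
  have h5 : 2 * m ^ (l - 1) ≤ x := by
    have := Nat.mul_le_mul_right (m ^ (l - 1)) (show 2 ≤ l by omega)
    omega
  have h6 : I ^ 3 ≤ (m ^ (l - 1)) ^ 4 := by
    calc I ^ 3 ≤ (m ^ l) ^ 3 := Nat.pow_le_pow_left h1 3
      _ = m ^ (l * 3) := by rw [pow_mul]
      _ ≤ m ^ ((l - 1) * 4) := Nat.pow_le_pow_right hm (by omega)
      _ = (m ^ (l - 1)) ^ 4 := by rw [pow_mul]
  have h7 := Nat.pow_le_pow_left h5 4
  rw [mul_pow] at h7
  omega

theorem case_one (hPP : PPStmt) (hA : AnchorStmt) (hO : OneStmt) {w w' : ℕ} {J : Finset ℕ}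
    (h : Par 1 w w' J) : False := by
  obtain ⟨j, rfl⟩ := Finset.card_eq_one.1 h.hcard
  have hj := h.hmem j (by simp)
  have hww := h.hww
  have hlow := h.hlow
  have hprod := h.hprod
  simp only [Phi, Finset.prod_singleton, Nat.factorial_one, one_pow, mul_one] at hprod
  have hPhi : Phi w w' 1 = j * (w + w' + 1 - j) := hprod
  obtain ⟨x, rfl⟩ : ∃ x, w = x + j := ⟨w - j, by omega⟩
  obtain ⟨y, rfl⟩ : ∃ y, w' = y + j := ⟨w' - j, by omega⟩
  have hxy : x * y + 1 = j := by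
    simp only [Finset.sum_range_succ, Finset.range_zero, Finset.sum_empty, Nat.choose_zero_right,
      Nat.choose_one_right] at hprod
    have e1 : x + j + (y + j) + 1 - j = x + y + j + 1 := by omega
    rw [e1] at hprod
    nlinarith
  have hxy' : x ≤ y := by omega
  have hx1 : 1 ≤ x := by
    rcases Nat.eq_zero_or_pos x with rfl | hx
    · omega
    · exact hx
  have h3 : 3 * x + 1 ≤ y + j := by
    rcases Nat.eq_or_lt_of_le hx1 with rfl | hx
    · omega
    · nlinarith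
  obtain ⟨hsq, hpp⟩ := red hPP h (j1 := j) (x := x) (by simp) (by simp) rfl (by nlinarith) h3
  have hjd : j ∣ Phi (x + j) (y + j) 1 := by rw [hPhi]; exact Dvd.intro _ rfl
  have hsj : Squarefree j := hsq.squarefree_of_dvd hjd
  obtain ⟨a, ha1, ha2⟩ := hpp 2 Nat.prime_two (hA.1 1 _ _ 2 Nat.prime_two (by norm_num) h.hc h.hc')
  have hN : (x + 1) * (y + 1) + 1 = y + j + 1 + x := by rw [← hxy]; ring
  rcases Nat.eq_or_lt_of_le hx1 with rfl | hx
  · have hy : j = y + 1 := by omega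
    subst hy
    rcases a with _ | a
    · omega
    rcases a with _ | a
    · omega
    rcases a with _ | a
    · omega
    have e1 : 2 ^ (a + 1 + 1 + 1) = 8 * 2 ^ a := by ring
    have e2 : y + 1 = 2 * 2 * 2 ^ a := by omega
    have := hsj 2 ⟨2 ^ a, e2⟩
    rw [Nat.isUnit_iff] at this
    omega
  · subst hxy
    refine hO x y a hx hxy' hsj (by omega) (by omega) ?_
    intro p hp hd
    obtain ⟨r, h1, h2⟩ := hpp p hp (hd.trans hjd)
    exact ⟨r, by omega, by omega⟩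

theorem big {e w w' : ℕ} {J : Finset ℕ} (h : Par e w w' J) (he : 2 ≤ e) (hw : 36 * e ≤ w)
    {j1 x : ℕ} (hj1 : j1 ∈ J) (hx : x + j1 = w) :
    x ^ 2 < 4 * e * w ∧ 3 * x + 1 ≤ w ∧ w' ≤ w + j1 ∧ e * w' ≤ (e + 1) * w := by
  have hr := h.hroot j1 hj1
  have hro := h.hroos
  have hww := h.hww
  obtain ⟨e', rfl⟩ : ∃ e', e = e' + 2 := ⟨e - 2, by omega⟩
  have e1 : 4 * (e' + 2) - 3 = 4 * e' + 5 := by omega
  have e2 : w - j1 = x := by omega
  rw [e1, e2] at hr
  have h1 : x * x ≤ x * (w' - j1) := Nat.mul_le_mul_left x (by omega)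
  have h2 : 2 * (x * x) < (4 * e' + 6) * (w + w') := by nlinarith
  have h3 : (e' + 2) * (w + w') ≤ (2 * e' + 5) * w := by nlinarith
  have h4 : x ^ 2 < 4 * (e' + 2) * w := by
    by_contra hc
    have hc := not_lt.1 hc
    have h5 : (e' + 2) * (2 * (x * x)) < (e' + 2) * ((4 * e' + 6) * (w + w')) :=
      Nat.mul_lt_mul_of_pos_left h2 (by omega)
    have h6 := Nat.mul_le_mul_left (4 * e' + 6) h3
    have h7 := Nat.mul_le_mul_left (2 * (e' + 2)) hc
    nlinarith
  have h5 : 3 * x + 1 ≤ w := by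
    by_contra hc
    have hc : w ≤ 3 * x := by omega
    have h6 := Nat.mul_le_mul hc hc
    have h7 := Nat.mul_le_mul_right w hw
    nlinarith
  refine ⟨h4, h5, ?_, by omega⟩
  have h6 : 2 * w' ≤ 3 * w := by
    by_contra hc
    have hc : 3 * w + 1 ≤ 2 * w' := by omega
    have := Nat.mul_le_mul_left (e' + 2) hc
    nlinarith
  omega

theorem sq_le_of_mem {A B I x : ℕ} (h1 : I ≤ A) (h2 : A ≤ I + x) (h3 : I ≤ B) (h4 : B ≤ I + x) :
    ((A : ℤ) - B) ^ 2 ≤ (x : ℤ) ^ 2 := by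
  apply sq_le_sq'
  · omega
  · omega

theorem case_two (hPP : PPStmt) (hA : AnchorStmt) (hT : TwoLogStmt) (k6 : K6Stmt) {w w' : ℕ}
    {J : Finset ℕ} (h : Par 2 w w' J) (hw : 300 ≤ w) : False := by
  have hne : J.Nonempty := by rw [← Finset.card_pos, h.hcard]; norm_num
  have hj1 := J.min'_mem hne
  have hmin : ∀ j ∈ J, J.min' hne ≤ j := fun j hj => J.min'_le j hj
  set j1 := J.min' hne
  have hjw := (h.hmem j1 hj1).2
  have hww := h.hww
  obtain ⟨x, hx⟩ : ∃ x, x + j1 = w := ⟨w - j1, by omega⟩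
  obtain ⟨b1, b2, b3, -⟩ := big h le_rfl (by omega) hj1 hx
  obtain ⟨-, hpp⟩ := red hPP h hj1 hmin hx b3 (by omega)
  obtain ⟨a, ha1, ha2⟩ := hpp 2 Nat.prime_two (hA.2 _ _ (h.h4 rfl).1 (h.h4 rfl).2)
  obtain ⟨b, hb1, hb2⟩ := hpp 3 Nat.prime_three
    (hA.1 2 _ _ 3 Nat.prime_three (by norm_num) h.hc h.hc')
  have hsq := sq_le_of_mem hb1 hb2 ha1 ha2
  have hx8 : (x : ℤ) ^ 2 < 8 * 2 ^ a := by
    have : x ^ 2 < 8 * 2 ^ a := by omega
    exact_mod_cast this
  push_cast at hsq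
  by_cases hb : b < 20000
  · have hb6 : 6 ≤ b := by
      by_contra hc
      have : 3 ^ b ≤ 3 ^ 5 := Nat.pow_le_pow_right (by norm_num) (by omega)
      omega
    have := k6 a b hb6 hb
    omega
  · have hg : Nat.gcd a b ≤ 2 := by
      by_contra hc
      obtain ⟨a', ha'⟩ := Nat.gcd_dvd_left a b
      obtain ⟨b', hb'⟩ := Nat.gcd_dvd_right a b
      set d := Nat.gcd a b
      have hb0 : b' ≠ 0 := by rintro rfl; omega
      refine no_two (m := 2 ^ a') (m' := 3 ^ b') (l := d) (I := w' + 1) (x := x) (by omega)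
        (by omega) ?_ ?_ ?_ ?_ ?_ ?_
      · have h1 : x ^ 2 * x < 8 * w * w := by nlinarith
        have h2 : w * w ≤ (w' + 1) ^ 2 := by nlinarith
        nlinarith
      · intro hc'
        have h3 : 3 ∣ 2 ^ a' := by rw [hc']; exact dvd_pow_self 3 hb0
        have := Nat.prime_three.dvd_of_dvd_pow h3
        omega
      · rw [← pow_mul, mul_comm, ← ha']; exact ha1
      · rw [← pow_mul, mul_comm, ← ha']; exact ha2
      · rw [← pow_mul, mul_comm, ← hb']; exact hb1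
      · rw [← pow_mul, mul_comm, ← hb']; exact hb2
    have := hT 2 1 3 a b le_rfl (by norm_num) le_rfl hg (by omega)
    push_cast at this
    omega

theorem prod_small {e w w' : ℕ} {J : Finset ℕ} (h : Par e w w' J) {j1 x : ℕ}
    (hmin : ∀ j ∈ J, j1 ≤ j) (hx : x + j1 = w) (hx3 : x ≤ w')
    (hsq : Squarefree (Phi w w' e)) :
    j1 ^ e ≤ (∏ p ∈ (Phi w w' e).primeFactors.filter (fun p => p ≤ w'), p) * e.factorial ^ 2 := by
  have hww := h.hww
  have h1 : ∏ p ∈ (Phi w w' e).primeFactors, p = Phi w w' e := Nat.prod_primeFactors_of_squarefree hsq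
  rw [← Finset.prod_filter_mul_prod_filter_not _ (fun p => p ≤ w')] at h1
  have hsub : (Phi w w' e).primeFactors.filter (fun p => ¬ p ≤ w') ⊆
      J.image (fun j => w + w' + 1 - j) := by
    intro p hp
    rw [Finset.mem_filter, Nat.mem_primeFactors] at hp
    obtain ⟨⟨hp, hd, -⟩, hbig⟩ := hp
    have hd' : p ∣ ∏ j ∈ J, j * (w + w' + 1 - j) := by
      rw [← h.hprod]; exact hd.mul_right _
    obtain ⟨j, hj, hdj⟩ := (Prime.dvd_finsetProd_iff hp.prime _).1 hd'
    have hm := h.hmem j hj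
    have hm' := hmin j hj
    rcases (Nat.Prime.dvd_mul hp).1 hdj with h2 | h2
    · have := Nat.le_of_dvd (by omega) h2
      omega
    · obtain ⟨c, hc⟩ := h2
      refine Finset.mem_image.2 ⟨j, hj, ?_⟩
      rcases c with _ | c
      · omega
      rcases c with _ | c
      · omega
      · exfalso
        have : p * (c + 1 + 1) = p * c + 2 * p := by ring
        omega
  have h2 : ∏ p ∈ (Phi w w' e).primeFactors.filter (fun p => ¬ p ≤ w'), p ≤
      ∏ j ∈ J, (w + w' + 1 - j) := by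
    refine le_trans (Finset.prod_le_prod_of_subset_of_one_le' hsub ?_) ?_
    · intro i hi _
      obtain ⟨j, hj, rfl⟩ := Finset.mem_image.1 hi
      have := h.hmem j hj
      omega
    · rw [Finset.prod_image]
      intro a ha b hb hab
      have := h.hmem a ha
      have := h.hmem b hb
      simp only at hab
      omega
  have h3 : j1 ^ e ≤ ∏ j ∈ J, j := by
    rw [← h.hcard]
    exact Finset.pow_card_le_prod J (fun j => j) j1 hmin
  have h4 := h.hprod
  rw [Finset.prod_mul_distrib, ← h1] at h4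
  have hpos : 0 < ∏ j ∈ J, (w + w' + 1 - j) := Finset.prod_pos (fun j hj => by
    have := h.hmem j hj
    omega)
  set A := ∏ p ∈ (Phi w w' e).primeFactors.filter (fun p => p ≤ w'), p
  set B := ∏ p ∈ (Phi w w' e).primeFactors.filter (fun p => ¬ p ≤ w'), p
  set Q := ∏ j ∈ J, (w + w' + 1 - j)
  set R := ∏ j ∈ J, j
  have h5 : R * Q ≤ (A * e.factorial ^ 2) * Q := by
    rw [← h4]
    calc A * B * e.factorial ^ 2 = (A * e.factorial ^ 2) * B := by ring
      _ ≤ _ := Nat.mul_le_mul_left _ h2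
  exact h3.trans (Nat.le_of_mul_le_mul_right h5 hpos)

theorem case_three (hPP : PPStmt) (hA : AnchorStmt) (hT : TwoLogStmt) (hPr : ProdStmt)
    (k5 : K5Stmt) (k8 : K8Stmt) {e w w' : ℕ} {J : Finset ℕ} (h : Par e w w' J) (he : 3 ≤ e)
    (hw1 : 36 * e ≤ w) (hw2 : 300 ≤ w) (hw3 : 5 ≤ e → 400 ≤ w) : False := by
  have hne : J.Nonempty := by rw [← Finset.card_pos, h.hcard]; omega
  have hj1 := J.min'_mem hne
  have hmin : ∀ j ∈ J, J.min' hne ≤ j := fun j hj => J.min'_le j hj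
  set j1 := J.min' hne
  have hjw := (h.hmem j1 hj1).2
  have hww := h.hww
  have hlow := h.hlow
  obtain ⟨x, hx⟩ : ∃ x, x + j1 = w := ⟨w - j1, by omega⟩
  obtain ⟨b1, b2, b3, b4⟩ := big h (by omega) hw1 hj1 hx
  obtain ⟨hsq, hpp⟩ := red hPP h hj1 hmin hx b3 (by omega)
  have hsm := prod_small h hmin hx (by omega) hsq
  have hw43 : 3 * w' ≤ 4 * w := by
    by_contra hc
    have hc : 4 * w + 1 ≤ 3 * w' := by omega
    have := Nat.mul_le_mul_left e hc
    nlinarith
  have hN : w' + 1 + x ≤ 2 * w := by omega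
  set g := (e + 1).minFac with hg
  have hgp : g.Prime := Nat.minFac_prime (by omega)
  have hgd : g ∣ e + 1 := Nat.minFac_dvd _
  have hgle : g ≤ e + 1 := Nat.le_of_dvd (by omega) hgd
  obtain ⟨a, ha1, ha2⟩ := hpp g hgp (hA.1 e _ _ g hgp hgd (hgd.trans h.hc) (hgd.trans h.hc'))
  classical
  let r : ℕ → ℕ := fun p => if hp : p.Prime ∧ p ∣ Phi w w' e then (hpp p hp.1 hp.2).choose else 0
  have hr : ∀ p, p.Prime → p ∣ Phi w w' e → w' + 1 ≤ p ^ r p ∧ p ^ r p ≤ w' + 1 + x := by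
    intro p hp hd
    have := (hpp p hp hd).choose_spec
    simp only [r, dif_pos (And.intro hp hd)]
    exact this
  set S := (Phi w w' e).primeFactors.filter (fun p => p ≤ w') with hS
  set P := (S.erase 2).erase g with hP
  have hSP : ∏ p ∈ S, p ≤ 2 * (e + 1) * ∏ p ∈ P, p := by
    have h1 : ∀ (T : Finset ℕ) (q : ℕ), 1 ≤ q → ∏ p ∈ T, p ≤ q * ∏ p ∈ T.erase q, p := by
      intro T q hq
      by_cases hm : q ∈ T
      · exact (Finset.mul_prod_erase T (fun p => p) hm).symm.le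
      · rw [Finset.erase_eq_of_notMem hm]
        exact Nat.le_mul_of_pos_left _ hq
    calc ∏ p ∈ S, p ≤ 2 * ∏ p ∈ S.erase 2, p := h1 S 2 (by norm_num)
      _ ≤ 2 * (g * ∏ p ∈ P, p) := Nat.mul_le_mul_left _ (h1 _ g hgp.one_le)
      _ ≤ 2 * ((e + 1) * ∏ p ∈ P, p) := Nat.mul_le_mul_left _ (Nat.mul_le_mul_right _ hgle)
      _ = _ := by ring
  have hPm : ∀ p ∈ P, p.Prime ∧ p ≠ 2 ∧ p ≠ g ∧ 2 ≤ r p ∧ w' + 1 ≤ p ^ r p ∧
      p ^ r p ≤ w' + 1 + x := by
    intro p hp
    simp only [hP, hS, Finset.mem_erase, Finset.mem_filter, Nat.mem_primeFactors] at hp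
    obtain ⟨h1, h2, ⟨h3, h4, -⟩, h5⟩ := hp
    obtain ⟨h6, h7⟩ := hr p h3 h4
    refine ⟨h3, h2, h1, ?_, h6, h7⟩
    by_contra hc
    have : p ^ r p ≤ p ^ 1 := Nat.pow_le_pow_right h3.one_le (by omega)
    rw [pow_one] at this
    omega
  set c := Nat.sqrt ((e - 1) / 4) with hc
  set G := max 3 (Nat.clog 2 (e + 1)) with hG
  have hG3 : 3 ≤ G := le_max_left _ _
  have hGe : e + 1 ≤ 2 ^ G :=
    (Nat.le_pow_clog (by norm_num) _).trans (Nat.pow_le_pow_right (by norm_num) (le_max_right _ _))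
  have hI : e ^ 2 ≤ w' + 1 := by omega
  have hxI : x ^ 2 < 4 * e * (w' + 1) := by nlinarith
  have hkey : ∀ (R σ : ℕ), (∀ p ∈ P, (r p).minFac < R) →
      ∑ l ∈ (range R).filter Nat.Prime, (1 : ℝ) / l ≤ (σ : ℝ) / 6 →
      (∏ p ∈ P, p) ^ 6 ≤ (2 * w) ^ (σ + 5 * c) := by
    intro R σ h1 h2
    have h3 := hPr P r (w' + 1) x e R ((σ : ℝ) / 6) (by omega) hI hxI
      (fun p hp => ⟨(hPm p hp).1, (hPm p hp).2.1, (hPm p hp).2.2.2.1, h1 p hp,
        (hPm p hp).2.2.2.2.1, (hPm p hp).2.2.2.2.2⟩) h2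
    have hpos : 0 < ∏ p ∈ P, p := Finset.prod_pos (fun p hp => (hPm p hp).1.pos)
    have h4 : Real.log ((w' + 1 + x : ℕ) : ℝ) ≤ Real.log ((2 * w : ℕ) : ℝ) :=
      Real.log_le_log (by positivity) (by exact_mod_cast hN)
    have h5 : Real.log (((∏ p ∈ P, p) ^ 6 : ℕ) : ℝ) ≤ Real.log (((2 * w) ^ (σ + 5 * c) : ℕ) : ℝ) := by
      rw [Nat.cast_pow, Nat.cast_pow, Real.log_pow, Real.log_pow]
      have h6 : (0 : ℝ) ≤ (σ : ℝ) / 6 + 5 * (c : ℝ) / 6 := by positivity
      have h7 := mul_le_mul_of_nonneg_right h4 h6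
      push_cast at h3 h7 ⊢
      linarith
    have h8 := (Real.log_le_log_iff (by positivity) (by positivity)).1 h5
    exact_mod_cast h8
  have hfin : (∏ p ∈ P, p) ^ 6 ≤
      (2 * w) ^ (if 2 * w < 3 ^ 29 then 9 + 5 * c else 13 + G + 5 * c) := by
    split_ifs with hcase
    · refine hkey 29 9 ?_ (by have := k5.2.2.2.1; push_cast; linarith)
      intro p hp
      obtain ⟨h1, h2, -, h4, -, h6⟩ := hPm p hp
      have h7 : (r p).minFac ≤ r p := Nat.minFac_le (by omega)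
      by_contra hcon
      have h8 : 3 ^ 29 ≤ p ^ r p := by
        calc 3 ^ 29 ≤ p ^ 29 := Nat.pow_le_pow_left (by have := h1.two_le; omega) _
          _ ≤ p ^ r p := Nat.pow_le_pow_right h1.one_le (by omega)
      omega
    · refine hkey (20000 * G) (13 + G) ?_ (by have := k5.2.2.2.2.1 G hG3; push_cast; linarith)
      intro p hp
      obtain ⟨h1, h2, h3, h4, h5, h6⟩ := hPm p hp
      by_contra hcon
      have hl : (r p).minFac.Prime := Nat.minFac_prime (by omega)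
      obtain ⟨t, ht⟩ := Nat.minFac_dvd (r p)
      set l := (r p).minFac
      have ht0 : t ≠ 0 := by rintro rfl; omega
      have e1 : p ^ r p = (p ^ t) ^ l := by rw [← pow_mul, mul_comm, ← ht]
      rw [e1] at h5 h6
      have hm3 : 3 ≤ p ^ t := by
        calc 3 ≤ p := by have := h1.two_le; omega
          _ ≤ p ^ t := Nat.le_self_pow ht0 p
      by_cases hla : l ∣ a
      · obtain ⟨a', ha'⟩ := hla
        have e2 : g ^ a = (g ^ a') ^ l := by rw [← pow_mul, mul_comm, ← ha']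
        rw [e2] at ha1 ha2
        refine no_two4 (l := l) (I := w' + 1) (x := x) (by omega) (by omega) ?_ ?_ h5 h6 ha1 ha2
        · have h7 : x ^ 2 * x ^ 2 < (4 * e * (w' + 1)) * (4 * e * (w' + 1)) :=
            Nat.mul_lt_mul'' hxI hxI
          have h8 := Nat.mul_le_mul_right ((w' + 1) ^ 2) hI
          nlinarith
        · intro hc'
          have h7 : p ∣ g ^ a' := by rw [← hc']; exact dvd_pow_self p ht0
          exact h3 ((Nat.prime_dvd_prime_iff_eq h1 hgp).1 (h1.dvd_of_dvd_pow h7))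
      · have hcop : Nat.gcd a l = 1 := by
          rw [Nat.gcd_comm]; exact (Nat.Prime.coprime_iff_not_dvd hl).2 hla
        have h7 := hT g G (p ^ t) a l hgp.two_le (hgle.trans hGe) hm3 (by omega) (by omega)
        have h8 := sq_le_of_mem h5 h6 ha1 ha2
        have h9 : x ^ 2 ≤ 2 ^ (G + 2) * g ^ a := by
          have : 4 * e * (w' + 1) ≤ 2 ^ (G + 2) * g ^ a :=
            Nat.mul_le_mul (by rw [pow_add]; omega) ha1
          omega
        have h10 : (x : ℤ) ^ 2 ≤ 2 ^ (G + 2) * (g : ℤ) ^ a := by exact_mod_cast h9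
        push_cast at h7 h8
        omega
  have hk := k8 e w c G he hw1 hw2 hw3 (by omega) rfl rfl
  have h1 : (2 * w) ^ e ≤ 3 ^ e * e.factorial ^ 2 * (2 * (e + 1)) * ∏ p ∈ P, p := by
    calc (2 * w) ^ e ≤ (3 * j1) ^ e := Nat.pow_le_pow_left (by omega) _
      _ = 3 ^ e * j1 ^ e := mul_pow _ _ _
      _ ≤ 3 ^ e * ((2 * (e + 1) * ∏ p ∈ P, p) * e.factorial ^ 2) :=
        Nat.mul_le_mul_left _ (hsm.trans (Nat.mul_le_mul_right _ hSP))
      _ = _ := by ring
  have h2 := Nat.pow_le_pow_left h1 6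
  rw [← pow_mul, mul_comm e 6, mul_pow _ (∏ p ∈ P, p)] at h2
  have h3 := Nat.mul_le_mul_left ((3 ^ e * e.factorial ^ 2 * (2 * (e + 1))) ^ 6) hfin
  omega

theorem arith (hPP : PPStmt) (hA : AnchorStmt) (hO : OneStmt) (hT : TwoLogStmt) (hPr : ProdStmt)
    (k5 : K5Stmt) (k6 : K6Stmt) (k7 : K7Stmt) (k8 : K8Stmt) : ArithStmt := by
  intro e w w' J h
  rcases Nat.eq_or_lt_of_le h.he with rfl | he
  · exact case_one hPP hA hO h
  by_cases hs : w < 36 * e ∨ w < 300 ∨ (5 ≤ e ∧ w < 400)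
  · refine k7 e w w' he h.hlow hs h.hww h.hc h.hc' h.hroos h.h4 ?_
    exact h.hdes 0 (fun j hj => (h.hmem j hj).1)
  rcases Nat.eq_or_lt_of_le he with rfl | he'
  · exact case_two hPP hA hT k6 h (by omega)
  · exact case_three hPP hA hT hPr k5 k8 h he' (by omega) (by omega) (by omega)

end Pool.Agent.MP_089fcb_co.H7.Arith
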