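import Pool.Agent.MP_089fcb_co.H7.Defs

set_option autoImplicit false

open Finset

namespace Pool.Agent.MP_089fcb_co.H7.Det

lemma sum_ge {ι : Type} [Fintype ι] (g : ι → ℕ) (hg : ∀ i, g i ≤ Fintype.card ι)
    (hinj : ∀ i j, g i = g j → g i < Fintype.card ι → i = j) :
    Fintype.card ι * (Fintype.card ι - 1) / 2 ≤ ∑ i, g i := by
  classical
  set D := Fintype.card ι with hD
  have h1 : ∀ i, g i = ∑ k ∈ range D, if k < g i then 1 else 0 := by
    intro i
    rw [← Finset.sum_filter]
    have : (range D).filter (fun k => k < g i) = range (g i) := by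
      ext k
      simp only [mem_filter, mem_range]
      have := hg i
      omega
    rw [this]; simp
  have h2 : ∀ k ∈ range D, D - 1 - k ≤ ∑ i, if k < g i then 1 else 0 := by
    intro k hk
    have hk' : k < D := mem_range.mp hk
    rw [← Finset.sum_filter]
    simp only [sum_const, smul_eq_mul, mul_one]
    have h3 : (univ.filter (fun i => ¬ k < g i)).card ≤ (range (k + 1)).card := by
      apply Finset.card_le_card_of_injOn g
      · intro i hi
        simp only [coe_filter, mem_univ, true_and, Set.mem_ofPred_eq] at hi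
        simp only [coe_range, Set.mem_Iio]
        omega
      · intro i hi j _ hij
        simp only [coe_filter, mem_univ, true_and, Set.mem_ofPred_eq] at hi
        exact hinj i j hij (by omega)
    have h4 := Finset.card_filter_add_card_filter_not (s := (univ : Finset ι)) (fun i => k < g i)
    rw [card_range] at h3
    rw [Finset.card_univ] at h4
    omega
  have h5 : ∑ i, g i = ∑ k ∈ range D, ∑ i, if k < g i then 1 else 0 := by
    rw [Finset.sum_comm]
    exact Finset.sum_congr rfl (fun i _ => h1 i)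
  have h6 : ∑ k ∈ range D, (D - 1 - k) = D * (D - 1) / 2 := by
    rw [Finset.sum_range_reflect (fun k => k) D, Finset.sum_range_id]
  rw [h5, ← h6]
  exact Finset.sum_le_sum h2

lemma det_bound {ι : Type} [Fintype ι] [DecidableEq ι] (A : Matrix ι ι ℝ) (b : ι → ℝ)
    (h : ∀ i j, |A i j| ≤ b i) :
    |A.det| ≤ (Fintype.card ι).factorial * ∏ i, b i := by
  rw [← Matrix.det_transpose, Matrix.det_apply]
  refine (Finset.abs_sum_le_sum_abs _ _).trans ?_
  have : ∀ σ ∈ (univ : Finset (Equiv.Perm ι)),
      |Equiv.Perm.sign σ • ∏ i, A.transpose (σ i) i| ≤ ∏ i, b i := by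
    intro σ _
    have hs : |Equiv.Perm.sign σ • ∏ i, A.transpose (σ i) i| = |∏ i, A.transpose (σ i) i| := by
      rcases Int.units_eq_one_or (Equiv.Perm.sign σ) with h | h <;> simp [h]
    rw [hs, Finset.abs_prod]
    exact Finset.prod_le_prod (fun i _ => abs_nonneg _) (fun i _ => h i (σ i))
  refine (Finset.sum_le_sum this).trans ?_
  simp [Fintype.card_perm]

theorem det : DetStmt := by
  intro ι _ _ Z ρ ζ c f E M hZ hρ hζ hf hs hM hE
  classical
  set D := Fintype.card ι with hD
  have hρ0 : 0 < ρ := by linarith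
  let v : ι → Fin (D + 1) → ι → ℝ := fun i o j =>
    if (o : ℕ) < D then c i o * ζ j ^ (o : ℕ)
    else (∑' n, c i (n + D) * ζ j ^ (n + D)) + E i j
  let a : ι → Fin (D + 1) → ℝ := fun i o =>
    if (o : ℕ) < D then |c i o| * (ρ * Z) ^ (o : ℕ)
    else (∑' n, |c i (n + D)| * (ρ * Z) ^ (n + D)) + M i
  have hM0 : ∀ i, 0 ≤ M i := fun i =>
    (tsum_nonneg (fun n => by positivity)).trans (hM i)
  have ha0 : ∀ i o, 0 ≤ a i o := by
    intro i o
    simp only [a]
    split_ifs
    · positivity
    · have := hM0 i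
      have : 0 ≤ ∑' n, |c i (n + D)| * (ρ * Z) ^ (n + D) := tsum_nonneg (fun n => by positivity)
      positivity
  have hrow : ∀ i j, f i j + E i j = ∑ o, v i o j := by
    intro i j
    rw [Fin.sum_univ_castSucc]
    simp only [v, Fin.val_castSucc, Fin.is_lt, if_true, Fin.val_last, lt_irrefl, if_false]
    rw [Fin.sum_univ_eq_sum_range (fun n => c i n * ζ j ^ n) D, ← add_assoc,
      (hf i j).summable.sum_add_tsum_nat_add D, (hf i j).tsum_eq]
  have hasum : ∀ i, ∑ o, a i o ≤ 2 * M i := by
    intro i
    rw [Fin.sum_univ_castSucc]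
    simp only [a, Fin.val_castSucc, Fin.is_lt, if_true, Fin.val_last, lt_irrefl, if_false]
    rw [Fin.sum_univ_eq_sum_range (fun n => |c i n| * (ρ * Z) ^ n) D, ← add_assoc,
      (hs i).sum_add_tsum_nat_add D]
    have := hM i
    linarith
  have hterm : ∀ i j n, |c i n * ζ j ^ n| ≤ |c i n| * (ρ * Z) ^ n / ρ ^ n := by
    intro i j n
    rw [abs_mul, abs_pow, mul_pow, mul_div_assoc, mul_div_cancel_left₀ _ (by positivity)]
    exact mul_le_mul_of_nonneg_left (pow_le_pow_left₀ (abs_nonneg _) (hζ j) n) (abs_nonneg _)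
  have hva : ∀ i o j, |v i o j| ≤ a i o / ρ ^ (o : ℕ) := by
    intro i o j
    simp only [v, a]
    split_ifs with ho
    · exact hterm i j o
    · have hoD : (o : ℕ) = D := by have := o.is_lt; omega
      rw [hoD, add_div]
      refine (abs_add_le _ _).trans (add_le_add ?_ (hE i j))
      have hs' : Summable (fun n => |c i (n + D)| * (ρ * Z) ^ (n + D)) :=
        (summable_nat_add_iff D).mpr (hs i)
      have hle : ∀ n, ‖c i (n + D) * ζ j ^ (n + D)‖ ≤
          |c i (n + D)| * (ρ * Z) ^ (n + D) / ρ ^ D := by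
        intro n
        rw [Real.norm_eq_abs]
        refine (hterm i j (n + D)).trans ?_
        apply div_le_div_of_nonneg_left (by positivity) (by positivity)
        exact pow_le_pow_right₀ hρ (by omega)
      have := tsum_of_norm_bounded (hs'.div_const (ρ ^ D)).hasSum hle
      rw [tsum_div_const, Real.norm_eq_abs] at this
      exact this
  have hmat : (Matrix.of fun i j => f i j + E i j) = fun i => ∑ o, v i o := by
    ext i j
    rw [Matrix.of_apply, hrow, Finset.sum_apply]
  have hexp : Matrix.det (Matrix.of fun i j => f i j + E i j) =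
      ∑ ν : ι → Fin (D + 1), Matrix.det (Matrix.of fun i => v i (ν i)) := by
    rw [hmat]
    exact (Matrix.detRowAlternating (n := ι) (R := ℝ)).toMultilinearMap.map_sum v
  have hone : ∀ ν : ι → Fin (D + 1), |Matrix.det (Matrix.of fun i => v i (ν i))| ≤
      D.factorial * (∏ i, a i (ν i)) / ρ ^ (D * (D - 1) / 2) := by
    intro ν
    have hpa : 0 ≤ ∏ i, a i (ν i) := Finset.prod_nonneg (fun i _ => ha0 i _)
    by_cases hinj : ∀ i j, (ν i : ℕ) = ν j → (ν i : ℕ) < D → i = j
    · have h1 := det_bound (Matrix.of fun i => v i (ν i)) (fun i => a i (ν i) / ρ ^ (ν i : ℕ))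
        (fun i j => hva i (ν i) j)
      refine h1.trans ?_
      rw [Finset.prod_div_distrib, Finset.prod_pow_eq_pow_sum, mul_div_assoc]
      apply mul_le_mul_of_nonneg_left _ (by positivity)
      apply div_le_div_of_nonneg_left hpa (by positivity)
      apply pow_le_pow_right₀ hρ
      exact sum_ge (fun i => (ν i : ℕ)) (fun i => by have := (ν i).is_lt; omega) hinj
    · push Not at hinj
      obtain ⟨i, j, hij, hlt, hne⟩ := hinj
      have hz : Matrix.det (Matrix.of fun i => v i (ν i)) = 0 := by
        let B : Matrix ι ι ℝ := Matrix.of fun k l =>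
          if (ν k : ℕ) < D then ζ l ^ (ν k : ℕ) else v k (ν k) l
        let s : ι → ℝ := fun k => if (ν k : ℕ) < D then c k (ν k) else 1
        have hB : (Matrix.of fun i => v i (ν i)) = Matrix.of fun k l => s k * B k l := by
          ext k l
          simp only [Matrix.of_apply, B, s]
          split_ifs with h
          · simp only [v, h, if_true]
          · simp
        rw [hB, Matrix.det_mul_column]
        have : B.det = 0 := by
          apply Matrix.det_zero_of_row_eq hne
          ext l
          have hlt' : (ν j : ℕ) < D := hij ▸ hlt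
          simp only [B, Matrix.of_apply, hlt', if_true, hij]
        rw [this, mul_zero]
      rw [hz, abs_zero]
      positivity
  rw [hexp]
  refine (Finset.abs_sum_le_sum_abs _ _).trans ((Finset.sum_le_sum (fun ν _ => hone ν)).trans ?_)
  rw [← Finset.sum_div, ← Finset.mul_sum]
  apply div_le_div_of_nonneg_right _ (by positivity)
  apply mul_le_mul_of_nonneg_left _ (by positivity)
  have := Finset.prod_univ_sum (fun _ : ι => (univ : Finset (Fin (D + 1)))) a
  rw [Fintype.piFinset_univ] at this
  rw [← this]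
  exact Finset.prod_le_prod (fun i _ => Finset.sum_nonneg (fun o _ => ha0 i o))
    (fun i _ => hasum i)

lemma step (z R B t : ℝ) (F : ℝ → ℝ) (c : ℕ → ℝ) (hR : 0 ≤ R)
    (h1 : ∀ ζ : ℝ, |ζ| ≤ z → HasSum (fun n => c n * ζ ^ n) (F ζ))
    (h2 : Summable (fun n => |c n| * R ^ n)) (h3 : ∑' n, |c n| * R ^ n ≤ B) :
    ∃ c' : ℕ → ℝ, (∀ ζ : ℝ, |ζ| ≤ z → HasSum (fun n => c' n * ζ ^ n) ((ζ + t) * F ζ)) ∧
      Summable (fun n => |c' n| * R ^ n) ∧ ∑' n, |c' n| * R ^ n ≤ (R + |t|) * B := by
  let d : ℕ → ℝ := fun n => Nat.casesOn n 0 c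
  have hd : ∀ (g : ℝ → ℝ) (x S : ℝ), g 0 = 0 → HasSum (fun n => g (c n) * x ^ n) S →
      HasSum (fun n => g (d n) * x ^ n) (x * S) := by
    intro g x S hg h
    rw [← hasSum_nat_add_iff' 1]
    have e1 : (fun n => g (d (n + 1)) * x ^ (n + 1)) = fun n => x * (g (c n) * x ^ n) := by
      funext n
      show g (c n) * x ^ (n + 1) = _
      ring
    have e2 : ∑ i ∈ range 1, g (d i) * x ^ i = 0 := by
      rw [range_one, sum_singleton]
      show g 0 * x ^ 0 = 0
      rw [hg, zero_mul]
    rw [e1, e2, sub_zero]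
    exact h.mul_left x
  have hA : HasSum (fun n => |d n| * R ^ n) (R * ∑' n, |c n| * R ^ n) :=
    hd (fun x => |x|) R _ abs_zero h2.hasSum
  have hB : HasSum (fun n => |t| * (|c n| * R ^ n)) (|t| * ∑' n, |c n| * R ^ n) :=
    h2.hasSum.mul_left _
  have hle : ∀ n, |d n + t * c n| * R ^ n ≤ |d n| * R ^ n + |t| * (|c n| * R ^ n) := by
    intro n
    have : |d n + t * c n| ≤ |d n| + |t| * |c n| := by
      rw [← abs_mul]; exact abs_add_le _ _
    calc _ ≤ (|d n| + |t| * |c n|) * R ^ n := mul_le_mul_of_nonneg_right this (by positivity)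
      _ = _ := by ring
  have hsum : Summable (fun n => |d n + t * c n| * R ^ n) :=
    Summable.of_nonneg_of_le (fun n => by positivity) hle (hA.add hB).summable
  refine ⟨fun n => d n + t * c n, ?_, hsum, ?_⟩
  · intro ζ hζ
    have := (hd (fun x => x) ζ _ rfl (h1 ζ hζ)).add ((h1 ζ hζ).mul_left t)
    convert this using 1
    · ext n; ring
    · ring
  · have := hasSum_le hle hsum.hasSum (hA.add hB)
    refine this.trans ?_
    rw [← add_mul]
    exact mul_le_mul_of_nonneg_left h3 (by positivity)

theorem maj : MajStmt := by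
  intro z ρ β k hz hρ hk
  have hR : 0 ≤ ρ * z := by positivity
  have hexp : ∀ x : ℝ, HasSum (fun n : ℕ => x ^ n / n.factorial) (Real.exp x) := by
    intro x
    rw [Real.exp_eq_exp_ℝ]
    exact NormedSpace.expSeries_div_hasSum_exp x
  have key : ∀ k : ℕ, (k : ℝ) ≤ 2 * z + 1 → ∃ c : ℕ → ℝ,
      (∀ ζ : ℝ, |ζ| ≤ z → HasSum (fun n => c n * ζ ^ n)
        ((∏ t ∈ range k, (ζ + z - t)) * Real.exp (β * ζ))) ∧
      Summable (fun n => |c n| * (ρ * z) ^ n) ∧
      ∑' n, |c n| * (ρ * z) ^ n ≤ ((ρ + 1) * z) ^ k * Real.exp (|β| * (ρ * z)) := by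
    intro k
    induction k with
    | zero =>
      intro _
      have hm : HasSum (fun n : ℕ => |β ^ n / n.factorial| * (ρ * z) ^ n)
          (Real.exp (|β| * (ρ * z))) := by
        convert hexp (|β| * (ρ * z)) using 2 with n
        rw [abs_div, abs_pow, Nat.abs_cast, mul_pow |β|]
        ring
      refine ⟨fun n => β ^ n / n.factorial, ?_, hm.summable, ?_⟩
      · intro ζ _
        simp only [range_zero, prod_empty, one_mul]
        convert hexp (β * ζ) using 2 with n
        rw [mul_pow]; ring
      · rw [hm.tsum_eq]; simp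
    | succ k ih =>
      intro hk
      push_cast at hk
      obtain ⟨c, h1, h2, h3⟩ := ih (by linarith)
      obtain ⟨c', g1, g2, g3⟩ := step z (ρ * z) _ (z - k) _ c hR h1 h2 h3
      refine ⟨c', ?_, g2, g3.trans ?_⟩
      · intro ζ hζ
        convert g1 ζ hζ using 1
        rw [Finset.prod_range_succ]; ring
      · have hk0 : (0 : ℝ) ≤ k := Nat.cast_nonneg k
        have : |z - k| ≤ z := by
          rw [abs_le]; constructor <;> linarith
        rw [pow_succ', mul_assoc ((ρ + 1) * z)]
        apply mul_le_mul_of_nonneg_right _ (by positivity)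
        linarith
  obtain ⟨c, h1, h2, h3⟩ := key k hk
  have habs : ∀ n, |c n / k.factorial| * (ρ * z) ^ n = |c n| * (ρ * z) ^ n / k.factorial := by
    intro n
    rw [abs_div, Nat.abs_cast]; ring
  refine ⟨fun n => c n / k.factorial, ?_, ?_, ?_⟩
  · intro ζ hζ
    have e1 : (fun n => c n / k.factorial * ζ ^ n) = fun n => c n * ζ ^ n / k.factorial := by
      funext n; ring
    rw [e1, div_mul_eq_mul_div]
    exact (h1 ζ hζ).div_const (k.factorial : ℝ)
  · simp only [habs]
    exact h2.div_const _
  · simp only [habs]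
    rw [tsum_div_const, div_mul_eq_mul_div]
    exact div_le_div_of_nonneg_right h3 (by positivity)

end Pool.Agent.MP_089fcb_co.H7.Det
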