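import Pool.Agent.MP_089fcb_co.H7.Defs

set_option autoImplicit false

open Finset

namespace Pool.Agent.MP_089fcb_co.H7.Final

theorem isPerf_compl {α : Type} [Fintype α] [DecidableEq α] {w w' e : ℕ} {C : Finset (Finset α)}
    (h : IsPerf w e C) (hn : Fintype.card α = w + w') : IsPerf w' e (C.image compl) := by
  refine ⟨?_, ?_⟩
  · intro A hA
    obtain ⟨B, hB, rfl⟩ := Finset.mem_image.1 hA
    rw [Finset.card_compl, h.1 B hB]
    omega
  · intro X hX
    have hXc : Xᶜ.card = w := by rw [Finset.card_compl, hX]; omega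
    have key : ∀ B ∈ C, (X \ Bᶜ).card = (Xᶜ \ B).card := by
      intro B hB
      have e1 : X \ Bᶜ = B \ Xᶜ := by ext; simp [and_comm]
      rw [e1]
      exact Finset.card_sdiff_comm (by rw [h.1 B hB, hXc])
    obtain ⟨B, ⟨hB, hBe⟩, hu⟩ := h.2 Xᶜ hXc
    refine ⟨Bᶜ, ⟨Finset.mem_image_of_mem _ hB, by rw [key B hB]; exact hBe⟩, ?_⟩
    rintro A ⟨hA, hAe⟩
    obtain ⟨B', hB', rfl⟩ := Finset.mem_image.1 hA
    rw [key B' hB'] at hAe
    rw [hu B' ⟨hB', hAe⟩]

theorem no_code (hS : SteinerStmt) (hL : LloydStmt) (hA : ArithStmt) {α : Type} [Fintype α]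
    [DecidableEq α] {w w' e : ℕ} {C : Finset (Finset α)} (h : IsPerf w e C)
    (hn : Fintype.card α = w + w') (he : 1 ≤ e) (h2 : 2 ≤ C.card) (hw : 2 * e + 1 < w) : False := by
  obtain ⟨s1, s2, s3, s4, s5, s6, s7⟩ := hS α w w' e C h hn he h2 hw
  rcases le_total w w' with hww | hww
  · obtain ⟨J, l1, l2, l3, l4, l5⟩ := hL α w w' e C h hn he (by omega) hww
    exact hA e w w' J ⟨he, hww, s1, s2, s3, s5, s7, l1, l2, l3, l4, l5⟩
  · obtain ⟨J, l1, l2, l3, l4, l5⟩ := hL α w' w e _ (isPerf_compl h hn) (by omega) he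
      (by nlinarith) hww
    exact hA e w' w J ⟨he, hww, s2, s1, s4, s6, fun h => (s7 h).symm, l1, l2, l3, l4, l5⟩

theorem dist_ge {α : Type} [Fintype α] [DecidableEq α] {w e : ℕ} {C : Finset (Finset α)}
    (h : IsPerf w e C) {A B : Finset α} (hA : A ∈ C) (hB : B ∈ C) (hne : A ≠ B) :
    2 * e + 1 ≤ (A \ B).card := by
  by_contra hc
  have hAB : (A \ B).card = (B \ A).card := Finset.card_sdiff_comm (by rw [h.1 A hA, h.1 B hB])
  obtain ⟨P, hP1, hP2⟩ := Finset.exists_subset_card_eq (s := A \ B) (n := min e (A \ B).card)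
    (min_le_right _ _)
  obtain ⟨Q, hQ1, hQ2⟩ := Finset.exists_subset_card_eq (s := B \ A) (n := min e (A \ B).card)
    (by rw [← hAB]; exact min_le_right _ _)
  have hPA : P ⊆ A := hP1.trans Finset.sdiff_subset
  have hdisj : Disjoint (A \ P) Q := by
    rw [Finset.disjoint_left]
    intro a ha hq
    exact (Finset.mem_sdiff.1 (hQ1 hq)).2 (Finset.mem_sdiff.1 ha).1
  have hX : (A \ P ∪ Q).card = w := by
    rw [Finset.card_union_of_disjoint hdisj, Finset.card_sdiff_of_subset hPA, hP2, hQ2, h.1 A hA]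
    have := Finset.card_le_card hPA
    rw [hP2, h.1 A hA] at this
    omega
  obtain ⟨D, -, hu⟩ := h.2 _ hX
  have h1 : ((A \ P ∪ Q) \ A).card ≤ e := by
    refine le_trans (Finset.card_le_card (t := Q) ?_) (by omega)
    intro a ha
    simp only [Finset.mem_sdiff, Finset.mem_union] at ha
    tauto
  have h2 : ((A \ P ∪ Q) \ B).card ≤ e := by
    refine le_trans (Finset.card_le_card (t := (A \ B) \ P) ?_) ?_
    · intro a ha
      simp only [Finset.mem_sdiff, Finset.mem_union] at ha ⊢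
      rcases ha with ⟨h3 | h3, h4⟩
      · tauto
      · exact absurd (Finset.mem_sdiff.1 (hQ1 h3)).1 h4
    · rw [Finset.card_sdiff_of_subset hP1, hP2]
      omega
  exact hne ((hu A ⟨hA, h1⟩).trans (hu B ⟨hB, h2⟩).symm)

theorem main (hS : SteinerStmt) (hL : LloydStmt) (hA : ArithStmt) :
    ¬ (∃ v k e : ℕ, ∃ C : Finset (Finset (Fin v)),
      (∀ A ∈ C, A.card = k) ∧ 2 ≤ C.card ∧
      (∀ X : Finset (Fin v), X.card = k → ∃! A, A ∈ C ∧ (X \ A).card ≤ e) ∧
      ∃ d : ℕ, 1 < d ∧ d < k ∧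
        (∀ A ∈ C, ∀ B ∈ C, A ≠ B → d ≤ (A \ B).card) ∧
        ∃ A ∈ C, ∃ B ∈ C, A ≠ B ∧ (A \ B).card = d) := by
  rintro ⟨v, k, e, C, h1, h2, h3, d, hd1, hd2, hmin, A, hAC, B, hBC, hne, hd⟩
  have h : IsPerf k e C := ⟨h1, h3⟩
  have hkv : k ≤ v := by
    have := Finset.card_le_univ A
    rwa [h1 A hAC, Fintype.card_fin] at this
  rcases Nat.eq_zero_or_pos e with rfl | he
  · have hBA : (B \ A).card = d := by
      rw [← hd]; exact Finset.card_sdiff_comm (by rw [h1 A hAC, h1 B hBC])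
    obtain ⟨a, ha⟩ : (A \ B).Nonempty := by rw [← Finset.card_pos]; omega
    obtain ⟨b, hb⟩ : (B \ A).Nonempty := by rw [← Finset.card_pos]; omega
    rw [Finset.mem_sdiff] at ha hb
    have hX : (insert b (A.erase a)).card = k := by
      rw [Finset.card_insert_of_notMem (by simp [hb.2]), Finset.card_erase_of_mem ha.1, h1 A hAC]
      omega
    obtain ⟨D, ⟨hD, hD0⟩, -⟩ := h3 _ hX
    have hsub : insert b (A.erase a) ⊆ D := by
      rwa [Nat.le_zero, Finset.card_eq_zero, Finset.sdiff_eq_empty_iff_subset] at hD0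
    have hAD : A ≠ D := by
      rintro rfl
      exact hb.2 (hsub (Finset.mem_insert_self _ _))
    have h4 := hmin A hAC D hD hAD
    have h5 : (A \ D).card ≤ ({a} : Finset (Fin v)).card := by
      refine Finset.card_le_card ?_
      intro z hz
      rw [Finset.mem_sdiff] at hz
      rw [Finset.mem_singleton]
      by_contra hza
      exact hz.2 (hsub (Finset.mem_insert_of_mem (Finset.mem_erase.2 ⟨hza, hz.1⟩)))
    rw [Finset.card_singleton] at h5
    omega
  · have := dist_ge h hAC hBC hne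
    exact no_code hS hL hA (w' := v - k) h (by rw [Fintype.card_fin]; omega) he h2 (by omega)

end Pool.Agent.MP_089fcb_co.H7.Final
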