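import Mathlib
import Pool.Agent.MP_089fcb_co.H7.Defs

set_option autoImplicit false

namespace Pool.Agent.MP_089fcb_co.H7.KRoot

/-- Bit `d` of `orS x k` is the disjunction of the bits `d, …, d + 2 ^ k - 1` of `x`. -/
def orS (x : ℕ) : ℕ → ℕ
  | 0 => x
  | k + 1 => orS x k ||| (orS x k >>> 2 ^ k)

/-- Bit `d` of `anS x k` is the conjunction of the bits `d, …, d + 2 ^ k - 1` of `x`. -/
def anS (x : ℕ) : ℕ → ℕ
  | 0 => x
  | k + 1 => anS x k &&& (anS x k >>> 2 ^ k)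

theorem orS_spec (x : ℕ) : ∀ k d, (orS x k).testBit d = true →
    ∃ i, i < 2 ^ k ∧ x.testBit (d + i) = true := by
  intro k
  induction k with
  | zero => intro d h; exact ⟨0, by norm_num, by simpa [orS] using h⟩
  | succ k ih =>
    intro d h
    rw [orS, Nat.testBit_or, Nat.testBit_shiftRight, Bool.or_eq_true] at h
    rcases h with h | h
    · obtain ⟨i, hi, hx⟩ := ih d h
      exact ⟨i, by rw [pow_succ]; omega, hx⟩
    · obtain ⟨i, hi, hx⟩ := ih _ h
      refine ⟨2 ^ k + i, by rw [pow_succ]; omega, ?_⟩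
      rw [show d + (2 ^ k + i) = 2 ^ k + d + i by omega]; exact hx

theorem anS_spec (x : ℕ) : ∀ k d, (∀ i, i < 2 ^ k → x.testBit (d + i) = true) →
    (anS x k).testBit d = true := by
  intro k
  induction k with
  | zero => intro d h; simpa [anS] using h 0 (by norm_num)
  | succ k ih =>
    intro d h
    rw [anS, Nat.testBit_and, Nat.testBit_shiftRight, Bool.and_eq_true]
    refine ⟨ih d (fun i hi => h i (by rw [pow_succ]; omega)), ih _ (fun i hi => ?_)⟩
    rw [show 2 ^ k + d + i = d + (2 ^ k + i) by omega]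
    exact h _ (by rw [pow_succ]; omega)

/-- The check for one residue class of the exponent. -/
def chk1 (l c H M : ℕ) : Bool :=
  Nat.ble (M ^ l) (2 ^ (c + l * (H + 64))) && Nat.blt (2 ^ (c + l * (H + 64))) ((M + 1) ^ l) &&
    Nat.beq (orS M 6 % 2 ^ (H + 1)) (2 ^ (H + 1) - 1) && Nat.beq (anS M 6) 0

theorem window (M H d : ℕ) (hd : d ≤ H) (h1 : orS M 6 % 2 ^ (H + 1) = 2 ^ (H + 1) - 1)
    (h2 : anS M 6 = 0) :
    0 < (M / 2 ^ d) % 2 ^ 64 ∧ (M / 2 ^ d) % 2 ^ 64 + 1 < 2 ^ 64 := by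
  have key : ∀ i, i < 64 → ((M / 2 ^ d) % 2 ^ 64).testBit i = M.testBit (d + i) := by
    intro i hi
    rw [Nat.testBit_mod_two_pow, ← Nat.shiftRight_eq_div_pow, Nat.testBit_shiftRight]
    simp [hi]
  constructor
  · rcases Nat.eq_zero_or_pos ((M / 2 ^ d) % 2 ^ 64) with h | h
    · exfalso
      have h3 : (orS M 6).testBit d = true := by
        have : (orS M 6 % 2 ^ (H + 1)).testBit d = true := by
          rw [h1, Nat.testBit_two_pow_sub_one]; simp; omega
        rw [Nat.testBit_mod_two_pow, Bool.and_eq_true] at this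
        exact this.2
      obtain ⟨i, hi, hx⟩ := orS_spec M 6 d h3
      have := key i (by simpa using hi)
      rw [h, hx] at this
      simp at this
    · exact h
  · have hlt : (M / 2 ^ d) % 2 ^ 64 < 2 ^ 64 := Nat.mod_lt _ (by positivity)
    rcases Nat.lt_or_ge ((M / 2 ^ d) % 2 ^ 64 + 1) (2 ^ 64) with h | h
    · exact h
    · exfalso
      have he : (M / 2 ^ d) % 2 ^ 64 = 2 ^ 64 - 1 := by omega
      have h3 : (anS M 6).testBit d = true := by
        refine anS_spec M 6 d (fun i hi => ?_)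
        have hi' : i < 64 := by simpa using hi
        rw [← key i hi', he, Nat.testBit_two_pow_sub_one]
        simpa using hi'
      rw [h2] at h3
      simp at h3

/-- The gap between `X` and any power `n ^ l` with `n` not in `{R, R + 1}`. -/
theorem gap (l R X n : ℕ) (hl : 1 ≤ l) (h1 : R ^ l ≤ X) (h2 : X < (R + 1) ^ l)
    (hn : n + 1 ≤ R ∨ R + 2 ≤ n) :
    (X : ℤ) ≤ |(n : ℤ) ^ l - X| * (R + 1) := by
  obtain ⟨k, rfl⟩ : ∃ k, l = k + 1 := ⟨l - 1, by omega⟩
  have h1' : (R : ℤ) ^ (k + 1) ≤ X := by exact_mod_cast h1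
  have h2' : (X : ℤ) < ((R : ℤ) + 1) ^ (k + 1) := by exact_mod_cast h2
  have hR : (0 : ℤ) ≤ R := by positivity
  have hX : (0 : ℤ) ≤ X := by positivity
  have hn0 : (0 : ℤ) ≤ n := by positivity
  rcases hn with hn | hn
  · have hn' : (n : ℤ) + 1 ≤ R := by exact_mod_cast hn
    have a1 : (n : ℤ) ^ k ≤ (R : ℤ) ^ k := pow_le_pow_left₀ hn0 (by linarith) k
    have a2 : (n : ℤ) ^ (k + 1) * R ≤ (R - 1) * X := by
      calc (n : ℤ) ^ (k + 1) * R = (n : ℤ) ^ k * n * R := by ring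
        _ ≤ (R : ℤ) ^ k * (R - 1) * R := by
          apply mul_le_mul_of_nonneg_right _ hR
          exact mul_le_mul a1 (by linarith) hn0 (by positivity)
        _ = (R - 1) * (R : ℤ) ^ (k + 1) := by ring
        _ ≤ (R - 1) * X := mul_le_mul_of_nonneg_left h1' (by linarith)
    have a3 : (X : ℤ) - (n : ℤ) ^ (k + 1) ≤ |(n : ℤ) ^ (k + 1) - X| := by
      rw [abs_sub_comm]; exact le_abs_self _
    have a4 : (0 : ℤ) ≤ |(n : ℤ) ^ (k + 1) - X| := abs_nonneg _
    nlinarith [mul_le_mul_of_nonneg_right a3 hR]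
  · have hn' : (R : ℤ) + 2 ≤ n := by exact_mod_cast hn
    have a1 : ((R : ℤ) + 1) ^ k ≤ (n : ℤ) ^ k := pow_le_pow_left₀ (by linarith) (by linarith) k
    have a2 : (R + 2) * (X : ℤ) ≤ (n : ℤ) ^ (k + 1) * (R + 1) := by
      calc (R + 2) * (X : ℤ) ≤ (R + 2) * ((R : ℤ) + 1) ^ (k + 1) :=
            mul_le_mul_of_nonneg_left h2'.le (by linarith)
        _ = ((R : ℤ) + 1) ^ k * (R + 2) * (R + 1) := by ring
        _ ≤ (n : ℤ) ^ k * n * (R + 1) := by
          apply mul_le_mul_of_nonneg_right _ (by linarith)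
          exact mul_le_mul a1 hn' (by linarith) (by positivity)
        _ = (n : ℤ) ^ (k + 1) * (R + 1) := by ring
    have a3 : (n : ℤ) ^ (k + 1) - X ≤ |(n : ℤ) ^ (k + 1) - X| := le_abs_self _
    nlinarith [mul_le_mul_of_nonneg_right a3 (show (0 : ℤ) ≤ R + 1 by linarith)]

theorem far_core (l c h B R : ℕ) (hl : 1 ≤ l) (hc : c < l)
    (ha : 2 * (h + B + 1) ≤ l * h + c) (r1 : R ^ l ≤ 2 ^ (c + l * (h + B)))
    (r2 : 2 ^ (c + l * (h + B)) < (R + 1) ^ l) (w1 : 0 < R % 2 ^ B) (w2 : R % 2 ^ B + 1 < 2 ^ B) :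
    Far (l * h + c) l := by
  have r3 : R + 1 ≤ 2 ^ (h + B + 1) := by
    by_contra hcon
    have h4 : 2 ^ (h + B + 1) ≤ R := by omega
    have h5 : (2 ^ (h + B + 1)) ^ l ≤ R ^ l := Nat.pow_le_pow_left h4 l
    rw [← pow_mul] at h5
    have h6 := (Nat.pow_le_pow_iff_right (by norm_num : 1 < 2)).1 (h5.trans r1)
    nlinarith
  intro m
  have hn : m * 2 ^ B + 1 ≤ R ∨ R + 2 ≤ m * 2 ^ B := by
    have e := Nat.div_add_mod R (2 ^ B)
    generalize 2 ^ B = Q at *
    rcases Nat.lt_or_ge (R / Q) m with hm | hm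
    · right
      have : (R / Q + 1) * Q ≤ m * Q := Nat.mul_le_mul_right _ hm
      nlinarith
    · left
      have : m * Q ≤ (R / Q) * Q := Nat.mul_le_mul_right _ hm
      nlinarith
  have g := gap l R _ _ hl r1 r2 hn
  have r3' : (R : ℤ) + 1 ≤ 2 ^ (h + B + 1) := by exact_mod_cast r3
  have e2 : ((2 ^ (c + l * (h + B)) : ℕ) : ℤ) = 2 ^ (l * h + c) * 2 ^ (B * l) := by
    push_cast
    rw [← pow_add]; congr 1; ring
  have e1 : ((m * 2 ^ B : ℕ) : ℤ) ^ l - 2 ^ (l * h + c) * 2 ^ (B * l) =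
      ((m : ℤ) ^ l - 2 ^ (l * h + c)) * 2 ^ (B * l) := by
    push_cast
    rw [mul_pow, sub_mul, ← pow_mul]
  rw [e2, e1, abs_mul, abs_of_pos (show (0 : ℤ) < 2 ^ (B * l) by positivity)] at g
  rw [← sq_abs]
  have hT0 : 0 ≤ |(m : ℤ) ^ l - 2 ^ (l * h + c)| := abs_nonneg _
  generalize |(m : ℤ) ^ l - 2 ^ (l * h + c)| = T at *
  obtain ⟨s, hs⟩ : ∃ s, l * h + c = 2 * (h + B + 1) + s :=
    ⟨l * h + c - (2 * (h + B + 1)), by omega⟩
  generalize l * h + c = a at *
  generalize h + B + 1 = u at *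
  have g2 : (2 : ℤ) ^ a ≤ T * 2 ^ u := by
    have h7 : (2 : ℤ) ^ a * 2 ^ (B * l) ≤ T * 2 ^ u * 2 ^ (B * l) := by
      calc _ ≤ T * 2 ^ (B * l) * (R + 1) := g
        _ ≤ T * 2 ^ (B * l) * 2 ^ u := mul_le_mul_of_nonneg_left r3' (by positivity)
        _ = _ := by ring
    exact le_of_mul_le_mul_right h7 (by positivity)
  have g3 : ((2 : ℤ) ^ a) ^ 2 ≤ (T * 2 ^ u) ^ 2 := pow_le_pow_left₀ (by positivity) g2 2
  have e3 : ((2 : ℤ) ^ a) ^ 2 = (2 ^ a * 2 ^ s) * (2 ^ u) ^ 2 := by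
    rw [← pow_mul, ← pow_mul, ← pow_add, ← pow_add]; congr 1; omega
  rw [e3, mul_pow] at g3
  have g4 := le_of_mul_le_mul_right g3 (by positivity)
  have g5 : (2 : ℤ) ^ a ≤ 2 ^ a * 2 ^ s :=
    le_mul_of_one_le_right (by positivity) (one_le_pow₀ (by norm_num))
  exact g5.trans g4

theorem root_shift (l e d M : ℕ) (k1 : M ^ l ≤ 2 ^ (e + l * d)) (k2 : 2 ^ (e + l * d) < (M + 1) ^ l) :
    (M / 2 ^ d) ^ l ≤ 2 ^ e ∧ 2 ^ e < (M / 2 ^ d + 1) ^ l := by
  have hsplit : 2 ^ (e + l * d) = 2 ^ e * (2 ^ d) ^ l := by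
    rw [← pow_mul, ← pow_add, mul_comm]
  have hp : 0 < (2 ^ d) ^ l := by positivity
  rw [hsplit] at k1 k2
  constructor
  · have : M / 2 ^ d * 2 ^ d ≤ M := Nat.div_mul_le_self _ _
    have h3 := Nat.pow_le_pow_left this l
    rw [mul_pow] at h3
    exact Nat.le_of_mul_le_mul_right (h3.trans k1) hp
  · have : M + 1 ≤ (M / 2 ^ d + 1) * 2 ^ d := by
      have := Nat.lt_div_mul_add (a := M) (b := 2 ^ d) (by positivity)
      rw [add_mul, one_mul]; exact this
    have h3 := Nat.pow_le_pow_left this l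
    rw [mul_pow] at h3
    exact Nat.lt_of_mul_lt_mul_right (lt_of_lt_of_le k2 h3)

theorem far_of_chk (l c H M h : ℕ) (hl : 1 ≤ l) (hc : c < l) (hh : h ≤ H)
    (ha : 2 * h + 130 ≤ l * h + c) (hk : chk1 l c H M = true) : Far (l * h + c) l := by
  simp only [chk1, Bool.and_eq_true, Nat.ble_eq, Nat.blt_eq, Nat.beq_eq] at hk
  obtain ⟨⟨⟨k1, k2⟩, k3⟩, k4⟩ := hk
  obtain ⟨d, rfl⟩ : ∃ d, H = h + d := ⟨H - h, by omega⟩
  obtain ⟨w1, w2⟩ := window M (h + d) d (by omega) k3 k4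
  have e : c + l * (h + d + 64) = c + l * (h + 64) + l * d := by ring
  rw [e] at k1 k2
  obtain ⟨r1, r2⟩ := root_shift l _ d M k1 k2
  exact far_core l c h 64 _ hl hc (by omega) r1 r2 w1 w2

/-- One Newton step for the `l`-th root of `N`. -/
def nstep (l N x : ℕ) : ℕ := ((l - 1) * x + N / x ^ (l - 1)) / l

/-- Approximation of `2 ^ (1 / l) * 2 ^ F` by Newton steps with doubling precision. -/
def rt (l : ℕ) : ℕ → ℕ → ℕ
  | 0, F => 2 ^ F + 2 ^ F / l
  | k + 1, F => nstep l (2 ^ (1 + l * F)) ((rt l k (F / 2 + 16) + 1) * 2 ^ (F - (F / 2 + 16)))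

/-- Runs the check on `n` consecutive residues starting from `c`. -/
def loop (l H θ : ℕ) : ℕ → ℕ → ℕ → Bool
  | 0, _, _ => true
  | n + 1, c, t => chk1 l c H (t >>> 32) && loop l H θ n (c + 1) ((t * θ) >>> (H + 96))

theorem loop_spec (l H θ : ℕ) : ∀ n c t, loop l H θ n c t = true →
    ∀ c', c ≤ c' → c' < c + n → ∃ M, chk1 l c' H M = true := by
  intro n
  induction n with
  | zero => intro c t _ c' h1 h2; omega
  | succ n ih =>
    intro c t h c' h1 h2
    rw [loop, Bool.and_eq_true] at h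
    rcases Nat.eq_or_lt_of_le h1 with rfl | h3
    · exact ⟨_, h.1⟩
    · exact ih _ _ h.2 c' (by omega) (by omega)

/-- All residues for one `l`, exponents up to `A`. -/
def one (A l : ℕ) : Bool :=
  loop l (A / l) (rt l 30 (A / l + 96)) (l - 1) 1 (rt l 30 (A / l + 96))

theorem one_spec (A l a : ℕ) (h : one A l = true) (hl : 3 ≤ l) (ha : 400 < a) (hA : a ≤ A)
    (hd : ¬ l ∣ a) : Far a l := by
  have e := Nat.div_add_mod a l
  have hlt : a % l < l := Nat.mod_lt _ (by omega)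
  have h0 : a % l ≠ 0 := fun h0 => hd (Nat.dvd_of_mod_eq_zero h0)
  obtain ⟨M, hM⟩ := loop_spec _ _ _ _ _ _ h (a % l) (by omega) (by omega)
  have h3 : 3 * (a / l) ≤ l * (a / l) := Nat.mul_le_mul_right _ hl
  have := far_of_chk l (a % l) (A / l) M (a / l) (by omega) hlt (Nat.div_le_div_right hA)
    (by omega) hM
  rwa [e] at this

/-- `l` is composite and differs from `4`. -/
def skip (l : ℕ) : Bool :=
  !(Nat.beq l 4) && (List.range 20).any (fun p => Nat.ble 2 p && Nat.blt p l && Nat.beq (l % p) 0)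

theorem not_skip (l : ℕ) (h : l = 4 ∨ l.Prime) : skip l = false := by
  rcases h with rfl | h
  · decide
  · by_contra hs
    simp only [skip, Bool.not_eq_false, Bool.and_eq_true, List.any_eq_true, Nat.ble_eq,
      Nat.blt_eq, Nat.beq_eq] at hs
    obtain ⟨_, p, _, ⟨h1, h2⟩, h3⟩ := hs
    rcases (Nat.dvd_prime h).1 (Nat.dvd_of_mod_eq_zero h3) with h4 | h4 <;> omega

/-- All `l` in `[s, s + n)`. -/
def rangeChk (A : ℕ) : ℕ → ℕ → Bool
  | 0, _ => true
  | n + 1, s => (skip s || one A s) && rangeChk A n (s + 1)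

theorem range_spec (A : ℕ) : ∀ n s, rangeChk A n s = true → ∀ l, s ≤ l → l < s + n →
    (l = 4 ∨ l.Prime) → one A l = true := by
  intro n
  induction n with
  | zero => intro s _ l h1 h2; omega
  | succ n ih =>
    intro s h l h1 h2 hl
    rw [rangeChk, Bool.and_eq_true] at h
    rcases Nat.eq_or_lt_of_le h1 with rfl | h3
    · have := h.1
      rw [not_skip _ hl, Bool.false_or] at this
      exact this
    · exact ih _ h.2 l (by omega) (by omega) hl

end Pool.Agent.MP_089fcb_co.H7.KRoot
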