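import Mathlib
import Pool.Agent.MP_089fcb_co.H7.KRootBase

set_option autoImplicit false

namespace Pool.Agent.MP_089fcb_co.H7.KRoot

theorem far_of_nb (a b m0 : ℕ) (h1 : 2 ^ a ≤ (2 ^ a - m0 ^ b) ^ 2)
    (h2 : 2 ^ a ≤ ((m0 + 1) ^ b - 2 ^ a) ^ 2) : Far a b := by
  intro m
  have hp : 0 < 2 ^ a := by positivity
  have e : ((2 : ℤ)) ^ a = ((2 ^ a : ℕ) : ℤ) := by push_cast; rfl
  have e' : ((m : ℤ)) ^ b = ((m ^ b : ℕ) : ℤ) := by push_cast; rfl
  rw [e, e']
  rcases Nat.lt_or_ge m0 m with hm | hm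
  · have h3 : (m0 + 1) ^ b ≤ m ^ b := Nat.pow_le_pow_left hm b
    generalize (m0 + 1) ^ b = u at *
    generalize m ^ b = v at *
    generalize 2 ^ a = X at *
    have h4 : X < u := by
      by_contra hc
      rw [show u - X = 0 by omega] at h2
      omega
    obtain ⟨s, rfl⟩ : ∃ s, u = X + s := ⟨u - X, by omega⟩
    obtain ⟨t, rfl⟩ : ∃ t, v = X + s + t := ⟨v - (X + s), by omega⟩
    rw [show X + s - X = s by omega] at h2
    have h5 : (X : ℤ) ≤ (s : ℤ) ^ 2 := by exact_mod_cast h2
    push_cast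
    nlinarith [Int.natCast_nonneg s, Int.natCast_nonneg t]
  · have h3 : m ^ b ≤ m0 ^ b := Nat.pow_le_pow_left hm b
    generalize m0 ^ b = u at *
    generalize m ^ b = v at *
    generalize 2 ^ a = X at *
    have h4 : u < X := by
      by_contra hc
      rw [show X - u = 0 by omega] at h1
      omega
    obtain ⟨t, rfl⟩ : ∃ t, u = v + t := ⟨u - v, by omega⟩
    obtain ⟨s, rfl⟩ : ∃ s, X = v + t + s := ⟨X - (v + t), by omega⟩
    rw [show v + t + s - (v + t) = s by omega] at h1
    have h5 : ((v + t + s : ℕ) : ℤ) ≤ (s : ℤ) ^ 2 := by exact_mod_cast h1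
    push_cast at h5 ⊢
    nlinarith [Int.natCast_nonneg s, Int.natCast_nonneg t]

/-- Integer `b`-th root of `N`, bit by bit. -/
def rootB (N b : ℕ) : ℕ → ℕ → ℕ
  | 0, m => m
  | k + 1, m => bif Nat.ble ((m + 2 ^ k) ^ b) N then rootB N b k (m + 2 ^ k) else rootB N b k m

def nb (a b m : ℕ) : Bool :=
  Nat.ble (2 ^ a) ((2 ^ a - m ^ b) ^ 2) && Nat.ble (2 ^ a) (((m + 1) ^ b - 2 ^ a) ^ 2)

def rowB (a : ℕ) : ℕ → Bool
  | 0 => true
  | b + 1 => (Nat.blt b 4 || !(Nat.beq (Nat.gcd a b) 1) || nb a b (rootB (2 ^ a) b (a / b + 1) 0))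
      && rowB a b

theorem rowB_spec (a : ℕ) : ∀ n, rowB a n = true → ∀ b, b < n → 4 ≤ b → Nat.Coprime a b →
    Far a b := by
  intro n
  induction n with
  | zero => intro _ b h; omega
  | succ n ih =>
    intro h b h1 h2 h3
    rw [rowB, Bool.and_eq_true] at h
    rcases Nat.eq_or_lt_of_le (Nat.le_of_lt_succ h1) with rfl | h4
    · have h5 := h.1
      have h6 : Nat.gcd a b = 1 := h3
      simp only [Bool.or_eq_true, Nat.blt_eq, h6, nb, Bool.and_eq_true, Nat.ble_eq] at h5
      rcases h5 with (h5 | h5) | h5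
      · omega
      · exact absurd h5 (by decide)
      · exact far_of_nb a b _ h5.1 h5.2
    · exact ih h.2 b h4 h2 h3

def allA : ℕ → ℕ → Bool
  | 0, _ => true
  | n + 1, a => rowB a (a + 1) && allA n (a + 1)

theorem allA_spec : ∀ n s, allA n s = true → ∀ a, s ≤ a → a < s + n → rowB a (a + 1) = true := by
  intro n
  induction n with
  | zero => intro s _ a h1 h2; omega
  | succ n ih =>
    intro s h a h1 h2
    rw [allA, Bool.and_eq_true] at h
    rcases Nat.eq_or_lt_of_le h1 with rfl | h3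
    · exact h.1
    · exact ih _ h.2 a (by omega) (by omega)

theorem c1a : allA 167 13 = true := by decide +kernel
theorem c1b : allA 70 180 = true := by decide +kernel
theorem c1c : allA 50 250 = true := by decide +kernel
theorem c1d : allA 40 300 = true := by decide +kernel
theorem c1e : allA 32 340 = true := by decide +kernel
theorem c1f : allA 29 372 = true := by decide +kernel

theorem k1 : K1Stmt := by
  intro a b h1 h2 h3 h4
  rcases Nat.lt_or_ge a b with h | h
  · refine far_of_nb a b 1 ?_ ?_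
    · obtain ⟨c, rfl⟩ : ∃ c, a = c + 2 := ⟨a - 2, by omega⟩
      have hp : 0 < 2 ^ c := by positivity
      rw [one_pow, pow_add]
      generalize 2 ^ c = X at *
      obtain ⟨y, rfl⟩ : ∃ y, X = y + 1 := ⟨X - 1, by omega⟩
      rw [show (y + 1) * 2 ^ 2 - 1 = 4 * y + 3 by omega]
      nlinarith
    · have h5 : 2 ^ (a + 1) ≤ 2 ^ b := Nat.pow_le_pow_right (by norm_num) h
      rw [pow_succ] at h5
      have hp : 0 < 2 ^ a := by positivity
      rw [show (1 + 1 : ℕ) = 2 from rfl]
      generalize 2 ^ b = Y at *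
      generalize 2 ^ a = X at *
      obtain ⟨t, rfl⟩ : ∃ t, Y = X + X + t := ⟨Y - (X + X), by omega⟩
      rw [show X + X + t - X = X + t by omega]
      nlinarith
  · have hr : rowB a (a + 1) = true := by
      rcases Nat.lt_or_ge a 180 with g0 | g0
      · exact allA_spec _ _ c1a a (by omega) (by omega)
      rcases Nat.lt_or_ge a 250 with g1 | g1
      · exact allA_spec _ _ c1b a (by omega) (by omega)
      rcases Nat.lt_or_ge a 300 with g2 | g2
      · exact allA_spec _ _ c1c a (by omega) (by omega)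
      rcases Nat.lt_or_ge a 340 with g3 | g3
      · exact allA_spec _ _ c1d a (by omega) (by omega)
      rcases Nat.lt_or_ge a 372 with g4 | g4
      · exact allA_spec _ _ c1e a (by omega) (by omega)
      exact allA_spec _ _ c1f a (by omega) (by omega)
    exact rowB_spec a _ hr b (by omega) h3 h4

end Pool.Agent.MP_089fcb_co.H7.KRoot
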