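import Mathlib
import Pool.Agent.MP_089fcb_co.H7.KRootOne

set_option autoImplicit false

namespace Pool.Agent.MP_089fcb_co.H7.KRoot

theorem c2a : rangeChk 115296 197 3 = true := by decide +kernel
theorem c2b : rangeChk 115296 90 200 = true := by decide +kernel
theorem c2c : rangeChk 115296 70 290 = true := by decide +kernel
theorem c2d : rangeChk 115296 61 360 = true := by decide +kernel

theorem k2 : K2Stmt := by
  intro l a hl h1 h2 h3 h4 h5
  refine one_spec 115296 l a ?_ h1 h3 h4 h5
  rcases Nat.lt_or_ge l 200 with h | h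
  · exact range_spec _ _ _ c2a l h1 (by omega) hl
  rcases Nat.lt_or_ge l 290 with h' | h'
  · exact range_spec _ _ _ c2b l h (by omega) hl
  rcases Nat.lt_or_ge l 360 with h'' | h''
  · exact range_spec _ _ _ c2c l h' (by omega) hl
  · exact range_spec _ _ _ c2d l h'' (by omega) hl

theorem c3a : rangeChk 3055344 17 3 = true := by decide +kernel
theorem c3b : rangeChk 3055344 12 20 = true := by decide +kernel

theorem k3 : K3Stmt := by
  intro l a hl h1 h2 h3 h4 h5
  refine one_spec 3055344 l a ?_ h1 h3 h4 h5
  rcases Nat.lt_or_ge l 20 with h | h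
  · exact range_spec _ _ _ c3a l h1 (by omega) hl
  · exact range_spec _ _ _ c3b l h (by omega) hl

end Pool.Agent.MP_089fcb_co.H7.KRoot
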