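import Mathlib
import Pool.Agent.MP_089fcb_co.H7.Defs

set_option autoImplicit false

open Finset

namespace Pool.Agent.MP_089fcb_co.H7.KSmall

/-- Binary splitting conjunction over `[s, s + 2 ^ k)`. -/
def ball (g : ℕ → Bool) (k : ℕ) : ℕ → Bool :=
  Nat.rec (motive := fun _ => ℕ → Bool) (fun s => g s)
    (fun k ih s => ih s && ih (s + 2 ^ k)) k

theorem ball_spec (g : ℕ → Bool) : ∀ k s, ball g k s = true →
    ∀ i, s ≤ i → i < s + 2 ^ k → g i = true := by
  intro k
  induction k with
  | zero =>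
    intro s h i h1 h2
    have : i = s := by simp at h2; omega
    subst this; exact h
  | succ k ih =>
    intro s h i h1 h2
    have h' : (ball g k s && ball g k (s + 2 ^ k)) = true := h
    rw [Bool.and_eq_true] at h'
    by_cases hi : i < s + 2 ^ k
    · exact ih s h'.1 i h1 hi
    · exact ih _ h'.2 i (by omega) (by rw [pow_succ] at h2; omega)

/-- Binary splitting sum over `[s, s + 2 ^ k)`. -/
def bsum (g : ℕ → ℕ) (k : ℕ) : ℕ → ℕ :=
  Nat.rec (motive := fun _ => ℕ → ℕ) (fun s => g s)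
    (fun k ih s => ih s + ih (s + 2 ^ k)) k

theorem bsum_spec (g : ℕ → ℕ) : ∀ k s, bsum g k s = ∑ i ∈ Ico s (s + 2 ^ k), g i := by
  intro k
  induction k with
  | zero => intro s; simp [bsum]
  | succ k ih =>
    intro s
    have h' : bsum g (k + 1) s = bsum g k s + bsum g k (s + 2 ^ k) := rfl
    rw [h', ih, ih, Finset.sum_Ico_consecutive _ (Nat.le_add_right _ _) (Nat.le_add_right _ _)]
    congr 2
    rw [pow_succ]; omega

/-- Binary splitting least common multiple over `[s, s + 2 ^ k)`. -/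
def blcm (g : ℕ → ℕ) (k : ℕ) : ℕ → ℕ :=
  Nat.rec (motive := fun _ => ℕ → ℕ) (fun s => g s)
    (fun k ih s => Nat.lcm (ih s) (ih (s + 2 ^ k))) k

theorem blcm_spec (g : ℕ → ℕ) : ∀ k s i, s ≤ i → i < s + 2 ^ k → g i ∣ blcm g k s := by
  intro k
  induction k with
  | zero =>
    intro s i h1 h2
    have : i = s := by simp at h2; omega
    subst this; exact dvd_rfl
  | succ k ih =>
    intro s i h1 h2
    have h' : blcm g (k + 1) s = Nat.lcm (blcm g k s) (blcm g k (s + 2 ^ k)) := rfl
    rw [h']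
    by_cases hi : i < s + 2 ^ k
    · exact (ih s i h1 hi).trans (Nat.dvd_lcm_left _ _)
    · exact (ih _ i (by omega) (by rw [pow_succ] at h2; omega)).trans (Nat.dvd_lcm_right _ _)

/-! Part K4 -/

/-- Some power `p ^ r`, `2 ≤ r ≤ 17`, lies in `[N - x, N]`. -/
def hasPow (N x p : ℕ) : Bool :=
  !(ball (fun r => !(Nat.ble (p ^ (r + 2)) N && Nat.ble N (p ^ (r + 2) + x))) 4 0)

theorem hasPow_of (N x p r : ℕ) (hr : r < 16) (h1 : N ≤ p ^ (r + 2) + x) (h2 : p ^ (r + 2) ≤ N) :
    hasPow N x p = true := by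
  unfold hasPow
  rw [Bool.not_eq_true']
  by_contra h
  rw [Bool.not_eq_false] at h
  have := ball_spec _ _ _ h r (by omega) (by omega)
  rw [Nat.ble_eq.mpr h1, Nat.ble_eq.mpr h2] at this
  simp at this

def chk4 (a x : ℕ) : Bool :=
  decide (x < 2) || decide ((2 ^ a - 2) / (x + 1) < x) ||
    !(decide (blcm (fun p => if hasPow ((x + 1) * ((2 ^ a - 2) / (x + 1) + 1) + 1) x p then p else 1) 6 2
      % (x * ((2 ^ a - 2) / (x + 1)) + 1) = 0))

theorem chk4_all : ball (fun a => decide (12 < a) || ball (fun x => chk4 a x) 6 0) 4 0 = true := by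
  decide +kernel

theorem k4 : K4Stmt := by
  intro a x y ha hx hxy h1 h2 hsq
  by_contra hcon
  push Not at hcon
  have hpa : 2 ^ a ≤ 2 ^ 12 := Nat.pow_le_pow_right (by norm_num) ha
  have hx64 : x < 64 := by
    by_contra hh
    have : 64 * 64 ≤ x * y := Nat.mul_le_mul (by omega) (by omega)
    nlinarith
  have hy : (2 ^ a - 2) / (x + 1) = y := by
    apply Nat.div_eq_of_lt_le
    · have : y * (x + 1) + 2 ≤ 2 ^ a := by nlinarith
      omega
    · have : 2 ^ a ≤ (y + 1) * (x + 1) + 1 := by nlinarith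
      have h3 : 1 ≤ (y + 1) * (x + 1) := Nat.one_le_iff_ne_zero.2 (by positivity)
      omega
  have hA := ball_spec _ _ _ chk4_all a (by omega) (by omega)
  simp only [Bool.or_eq_true, decide_eq_true_eq] at hA
  rcases hA with hA | hA
  · omega
  have hB := ball_spec _ _ _ hA x (by omega) (by omega)
  unfold chk4 at hB
  rw [hy] at hB
  simp only [Bool.or_eq_true, decide_eq_true_eq, Bool.not_eq_true', decide_eq_false_iff_not] at hB
  rcases hB with (hB | hB) | hB
  · omega
  · omega
  apply hB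
  apply Nat.mod_eq_zero_of_dvd
  rw [← Nat.prod_primeFactors_of_squarefree hsq]
  apply Finset.prod_primes_dvd
  · intro p hp
    exact (Nat.prime_of_mem_primeFactors hp).prime
  · intro p hp
    have hpp := Nat.prime_of_mem_primeFactors hp
    have hpd := Nat.dvd_of_mem_primeFactors hp
    obtain ⟨r, hr1, hr2⟩ := hcon p hpp hpd
    have hple : p ≤ x * y + 1 := Nat.le_of_dvd (by omega) hpd
    have hp2 := hpp.two_le
    have hN : (x + 1) * (y + 1) + 1 ≤ 4096 + 63 := by omega
    have hr : 2 ≤ r := by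
      by_contra hh
      have : r = 0 ∨ r = 1 := by omega
      rcases this with rfl | rfl
      · simp at hr1; nlinarith
      · simp at hr1; nlinarith
    obtain ⟨r, rfl⟩ : ∃ r', r = r' + 2 := ⟨r - 2, by omega⟩
    have hr16 : r < 16 := by
      by_contra hh
      have h5 : 2 ^ 18 ≤ 2 ^ (r + 2) := Nat.pow_le_pow_right (by norm_num) (by omega)
      have h6 : 2 ^ (r + 2) ≤ p ^ (r + 2) := Nat.pow_le_pow_left hp2 _
      omega
    have hp66 : p < 66 := by
      by_contra hh
      have h5 : 66 ^ 2 ≤ p ^ 2 := Nat.pow_le_pow_left (by omega) _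
      have h6 : p ^ 2 ≤ p ^ (r + 2) := Nat.pow_le_pow_right (by omega) (by omega)
      omega
    have := blcm_spec
      (fun p => if hasPow ((x + 1) * (y + 1) + 1) x p then p else 1) 6 2 p hp2 (by omega)
    simp only [hasPow_of _ _ _ _ hr16 hr1 hr2, if_true] at this
    exact this

/-! Part K6 -/

def chk6' (m t : ℕ) : Bool :=
  decide (t ≤ m) && decide (m ≤ 2 * t) && decide (8 * t ≤ (m - t) * (m - t)) &&
    decide (16 * t ≤ (2 * t - m) * (2 * t - m))

def chk6 (b : ℕ) : Bool :=
  decide (b < 6) || decide (20000 ≤ b) || chk6' (3 ^ b) (2 ^ (b * 1584962500721 / 1000000000000))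

theorem chk6_0 : ball chk6 13 0 = true := by decide +kernel
theorem chk6_1 : ball chk6 12 8192 = true := by decide +kernel
theorem chk6_2 : ball chk6 12 12288 = true := by decide +kernel
theorem chk6_3 : ball chk6 12 16384 = true := by decide +kernel

theorem chk6_spec (m c a : ℕ) (h : chk6' m (2 ^ c) = true) :
    (8 : ℤ) * 2 ^ a ≤ ((m : ℤ) - 2 ^ a) ^ 2 := by
  unfold chk6' at h
  simp only [Bool.and_eq_true, decide_eq_true_eq] at h
  obtain ⟨⟨⟨h1, h2⟩, h3⟩, h4⟩ := h
  have ht : (1 : ℤ) ≤ 2 ^ c := one_le_pow₀ (by norm_num)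
  zify [h1, h2] at h3 h4
  zify at h1 h2
  by_cases hac : a ≤ c
  · have h5 : (2 : ℤ) ^ a ≤ 2 ^ c := pow_le_pow_right₀ (by norm_num) hac
    nlinarith
  · have h5 : (2 : ℤ) ^ (c + 1) ≤ 2 ^ a := pow_le_pow_right₀ (by norm_num) (by omega)
    rw [pow_succ] at h5
    have h6 : (4 : ℤ) ≤ 2 * 2 ^ c - m := by nlinarith
    nlinarith

theorem k6 : K6Stmt := by
  intro a b h1 h2
  have h : chk6 b = true := by
    by_cases c1 : b < 8192
    · exact ball_spec _ _ _ chk6_0 b (by omega) (by omega)
    by_cases c2 : b < 12288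
    · exact ball_spec _ _ _ chk6_1 b (by omega) (by omega)
    by_cases c3 : b < 16384
    · exact ball_spec _ _ _ chk6_2 b (by omega) (by omega)
    · exact ball_spec _ _ _ chk6_3 b (by omega) (by omega)
  unfold chk6 at h
  simp only [Bool.or_eq_true, decide_eq_true_eq] at h
  rcases h with (h | h) | h
  · omega
  · omega
  have := chk6_spec _ _ a h
  push_cast at this
  exact this

end Pool.Agent.MP_089fcb_co.H7.KSmall
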