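import Mathlib
import Pool.Agent.MP_089fcb_co.H7.KSmallA

set_option autoImplicit false

open Finset

namespace Pool.Agent.MP_089fcb_co.H7.KSmall

/-! Part K5 -/

/-- A test passed by every prime. -/
def pt (l : ℕ) : Bool :=
  cond (Nat.ble l 250)
    (cond (Nat.ble l 17) (l == 2 || l == 3 || l == 5 || l == 7 || l == 11 || l == 13 || l == 17)
      (Nat.beq (Nat.gcd l (Nat.factorial 17)) 1))
    (Nat.beq (Nat.gcd l (Nat.factorial 250)) 1)

theorem pt_of_prime (l : ℕ) (hl : l.Prime) : pt l = true := by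
  unfold pt
  by_cases h2 : l ≤ 250
  · by_cases h1 : l ≤ 17
    · interval_cases l <;> first | rfl | (exfalso; revert hl; decide)
    · have h3 : Nat.ble l 17 = false := by
        rw [← Bool.not_eq_true, Nat.ble_eq]; exact h1
      rw [Nat.ble_eq.mpr h2, h3, cond_true, cond_false, Nat.beq_eq]
      exact (Nat.Prime.coprime_iff_not_dvd hl).2 (by rw [hl.dvd_factorial]; omega)
  · have h3 : Nat.ble l 250 = false := by
      rw [← Bool.not_eq_true, Nat.ble_eq]; exact h2
    rw [h3, cond_false, Nat.beq_eq]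
    exact (Nat.Prime.coprime_iff_not_dvd hl).2 (by rw [hl.dvd_factorial]; omega)

/-- Rounded up terms. -/
def tm (d : ℕ → ℕ) (lo hi l : ℕ) : ℕ :=
  cond (Nat.ble lo l && Nat.blt l hi && pt l) (1000000000 / d l + 1) 0

theorem sum_le (d : ℕ → ℕ) (hd : ∀ l, l.Prime → 0 < d l) (lo hi k B : ℕ) (hk : hi ≤ 2 ^ k)
    (hB : bsum (tm d lo hi) k 0 ≤ B) :
    ∑ l ∈ (Ico lo hi).filter Nat.Prime, (1 : ℝ) / d l ≤ B / 1000000000 := by
  rw [bsum_spec] at hB
  have h1 : ∑ l ∈ (Ico lo hi).filter Nat.Prime, tm d lo hi l ≤ B := by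
    refine le_trans (Finset.sum_le_sum_of_subset ?_) hB
    intro l hl
    simp only [mem_filter, mem_Ico] at hl ⊢
    omega
  have h2 : ((∑ l ∈ (Ico lo hi).filter Nat.Prime, tm d lo hi l : ℕ) : ℝ) ≤ B := by exact_mod_cast h1
  rw [le_div_iff₀ (by norm_num), Finset.sum_mul]
  refine le_trans ?_ h2
  push_cast
  apply Finset.sum_le_sum
  intro l hl
  simp only [mem_filter, mem_Ico] at hl
  have h3 : tm d lo hi l = 1000000000 / d l + 1 := by
    unfold tm
    rw [Nat.ble_eq.mpr hl.1.1, Nat.blt_eq.mpr hl.1.2, pt_of_prime l hl.2]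
    simp
  rw [h3]
  have h4 : 0 < d l := hd l hl.2
  have h5 : 1000000000 ≤ (1000000000 / d l + 1) * d l := by
    have := Nat.lt_div_mul_add (a := 1000000000) h4
    nlinarith
  have h6 : (1000000000 : ℝ) ≤ ((1000000000 / d l + 1 : ℕ) : ℝ) * d l := by exact_mod_cast h5
  have h7 : (0 : ℝ) < d l := by exact_mod_cast h4
  rw [div_mul_eq_mul_div, one_mul, div_le_iff₀ h7]
  exact h6

theorem s1 : bsum (tm id 421 20000) 15 0 ≤ 490000000 := by decide +kernel
theorem s2 : bsum (tm id 37 20000) 15 0 ≤ 990000000 := by decide +kernel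
theorem s3 : bsum (tm (fun l => if l ≤ 53 then max 54 (l ^ 2) else l) 0 20000) 15 0 ≤ 980000000 := by
  decide +kernel
theorem s4 : bsum (tm id 0 29) 5 0 ≤ 1500000000 := by decide +kernel
theorem s5 : bsum (tm id 0 60000) 16 0 ≤ 2666000000 := by decide +kernel

def lam : ℕ := blcm (fun i => cond (Nat.ble 1 i && Nat.blt i 20000) i 1) 15 0

theorem lam_lt : 0 < lam ∧ lam < 2 ^ 28821 := by decide +kernel

theorem block (G : ℕ) (hG : 3 ≤ G) :
    ∑ l ∈ (Ico (20000 * G) (20000 * (G + 1))).filter Nat.Prime, (1 : ℝ) / l ≤ 1 / 6 := by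
  have h1 : ((Ico (20000 * G) (20000 * (G + 1))).filter Nat.Prime).card ≤ 10000 := by
    have : (Ico (20000 * G) (20000 * (G + 1))).filter Nat.Prime ⊆
        (range 10000).image (fun i => 20000 * G + 2 * i + 1) := by
      intro l hl
      simp only [mem_filter, mem_Ico, mem_image, mem_range] at hl ⊢
      have h2 := hl.2.eq_two_or_odd
      exact ⟨(l - 20000 * G) / 2, by omega, by omega⟩
    exact (card_le_card this).trans (card_image_le.trans (by simp))
  have h2 : ∑ l ∈ (Ico (20000 * G) (20000 * (G + 1))).filter Nat.Prime, (1 : ℝ) / l ≤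
      ((Ico (20000 * G) (20000 * (G + 1))).filter Nat.Prime).card • ((1 : ℝ) / 60000) := by
    apply Finset.sum_le_card_nsmul
    intro l hl
    simp only [mem_filter, mem_Ico] at hl
    have : (60000 : ℝ) ≤ l := by exact_mod_cast (by omega : 60000 ≤ l)
    exact one_div_le_one_div_of_le (by norm_num) this
  rw [nsmul_eq_mul] at h2
  have h3 : (((Ico (20000 * G) (20000 * (G + 1))).filter Nat.Prime).card : ℝ) ≤ 10000 := by
    exact_mod_cast h1
  linarith

theorem k5 : K5Stmt := by
  refine ⟨?_, ?_, ?_, ?_, ?_, ?_⟩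
  · have := sum_le id (fun l hl => hl.pos) 421 20000 15 _ (by norm_num) s1
    simp only [id] at this
    refine this.trans (by norm_num)
  · have := sum_le id (fun l hl => hl.pos) 37 20000 15 _ (by norm_num) s2
    simp only [id] at this
    refine this.trans (by norm_num)
  · have := sum_le (fun l => if l ≤ 53 then max 54 (l ^ 2) else l) (fun l hl => by
      split_ifs
      · exact lt_of_lt_of_le (by norm_num) (le_max_left _ _)
      · exact hl.pos) 0 20000 15 _ (by norm_num) s3
    rw [range_eq_Ico]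
    refine le_trans (le_of_eq ?_) (this.trans (by norm_num))
    apply Finset.sum_congr rfl
    intro l _
    split_ifs
    · push_cast; rfl
    · rfl
  · have := sum_le id (fun l hl => hl.pos) 0 29 5 _ (by norm_num) s4
    simp only [id] at this
    rw [range_eq_Ico]
    refine this.trans (by norm_num)
  · intro G hG
    induction G, hG using Nat.le_induction with
    | base =>
      have := sum_le id (fun l hl => hl.pos) 0 60000 16 _ (by norm_num) s5
      simp only [id] at this
      rw [range_eq_Ico]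
      refine this.trans (by norm_num)
    | succ G hG ih =>
      have h1 := block G hG
      rw [range_eq_Ico] at ih ⊢
      rw [← Finset.Ico_union_Ico_eq_Ico (Nat.zero_le (20000 * G)) (by omega), filter_union,
        sum_union (disjoint_filter_filter (Finset.Ico_disjoint_Ico_consecutive _ _ _))]
      push_cast
      linarith
  · refine ⟨lam, lam_lt.1, lam_lt.2, fun r h1 h2 => ?_⟩
    have := blcm_spec (fun i => cond (Nat.ble 1 i && Nat.blt i 20000) i 1) 15 0 r
      (by omega) (by omega)
    rw [Nat.ble_eq.mpr h1, Nat.blt_eq.mpr h2] at this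
    simpa [lam] using this

end Pool.Agent.MP_089fcb_co.H7.KSmall
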