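import Mathlib
import Pool.Agent.MP_089fcb_co.H7.KSmallB

set_option autoImplicit false

open Finset

namespace Pool.Agent.MP_089fcb_co.H7.KSmall

/-! Part K7 -/

/-- Fast evaluation of `Phi`. -/
def phiLoop (w w' k : ℕ) : ℕ → ℕ → ℕ :=
  Nat.rec (motive := fun _ => ℕ → ℕ → ℕ) (fun _ _ => 0)
    (fun _ ih i t => t + ih (i + 1) (t * ((w - i) * (w' - i)) / ((i + 1) * (i + 1)))) k

theorem phiLoop_spec (w w' : ℕ) : ∀ k i, phiLoop w w' k i (w.choose i * w'.choose i) =
    ∑ j ∈ Ico i (i + k), w.choose j * w'.choose j := by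
  intro k
  induction k with
  | zero => intro i; simp [phiLoop]
  | succ k ih =>
    intro i
    have h' : ∀ t, phiLoop w w' (k + 1) i t =
        t + phiLoop w w' k (i + 1) (t * ((w - i) * (w' - i)) / ((i + 1) * (i + 1))) := fun _ => rfl
    have h1 : w.choose i * w'.choose i * ((w - i) * (w' - i)) / ((i + 1) * (i + 1)) =
        w.choose (i + 1) * w'.choose (i + 1) := by
      apply Nat.div_eq_of_eq_mul_left (by positivity)
      calc w.choose i * w'.choose i * ((w - i) * (w' - i))
          = (w.choose i * (w - i)) * (w'.choose i * (w' - i)) := by ring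
        _ = (w.choose (i + 1) * (i + 1)) * (w'.choose (i + 1) * (i + 1)) := by
          rw [Nat.choose_succ_right_eq, Nat.choose_succ_right_eq]
        _ = _ := by ring
    rw [h', h1, ih, Finset.sum_eq_sum_Ico_succ_bot (by omega : i < i + (k + 1))]
    congr 3
    omega

theorem phi_eq (w w' e : ℕ) : phiLoop w w' (e + 1) 0 1 = Phi w w' e := by
  have := phiLoop_spec w w' (e + 1) 0
  simp only [Nat.choose_zero_right, mul_one, zero_add] at this
  rw [this, Phi, range_eq_Ico]

def chk7' (w w' P : ℕ) : Bool :=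
  !(Nat.beq (Nat.factorial 2400 % P) 0) ||
    !(Nat.beq (Nat.factorial (w + w') / (Nat.factorial w * Nat.factorial w') % P) 0)

theorem chk7'_spec (w w' P : ℕ) (hn : w + w' ≤ 2400) (h : chk7' w w' P = true) :
    ¬ P ∣ (w + w').choose w := by
  intro hd
  unfold chk7' at h
  have h1 : Nat.factorial 2400 % P = 0 := by
    apply Nat.mod_eq_zero_of_dvd
    refine hd.trans (Dvd.dvd.trans ?_ (Nat.factorial_dvd_factorial hn))
    rw [← Nat.choose_mul_factorial_mul_factorial (Nat.le_add_right w w'), mul_assoc]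
    exact Dvd.intro _ rfl
  have h2 : Nat.factorial (w + w') / (Nat.factorial w * Nat.factorial w') % P = 0 := by
    apply Nat.mod_eq_zero_of_dvd
    rw [Nat.choose_eq_factorial_div_factorial (Nat.le_add_right w w'), Nat.add_sub_cancel_left] at hd
    exact hd
  rw [h1, h2] at h
  simp at h

def chk7 (e w w' : ℕ) : Bool :=
  Nat.blt ((e + 1) * w) (e * w' + 2 * e + 1) ||
    (Nat.beq e 2 && !(Nat.beq (w % 4) 2 && Nat.beq (w' % 4) 2)) ||
      chk7' w w' (phiLoop w w' (e + 1) 0 1)

def row7 (e w : ℕ) : Bool :=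
  Nat.blt w (e * e + 4 * e + 2) ||
    !(Nat.blt w (36 * e) || Nat.blt w 300 || (Nat.ble 5 e && Nat.blt w 400)) ||
      ball (fun v => chk7 e w (w + (e + 1) * v)) 6 0

theorem chk7_all : ball (fun e => Nat.blt e 2 || ball (fun u => row7 e ((e + 1) * u + e)) 7 0) 5 0
    = true := by
  decide +kernel

theorem k7 : K7Stmt := by
  intro e w w' he hlow hup hww hd hd' hr h4
  have he32 : e < 32 := by
    by_contra hh
    have : 32 * e ≤ e ^ 2 := by nlinarith
    omega
  obtain ⟨u, hu⟩ := hd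
  obtain ⟨v, hv⟩ := hd'
  have hu1 : 1 ≤ u := by
    rcases u with _ | u
    · simp at hu
    · omega
  have huv : u ≤ v := by
    by_contra hh
    have : (e + 1) * (v + 1) ≤ (e + 1) * u := Nat.mul_le_mul_left _ (by omega)
    nlinarith
  obtain ⟨u, rfl⟩ : ∃ u', u = u' + 1 := ⟨u - 1, by omega⟩
  obtain ⟨v, rfl⟩ : ∃ v', v = u + 1 + v' := ⟨v - (u + 1), by omega⟩
  have hw : w = (e + 1) * u + e := by nlinarith
  have hw' : w' = w + (e + 1) * v := by nlinarith
  have hu128 : u < 128 := by
    by_contra hh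
    have : (e + 1) * 128 ≤ (e + 1) * u := Nat.mul_le_mul_left _ (by omega)
    omega
  have hev : e * ((e + 1) * v) ≤ w := by nlinarith
  have hv64 : v < 64 := by
    by_contra hh
    have h1 : e * ((e + 1) * 64) ≤ e * ((e + 1) * v) :=
      Nat.mul_le_mul_left _ (Nat.mul_le_mul_left _ (by omega))
    have h2 : e * (3 * 64) ≤ e * ((e + 1) * 64) :=
      Nat.mul_le_mul_left _ (Nat.mul_le_mul_right _ (by omega))
    omega
  have hn : w + w' ≤ 2400 := by
    by_cases h8 : 8 ≤ e
    · have : 8 * ((e + 1) * v) ≤ e * ((e + 1) * v) := Nat.mul_le_mul_right _ h8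
      omega
    · have : 2 * ((e + 1) * v) ≤ e * ((e + 1) * v) := Nat.mul_le_mul_right _ he
      omega
  have hA := ball_spec _ _ _ chk7_all e (by omega) (by omega)
  rw [Bool.or_eq_true, Nat.blt_eq] at hA
  rcases hA with hA | hA
  · omega
  have hB := ball_spec _ _ _ hA u (by omega) (by omega)
  rw [← hw] at hB
  unfold row7 at hB
  rw [Bool.or_eq_true, Bool.or_eq_true, Nat.blt_eq, Bool.not_eq_true', ← Bool.not_eq_true,
    Bool.or_eq_true, Bool.or_eq_true, Bool.and_eq_true, Nat.blt_eq, Nat.blt_eq, Nat.blt_eq,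
    Nat.ble_eq] at hB
  rcases hB with (hB | hB) | hB
  · nlinarith
  · exact absurd (by tauto) hB
  have hC := ball_spec _ _ _ hB v (by omega) (by omega)
  rw [← hw'] at hC
  unfold chk7 at hC
  rw [phi_eq] at hC
  rw [Bool.or_eq_true, Bool.or_eq_true, Nat.blt_eq] at hC
  rcases hC with (hC | hC) | hC
  · omega
  · rw [Bool.and_eq_true, Nat.beq_eq] at hC
    obtain ⟨h5, h6⟩ := h4 hC.1
    rw [h5, h6] at hC
    simp at hC
  · exact chk7'_spec _ _ _ hn hC

end Pool.Agent.MP_089fcb_co.H7.KSmall
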