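import Pool.Agent.MP_089fcb_co.H7.Defs

set_option autoImplicit false

open Finset Polynomial

namespace Pool.Agent.MP_089fcb_co.H7.Lloyd

open Pool.Agent.MP_089fcb_co.H7

variable {α : Type} [Fintype α] [DecidableEq α]

theorem mop_lev (w w' : ℕ) (hn : Fintype.card α = w + w') :
    Mop α (lev α w) = ((w : ℚ) * (w' + 1)) • lev α w := by
  ext X
  simp only [Mop, Uop, Dop, lev, Module.End.mul_apply, LinearMap.coe_mk, AddHom.coe_mk,
    Pi.smul_apply, smul_eq_mul]
  have h1 : ∀ a ∈ X, (∑ b ∈ (X.erase a)ᶜ, (if (insert b (X.erase a)).card = w then (1 : ℚ) else 0))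
      = if X.card = w then ((w' : ℚ) + 1) else 0 := by
    intro a ha
    have hc : (X.erase a).card + 1 = X.card := Finset.card_erase_add_one ha
    have h2 : ∀ b ∈ (X.erase a)ᶜ, (if (insert b (X.erase a)).card = w then (1 : ℚ) else 0)
        = if X.card = w then (1 : ℚ) else 0 := by
      intro b hb
      rw [Finset.card_insert_of_notMem (Finset.mem_compl.1 hb), hc]
    rw [Finset.sum_congr rfl h2, Finset.sum_const, Finset.card_compl, hn]
    split_ifs with h
    · have : w + w' - (X.erase a).card = w' + 1 := by omega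
      rw [this]; simp
    · simp
  rw [Finset.sum_congr rfl h1, Finset.sum_const]
  split_ifs with h
  · rw [h, nsmul_eq_mul, mul_one]
  · simp

theorem aeval_lev (w w' : ℕ) (hn : Fintype.card α = w + w') (p : ℚ[X]) :
    aeval (Mop α) p (lev α w) = p.eval ((w : ℚ) * (w' + 1)) • lev α w :=
  Module.End.aeval_apply_of_mem_apply_eq_smul (mop_lev w w' hn)

theorem phi_pos (w w' e : ℕ) : 0 < Phi w w' e := by
  unfold Phi
  rw [Finset.sum_range_succ']
  simp

theorem exists_dist (w w' t : ℕ) (hn : Fintype.card α = w + w') (htw : t ≤ w) (htw' : t ≤ w')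
    (c : Finset α) (hc : c.card = w) : ∃ X : Finset α, X.card = w ∧ (X \ c).card = t := by
  obtain ⟨A, hA, hAc⟩ := Finset.exists_subset_card_eq (s := c) (n := w - t) (by omega)
  obtain ⟨B, hB, hBc⟩ := Finset.exists_subset_card_eq (s := cᶜ) (n := t)
    (by rw [Finset.card_compl]; omega)
  have hd : Disjoint A B := by
    rw [Finset.disjoint_left]
    intro x hx hx'
    exact Finset.mem_compl.1 (hB hx') (hA hx)
  refine ⟨A ∪ B, ?_, ?_⟩
  · rw [Finset.card_union_of_disjoint hd]; omega
  · have : (A ∪ B) \ c = B := by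
      ext x
      simp only [Finset.mem_sdiff, Finset.mem_union]
      constructor
      · rintro ⟨h | h, h'⟩
        · exact absurd (hA h) h'
        · exact h
      · intro h
        exact ⟨Or.inr h, Finset.mem_compl.1 (hB h)⟩
    rw [this, hBc]

theorem reduce (h4 : SpStmt) (w w' d : ℕ) (q : ℚ[X]) (hq : q.degree < ((d + 1 : ℕ) : WithBot ℕ)) :
    (q - C (q.coeff d * ((d.factorial : ℚ)) ^ 2) * Sp w w' d).degree < (d : WithBot ℕ) := by
  obtain ⟨hd, hl, -, -⟩ := h4 w w' d
  have hf : ((d.factorial : ℚ)) ≠ 0 := by exact_mod_cast d.factorial_ne_zero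
  rw [Polynomial.degree_lt_iff_coeff_zero] at hq ⊢
  intro k hk
  rw [Polynomial.coeff_sub, Polynomial.coeff_C_mul]
  rcases Nat.eq_or_lt_of_le hk with h | h
  · subst h
    have : (Sp w w' d).coeff d = 1 / ((d.factorial : ℚ)) ^ 2 := by
      rw [← hl, Polynomial.leadingCoeff, hd]
    rw [this]; field_simp; ring
  · rw [hq k h, Polynomial.coeff_eq_zero_of_natDegree_lt (p := Sp w w' d) (by omega)]
    simp

theorem not_kill (h3 : BallStmt) (h4 : SpStmt) (w w' e : ℕ) (C0 : Finset (Finset α))
    (hP : IsPerf w e C0) (hn : Fintype.card α = w + w') (hew : e ≤ w) (hww : w ≤ w')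
    (q : ℚ[X]) (hm : q.Monic) (hq : q.natDegree ≤ e) : aeval (Mop α) q (ind C0) ≠ 0 := by
  obtain ⟨X0, -, hX0⟩ := Finset.exists_subset_card_eq (s := (univ : Finset α)) (n := w)
    (by rw [Finset.card_univ]; omega)
  obtain ⟨c, ⟨hc, -⟩, -⟩ := hP.2 X0 hX0
  set t := q.natDegree with ht
  obtain ⟨X, hX, hXc⟩ := exists_dist w w' t hn (by omega) (by omega) c (hP.1 c hc)
  have hval : ∀ s, s ≤ e → aeval (Mop α) (Sp w w' s) (ind C0) X = if t ≤ s then 1 else 0 := by
    intro s hs
    rw [h3 α w w' C0 hP.1 hn s X, if_pos hX]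
    obtain ⟨c', -, hu⟩ := hP.2 X hX
    have hcc : c = c' := hu c ⟨hc, by omega⟩
    split_ifs with h
    · have : C0.filter (fun A => (X \ A).card ≤ s) = {c} := by
        ext A
        simp only [Finset.mem_filter, Finset.mem_singleton]
        constructor
        · rintro ⟨h1, h2⟩
          rw [hcc]; exact hu A ⟨h1, by omega⟩
        · rintro rfl
          exact ⟨hc, by omega⟩
      rw [this]; simp
    · have : C0.filter (fun A => (X \ A).card ≤ s) = ∅ := by
        rw [Finset.filter_eq_empty_iff]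
        intro A h1 h2
        have : A = c := by rw [hcc]; exact hu A ⟨h1, by omega⟩
        subst this
        omega
      rw [this]; simp
  have hsplit : ∀ (d : ℕ) (r : ℚ[X]), aeval (Mop α) r (ind C0) X =
      aeval (Mop α) (r - C (r.coeff d * ((d.factorial : ℚ)) ^ 2) * Sp w w' d) (ind C0) X
        + (r.coeff d * ((d.factorial : ℚ)) ^ 2) * aeval (Mop α) (Sp w w' d) (ind C0) X := by
    intro d r
    rw [map_sub, map_mul, aeval_C]
    simp only [LinearMap.sub_apply, Module.End.mul_apply, Module.algebraMap_end_apply,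
      Pi.sub_apply, Pi.smul_apply, smul_eq_mul]
    ring
  have hlow : ∀ d : ℕ, d ≤ t → ∀ r : ℚ[X], r.degree < (d : WithBot ℕ) →
      aeval (Mop α) r (ind C0) X = 0 := by
    intro d
    induction d with
    | zero =>
      intro _ r hr
      have : r = 0 := by
        rw [← Polynomial.degree_eq_bot]
        simpa using hr
      simp [this]
    | succ d ih =>
      intro hd r hr
      rw [hsplit d r, ih (by omega) _ (reduce h4 w w' d r hr), hval d (by omega),
        if_neg (by omega)]
      simp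
  intro h0
  have h1 := hsplit t q
  have hdeg : q.degree < ((t + 1 : ℕ) : WithBot ℕ) := by
    rw [Polynomial.degree_eq_natDegree hm.ne_zero]
    exact_mod_cast Nat.lt_succ_self t
  rw [hlow t le_rfl _ (reduce h4 w w' t q hdeg), hval t hq, if_pos le_rfl, h0] at h1
  have h2 : q.coeff t = 1 := hm
  have hf : ((t.factorial : ℚ)) ≠ 0 := by exact_mod_cast t.factorial_ne_zero
  rw [h2] at h1
  simp at h1
  exact pow_ne_zero 2 hf h1.symm

theorem mu_eq (w w' j : ℕ) : mu (w + w') w j = ((w : ℚ) - j) * ((w' : ℚ) - j + 1) := by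
  unfold mu; push_cast; ring

theorem lloyd (h1 : AnnStmt) (h2 : DesignStmt) (h3 : BallStmt) (h4 : SpStmt) : LloydStmt := by
  intro α _ _ w w' e C0 hP hn he hew hww
  obtain ⟨hd, hl, hev, hpos⟩ := h4 w w' e
  have hΦ : (0 : ℚ) < (Phi w w' e : ℚ) := by exact_mod_cast phi_pos w w' e
  have hf : ((e.factorial : ℚ)) ≠ 0 := by exact_mod_cast e.factorial_ne_zero
  set g : Finset α → ℚ := ind C0 - (1 / (Phi w w' e : ℚ)) • lev α w with hg
  have hSf : aeval (Mop α) (Sp w w' e) (ind C0) = lev α w := by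
    ext X
    rw [h3 α w w' C0 hP.1 hn e X]
    unfold lev
    split_ifs with h
    · obtain ⟨c, hc, hu⟩ := hP.2 X h
      have : C0.filter (fun A => (X \ A).card ≤ e) = {c} := by
        ext A
        simp only [Finset.mem_filter, Finset.mem_singleton]
        exact ⟨fun h => hu A h, fun h => h ▸ hc⟩
      rw [this]; simp
    · rfl
  have hSg : aeval (Mop α) (Sp w w' e) g = 0 := by
    rw [hg, map_sub, map_smul, hSf, aeval_lev w w' hn, hev, smul_smul, one_div,
      inv_mul_cancel₀ hΦ.ne', one_smul, sub_self]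
  have hgs : ∀ S : Finset α, S.card ≠ w → g S = 0 := by
    intro S hS
    have : S ∉ C0 := fun h => hS (hP.1 S h)
    simp [hg, ind, lev, this, hS]
  have hAg := h1 α w g hgs
  rw [hn] at hAg
  set J := (range (w + 1)).filter (fun j => (Sp w w' e).eval (mu (w + w') w j) = 0) with hJ
  set DJ : ℚ[X] := ∏ j ∈ J, (X - C (mu (w + w') w j)) with hDJ
  have hJw : ∀ j ∈ J, j ≤ w := fun j hj => by
    have := Finset.mem_range.1 (Finset.mem_filter.1 hj).1
    omega
  have hJr : ∀ j ∈ J, (Sp w w' e).eval (mu (w + w') w j) = 0 := fun j hj =>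
    (Finset.mem_filter.1 hj).2
  have hJ1 : ∀ j ∈ J, 1 ≤ j := by
    intro j hj
    by_contra h
    have h0 : j = 0 := by omega
    have := hJr j hj
    rw [h0, mu_eq] at this
    simp only [Nat.cast_zero, sub_zero] at this
    rw [hev] at this
    exact hΦ.ne' this
  have hDg : aeval (Mop α) DJ g = 0 := by
    rw [← Finset.prod_filter_mul_prod_filter_not (range (w + 1))
      (fun j => (Sp w w' e).eval (mu (w + w') w j) = 0)] at hAg
    set R : ℚ[X] := ∏ j ∈ (range (w + 1)).filter
      (fun j => ¬ (Sp w w' e).eval (mu (w + w') w j) = 0), (X - C (mu (w + w') w j)) with hR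
    have hcop : IsCoprime R (Sp w w' e) := by
      refine IsCoprime.prod_left ?_
      intro j hj
      rw [(Polynomial.irreducible_X_sub_C _).coprime_iff_not_dvd, Polynomial.dvd_iff_isRoot]
      exact (Finset.mem_filter.1 hj).2
    obtain ⟨a, b, hab⟩ := hcop
    have : DJ = a * (DJ * R) + (b * DJ) * Sp w w' e := by
      linear_combination (-DJ) * hab
    rw [this, map_add, map_mul (aeval (Mop α)) a, map_mul (aeval (Mop α)) (b * DJ)]
    simp only [LinearMap.add_apply, Module.End.mul_apply]
    rw [hSg, hAg]; simp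
  have hDm : DJ.Monic := Polynomial.monic_prod_of_monic _ _ fun j _ => Polynomial.monic_X_sub_C _
  have hDd : DJ.natDegree = J.card := by
    rw [hDJ, Polynomial.natDegree_prod_of_monic _ _ fun j _ => Polynomial.monic_X_sub_C _]
    simp
  have hge : e ≤ J.card := by
    by_contra hlt
    refine not_kill h3 h4 w w' e C0 hP hn hew hww ((X - C ((w : ℚ) * (w' + 1))) * DJ)
      ((Polynomial.monic_X_sub_C _).mul hDm) ?_ ?_
    · rw [(Polynomial.monic_X_sub_C _).natDegree_mul hDm, Polynomial.natDegree_X_sub_C, hDd]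
      omega
    · have : ind C0 = g + (1 / (Phi w w' e : ℚ)) • lev α w := by rw [hg]; simp
      rw [this, map_add, map_smul, aeval_lev w w' hn, map_mul]
      simp only [Module.End.mul_apply]
      rw [hDg]; simp
  have hS0 : Sp w w' e ≠ 0 := by
    intro h
    rw [h] at hl
    simp at hl
    exact pow_ne_zero 2 hf hl.symm
  have hdvd : DJ ∣ Sp w w' e := by
    refine Finset.prod_dvd_of_coprime ?_ ?_
    · intro i hi j hj hij
      refine Polynomial.isCoprime_X_sub_C_of_isUnit_sub ?_
      rw [isUnit_iff_ne_zero, mu_eq, mu_eq]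
      have hi' : (i : ℚ) ≤ w := by exact_mod_cast hJw i hi
      have hj' : (j : ℚ) ≤ w := by exact_mod_cast hJw j hj
      have hw' : (w : ℚ) ≤ w' := by exact_mod_cast hww
      have hne : (j : ℚ) - i ≠ 0 := by
        rw [sub_ne_zero]; exact_mod_cast hij.symm
      have : ((w : ℚ) - i) * ((w' : ℚ) - i + 1) - ((w : ℚ) - j) * ((w' : ℚ) - j + 1)
          = ((j : ℚ) - i) * ((w : ℚ) + w' + 1 - i - j) := by ring
      rw [this]
      exact mul_ne_zero hne (by linarith)
    · intro j hj
      rw [Polynomial.dvd_iff_isRoot]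
      exact hJr j hj
  have hle : J.card ≤ e := by
    have := Polynomial.natDegree_le_of_dvd hdvd hS0
    omega
  have hcard : J.card = e := le_antisymm hle hge
  have hEq : Sp w w' e = C (Sp w w' e).leadingCoeff * DJ :=
    Polynomial.eq_leadingCoeff_mul_of_monic_of_dvd_of_natDegree_le hDm hdvd (by omega)
  refine ⟨J, hcard, fun j hj => ⟨hJ1 j hj, hJw j hj⟩, ?_, ?_, ?_⟩
  · have h5 := hev
    rw [hEq, hl, Polynomial.eval_mul, Polynomial.eval_C, hDJ, Polynomial.eval_prod] at h5
    have h6 : ((∏ j ∈ J, j * (w + w' + 1 - j) : ℕ) : ℚ) =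
        ∏ j ∈ J, Polynomial.eval ((w : ℚ) * (w' + 1)) (X - C (mu (w + w') w j)) := by
      rw [Nat.cast_prod]
      refine Finset.prod_congr rfl fun j hj => ?_
      have := hJw j hj
      rw [Nat.cast_mul, Nat.cast_sub (by omega), mu_eq]
      simp
      ring
    have h7 : ((Phi w w' e * e.factorial ^ 2 : ℕ) : ℚ) =
        ((∏ j ∈ J, j * (w + w' + 1 - j) : ℕ) : ℚ) := by
      rw [h6, Nat.cast_mul, ← h5]
      push_cast
      field_simp
    exact_mod_cast h7
  · intro j hj
    have h5 := hJr j hj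
    have h6 : ¬ ((2 * (e : ℚ) - 3 / 2) * (w + w') ≤ mu (w + w') w j - w) := by
      intro h
      have := hpos (by omega) hew (by omega) _ h
      linarith
    rw [mu_eq, not_le] at h6
    have hjw := hJw j hj
    have h7 : ((2 * ((w - j) * (w' - j)) : ℕ) : ℚ) < (((4 * e - 3) * (w + w') + 2 * j : ℕ) : ℚ) := by
      push_cast [Nat.cast_sub hjw, Nat.cast_sub (hjw.trans hww), Nat.cast_sub (show 3 ≤ 4 * e by omega)]
      nlinarith
    exact_mod_cast h7
  · intro i hi
    obtain ⟨j0, hj0⟩ : J.Nonempty := Finset.card_pos.1 (by omega)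
    have hiw : i ≤ w := by have := hi j0 hj0; have := hJw j0 hj0; omega
    obtain ⟨S, -, hS⟩ := Finset.exists_subset_card_eq (s := (univ : Finset α)) (n := i)
      (by rw [Finset.card_univ]; omega)
    have h5 := h2 α w C0 J (1 / (Phi w w' e : ℚ)) hP.1 (by omega) hJw (by rw [hn]; exact hDg)
      i hiw hi S hS
    rw [hn] at h5
    refine ⟨(C0.filter (fun A => S ⊆ A)).card, ?_⟩
    have h7 : (((w + w' - i).choose (w - i) : ℕ) : ℚ) =
        ((Phi w w' e * (C0.filter (fun A => S ⊆ A)).card : ℕ) : ℚ) := by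
      rw [Nat.cast_mul, h5]
      field_simp
    exact_mod_cast h7

end Pool.Agent.MP_089fcb_co.H7.Lloyd
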