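import Pool.Agent.MP_089fcb_co.H7.Defs

/-! The number theory of the case `e = 1`. -/

set_option autoImplicit false

open Finset

namespace Pool.Agent.MP_089fcb_co.H7.One

lemma pow_gap {I x m m' l : ℕ} (hx : x ^ 2 < I) (hl : 2 ≤ l) (h : m < m') (h1 : I ≤ m ^ l)
    (h2 : m' ^ l ≤ I + x) : False := by
  obtain ⟨k, rfl⟩ : ∃ k, l = k + 2 := ⟨l - 2, by omega⟩
  have hm : 0 < m := by
    rcases Nat.eq_zero_or_pos m with rfl | h
    · simp at h1; omega
    · exact h
  have h3 : m ^ (k + 2) ≤ (m ^ (k + 1)) ^ 2 := by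
    rw [← pow_mul]
    exact Nat.pow_le_pow_right hm (by omega)
  have h4 : x < m ^ (k + 1) := lt_of_pow_lt_pow_left₀ 2 (Nat.zero_le _) (by omega)
  have h5 : (m + 1) ^ (k + 2) ≤ m' ^ (k + 2) := Nat.pow_le_pow_left h _
  have h6 : m ^ (k + 1) * (m + 1) ≤ (m + 1) ^ (k + 2) := by
    rw [pow_succ (m + 1)]
    exact Nat.mul_le_mul_right _ (Nat.pow_le_pow_left (Nat.le_succ m) _)
  have h7 : m ^ (k + 1) * (m + 1) = m ^ (k + 2) + m ^ (k + 1) := by ring
  omega

lemma coprime_exp {I x p q r s : ℕ} (hx : x ^ 2 < I) (hI : 2 ≤ I) (hp : p.Prime) (hq : q.Prime)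
    (hpq : p ≠ q) (h1 : I ≤ p ^ r) (h2 : p ^ r ≤ I + x) (h3 : I ≤ q ^ s) (h4 : q ^ s ≤ I + x) :
    Nat.Coprime r s := by
  refine Nat.coprime_of_dvd fun l hl ⟨u, hu⟩ ⟨v, hv⟩ => ?_
  subst hu hv
  rw [mul_comm, pow_mul] at h1 h2 h3 h4
  rcases lt_trichotomy (p ^ u) (q ^ v) with h | h | h
  · exact pow_gap hx hl.two_le h h1 h4
  · rcases Nat.eq_zero_or_pos u with rfl | hu
    · simp at h1; omega
    · exact hpq ((Nat.prime_dvd_prime_iff_eq hp hq).1
        (hp.dvd_of_dvd_pow (h ▸ dvd_pow_self p hu.ne')))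
  · exact pow_gap hx hl.two_le h h3 h2

lemma sum_le (P L : Finset ℕ) (r : ℕ → ℕ) (wt : ℕ → ℝ)
    (hc : ∀ p ∈ P, ∀ q ∈ P, p ≠ q → Nat.Coprime (r p) (r q)) (hw : ∀ l ∈ L, 0 ≤ wt l)
    (h : ∀ p ∈ P, ∃ l ∈ L, l ∣ r p ∧ 2 ≤ l ∧ (1 : ℝ) / r p ≤ wt l) :
    ∑ p ∈ P, (1 : ℝ) / r p ≤ ∑ l ∈ L, wt l := by
  choose! l hl h1 h2 h3 using h
  have hi : Set.InjOn l P := fun p hp q hq hpq => by
    by_contra hne
    have := Nat.eq_one_of_dvd_coprimes (hc p hp q hq hne) (h1 p hp) (hpq ▸ h1 q hq)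
    have := h2 p hp
    omega
  refine (sum_le_sum h3).trans ?_
  rw [← sum_image (f := wt) hi]
  exact sum_le_sum_of_subset_of_nonneg (image_subset_iff.2 hl) fun l hl _ => hw l hl

lemma odd_factor {r : ℕ} (h3 : 3 ≤ r) (h4 : ¬ 4 ∣ r) : ∃ l, l.Prime ∧ 3 ≤ l ∧ l ∣ r := by
  rcases Nat.even_or_odd' r with ⟨k, rfl | rfl⟩
  · refine ⟨k.minFac, Nat.minFac_prime (by omega), ?_, (Nat.minFac_dvd k).mul_left 2⟩
    have h1 := (Nat.minFac_prime (n := k) (by omega)).two_le
    have h2 : k.minFac ≠ 2 := fun h => by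
      have := h ▸ Nat.minFac_dvd k
      omega
    omega
  · refine ⟨(2 * k + 1).minFac, Nat.minFac_prime (by omega), ?_, Nat.minFac_dvd _⟩
    have h1 := (Nat.minFac_prime (n := 2 * k + 1) (by omega)).two_le
    have h2 : (2 * k + 1).minFac ≠ 2 := fun h => by
      have := h ▸ Nat.minFac_dvd (2 * k + 1)
      omega
    omega

lemma near {I x a n : ℕ} (hx : x ^ 2 < I) (h1 : I ≤ 2 ^ a) (h2 : 2 ^ a ≤ I + x) (h3 : I ≤ n)
    (h4 : n ≤ I + x) : ((n : ℤ) - 2 ^ a) ^ 2 < 2 ^ a := by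
  zify at hx h1 h2 h3 h4
  have : ((n : ℤ) - 2 ^ a) ^ 2 ≤ (x : ℤ) ^ 2 := sq_le_sq' (by linarith) (by linarith)
  linarith

lemma log_eq {j : ℕ} (hj : Squarefree j) : Real.log j = ∑ p ∈ j.primeFactors, Real.log p := by
  conv_lhs => rw [← Nat.prod_primeFactors_of_squarefree hj]
  rw [Nat.cast_prod, Real.log_prod]
  exact fun p hp => Nat.cast_ne_zero.2 (Nat.prime_of_mem_primeFactors hp).ne_zero

lemma log_le {p r N : ℕ} (hp : 0 < p) (hr : 0 < r) (h : p ^ r ≤ N) :
    Real.log p ≤ Real.log N * (1 / r) := by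
  rw [mul_one_div, le_div_iff₀ (by positivity), mul_comm, ← Real.log_pow]
  exact Real.log_le_log (by positivity) (by exact_mod_cast h)

lemma upper {x y a Λ : ℕ} {r : ℕ → ℕ} (hx : 2 ≤ x) (hxy : x ≤ y) (hj : Squarefree (x * y + 1))
    (ha : 2 ^ a ≤ x * y + y + 2 + x) (ha0 : 0 < a) (hΛ : 0 < Λ)
    (h : ∀ p ∈ (x * y + 1).primeFactors, x * y + y + 2 ≤ p ^ r p ∧ p ^ r p ≤ x * y + y + 2 + x ∧
      0 < r p ∧ r p ∣ a * Λ) : x ≤ 5 * Λ := by
  set j := x * y + 1 with hjd
  have hj1 : 1 < j := by nlinarith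
  have hl : 0 < Real.log j := Real.log_pos (by exact_mod_cast hj1)
  have h1 : ∑ p ∈ j.primeFactors, (1 : ℝ) / r p < 1 := by
    refine lt_of_mul_lt_mul_left ?_ hl.le
    rw [mul_one, mul_sum]
    conv_rhs => rw [log_eq hj]
    refine sum_lt_sum_of_nonempty (Nat.nonempty_primeFactors.2 hj1) fun p hp => ?_
    obtain ⟨h1, -, h2, -⟩ := h p hp
    rw [mul_one_div, div_lt_iff₀ (by positivity), mul_comm, ← Real.log_pow]
    exact Real.log_lt_log (by positivity) (by exact_mod_cast (by omega : j < p ^ r p))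
  have hM : (0 : ℝ) < (a * Λ : ℕ) := by positivity
  have h2 : ∑ p ∈ j.primeFactors, (1 : ℝ) / r p =
      (∑ p ∈ j.primeFactors, a * Λ / r p : ℕ) / (a * Λ : ℕ) := by
    rw [Nat.cast_sum, sum_div]
    refine sum_congr rfl fun p hp => ?_
    obtain ⟨-, -, h2, h3⟩ := h p hp
    rw [Nat.cast_div h3 (by positivity)]
    field_simp
  have h3 : ∑ p ∈ j.primeFactors, (1 : ℝ) / r p ≤ 1 - 1 / (a * Λ : ℕ) := by
    rw [h2, div_lt_one hM, Nat.cast_lt] at h1
    rw [h2, le_sub_iff_add_le, ← add_div, div_le_one hM]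
    exact_mod_cast h1
  set N := x * y + y + 2 + x with hN
  have hN0 : (0 : ℝ) < N := by positivity
  have h4 : Real.log j ≤ Real.log N * (1 - 1 / (a * Λ : ℕ)) := by
    rw [log_eq hj]
    refine le_trans (sum_le_sum fun p hp => log_le (Nat.prime_of_mem_primeFactors hp).pos
      (h p hp).2.2.1 (h p hp).2.1) ?_
    rw [← mul_sum]
    exact mul_le_mul_of_nonneg_left h3 (Real.log_natCast_nonneg N)
  have h5 : a * Real.log 2 ≤ Real.log N := by
    rw [← Real.log_pow]
    exact Real.log_le_log (by positivity) (by exact_mod_cast ha)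
  have hx0 : (0 : ℝ) < x := by positivity
  have h6 : Real.log N - Real.log j ≤ 3 / x := by
    rw [← Real.log_div hN0.ne' (by positivity)]
    refine (Real.log_le_sub_one_of_pos (by positivity)).trans ?_
    rw [sub_le_iff_le_add, div_add_one hx0.ne', div_le_div_iff₀ (by positivity) hx0]
    have : N * x ≤ (3 + x) * j := by
      have := Nat.mul_le_mul_left x hxy
      have : x * 1 ≤ x * y := Nat.mul_le_mul_left x (by omega)
      rw [hN, hjd]
      nlinarith
    exact_mod_cast this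
  have h7 : Real.log 2 / Λ ≤ Real.log N * (1 / (a * Λ : ℕ)) := by
    refine le_trans (le_of_eq ?_) (mul_le_mul_of_nonneg_right h5 (by positivity))
    push_cast
    field_simp
  have h8 : Real.log 2 / Λ ≤ 3 / x := by linarith
  rw [div_le_div_iff₀ (by positivity) hx0] at h8
  have h9 : (x : ℝ) ≤ 5 * Λ := by nlinarith [Real.log_two_gt_d9]
  exact_mod_cast h9

lemma lower {x y a : ℕ} {r : ℕ → ℕ} (hx : 2 ≤ x) (hxy : x ≤ y) (hj : Squarefree (x * y + 1))
    (ha : 2 ^ a ≤ x * y + y + 2 + x) (ha0 : 0 < a)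
    (h : ∀ p ∈ (x * y + 1).primeFactors, p ^ r p ≤ x * y + y + 2 + x ∧ 0 < r p) :
    1 - 2 / (a : ℝ) ≤ ∑ p ∈ (x * y + 1).primeFactors.erase 2, (1 : ℝ) / r p := by
  set j := x * y + 1 with hjd
  set N := x * y + y + 2 + x with hN
  have hl2 : 0 < Real.log 2 := Real.log_pos one_lt_two
  have h5 : a * Real.log 2 ≤ Real.log N := by
    rw [← Real.log_pow]
    exact Real.log_le_log (by positivity) (by exact_mod_cast ha)
  have ha' : (0 : ℝ) < a := by positivity
  have hl : 0 < Real.log N := lt_of_lt_of_le (by positivity) h5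
  have h1 : Real.log N ≤ Real.log 2 + Real.log j := by
    rw [← Real.log_mul two_ne_zero (by positivity)]
    have : N ≤ 2 * j := by
      have := Nat.mul_le_mul_right y hx
      omega
    exact Real.log_le_log (by positivity) (by exact_mod_cast this)
  have h2 : Real.log j ≤ Real.log 2 + ∑ p ∈ j.primeFactors.erase 2, Real.log p := by
    rw [log_eq hj]
    by_cases h : 2 ∈ j.primeFactors
    · rw [← add_sum_erase _ _ h]
      norm_num
    · rw [erase_eq_of_notMem h]
      linarith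
  have h3 : ∑ p ∈ j.primeFactors.erase 2, Real.log p ≤
      Real.log N * ∑ p ∈ j.primeFactors.erase 2, (1 : ℝ) / r p := by
    rw [mul_sum]
    exact sum_le_sum fun p hp => log_le
      (Nat.prime_of_mem_primeFactors (mem_of_mem_erase hp)).pos (h p (mem_of_mem_erase hp)).2
      (h p (mem_of_mem_erase hp)).1
  have h4 : 2 * Real.log 2 ≤ Real.log N * (2 / a) := by
    refine le_trans (le_of_eq ?_) (mul_le_mul_of_nonneg_right h5 (by positivity))
    field_simp
  refine le_of_mul_le_mul_left ?_ hl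
  rw [mul_sub]
  linarith

theorem one (hT : TwoLogStmt) (k1 : K1Stmt) (k2 : K2Stmt) (k3 : K3Stmt) (k4 : K4Stmt)
    (k5 : K5Stmt) : OneStmt := by
  intro x y a hx hxy hj ha1 ha2 hp
  by_cases h12 : a ≤ 12
  · obtain ⟨p, h1, h2, h3⟩ := k4 a x y h12 hx hxy ha1 ha2 hj
    obtain ⟨r, hr⟩ := hp p h1 h2
    exact h3 r hr
  have hN : (x + 1) * (y + 1) + 1 = x * y + y + 2 + x := by ring
  simp only [hN, add_le_add_iff_right] at ha1 ha2 hp
  have hr : ∀ p ∈ (x * y + 1).primeFactors, ∃ r, (x * y + y + 2 ≤ p ^ r ∧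
      p ^ r ≤ x * y + y + 2 + x) ∧ (p = 2 → r = a) := fun p h => by
    by_cases h2 : p = 2
    · exact ⟨a, by rw [h2]; exact ⟨ha1, ha2⟩, fun _ => rfl⟩
    · obtain ⟨r, hr⟩ := hp p (Nat.prime_of_mem_primeFactors h) (Nat.dvd_of_mem_primeFactors h)
      exact ⟨r, hr, fun h => absurd h h2⟩
  choose! r hr hr2 using hr
  have hI : x ^ 2 < x * y + y + 2 := by nlinarith
  have h2r : ∀ p ∈ (x * y + 1).primeFactors, 2 ≤ r p := fun p h => by
    have h1 := Nat.le_of_mem_primeFactors h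
    have h2 := (hr p h).1
    by_contra h3
    obtain h3 | h3 : r p = 0 ∨ r p = 1 := by omega
    · rw [h3, pow_zero] at h2
      omega
    · rw [h3, pow_one] at h2
      omega
  set P := (x * y + 1).primeFactors.erase 2 with hP
  have hm : ∀ p ∈ P, p ∈ (x * y + 1).primeFactors := fun p => mem_of_mem_erase
  have hpr : ∀ p ∈ P, p.Prime := fun p h => Nat.prime_of_mem_primeFactors (hm p h)
  have hc : ∀ p ∈ P, ∀ q ∈ P, p ≠ q → Nat.Coprime (r p) (r q) := fun p h q h' hne =>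
    coprime_exp hI (by omega) (hpr p h) (hpr q h') hne (hr p (hm p h)).1 (hr p (hm p h)).2
      (hr q (hm q h')).1 (hr q (hm q h')).2
  have hca : ∀ p ∈ P, Nat.Coprime a (r p) := fun p h =>
    coprime_exp hI (by omega) Nat.prime_two (hpr p h) (ne_of_mem_erase h).symm ha1 ha2
      (hr p (hm p h)).1 (hr p (hm p h)).2
  have hn : ∀ p ∈ P, ((p : ℤ) ^ r p - 2 ^ a) ^ 2 < 2 ^ a := fun p h => by
    exact_mod_cast near hI ha1 ha2 (hr p (hm p h)).1 (hr p (hm p h)).2
  have hfar : ∀ p ∈ P, ∀ l, l ∣ r p → ¬ Far a l := fun p h l ⟨u, hu⟩ hf => by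
    have h1 := hf (p ^ u)
    have h2 := hn p h
    rw [hu, mul_comm, pow_mul] at h2
    push_cast at h1
    exact absurd h1 (not_le.2 h2)
  have hnd : ∀ p ∈ P, ∀ l, 2 ≤ l → l ∣ r p → ¬ l ∣ a := fun p h l h1 h2 h3 => by
    have := Nat.eq_one_of_dvd_coprimes (hca p h) h3 h2
    omega
  have hlt : ∀ p ∈ P, r p < 20000 := fun p h => by
    by_contra h1
    have h2 := (hpr p h).two_le
    have h3 := ne_of_mem_erase h
    have h4 := hT 2 1 p a (r p) le_rfl (by norm_num) (by omega) (by rw [hca p h]; norm_num)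
      (by omega)
    have h5 := hn p h
    have h6 : (0 : ℤ) < 2 ^ a := by positivity
    push_cast at h4
    linarith
  obtain ⟨s1, s2, s3, -, -, Λ, hΛ0, hΛ1, hΛ⟩ := k5
  have hxΛ := upper (r := r) hx hxy hj ha2 (by omega) hΛ0 fun p h =>
    ⟨(hr p h).1, (hr p h).2, by have := h2r p h; omega, by
      by_cases h2 : p = 2
      · rw [hr2 p h h2]
        exact dvd_mul_right _ _
      · exact (hΛ _ (by have := h2r p h; omega) (hlt p (mem_erase.2 ⟨h2, h⟩))).mul_left _⟩
  have hx1 : x + 1 ≤ 2 ^ 28824 := by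
    rw [show 28824 = 28821 + 3 from rfl, pow_add]
    generalize 2 ^ 28821 = M at hΛ1 ⊢
    omega
  have har : ∀ p ∈ P, a ≤ 57648 * r p := fun p h => by
    obtain ⟨h1, h2⟩ := hr p (hm p h)
    have h3 := h2r p (hm p h)
    have h4 := Nat.dvd_of_mem_primeFactors (hm p h)
    obtain ⟨u, hu⟩ : ∃ u, p ^ r p = x * y + 1 + (y + (u + 1)) :=
      ⟨p ^ r p - (x * y + y + 2), by omega⟩
    have h5 : p ∣ y + (u + 1) := (Nat.dvd_add_right h4).1 (hu ▸ dvd_pow_self p (by omega))
    have h6 : p ∣ x * u + (x - 1) := by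
      refine (Nat.dvd_add_right h4).1 ?_
      rw [show x * y + 1 + (x * u + (x - 1)) = x * (y + (u + 1)) by
        rw [mul_add, mul_add]; omega]
      exact h5.mul_left x
    have h7 := Nat.le_of_dvd (by omega) h6
    have h8 : x * u ≤ x * x := Nat.mul_le_mul_left x (by omega)
    have h9 : p + x ≤ (x + 1) ^ 2 := by
      rw [add_sq, sq]
      omega
    have h10 : p ^ r p + x ^ r p ≤ (p + x) ^ r p :=
      pow_add_pow_le (Nat.zero_le _) (Nat.zero_le _) (by omega)
    have h11 : x ≤ x ^ r p := Nat.le_self_pow (by omega) x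
    have h12 : (p + x) ^ r p ≤ ((2 ^ 28824) ^ 2) ^ r p :=
      Nat.pow_le_pow_left (h9.trans (Nat.pow_le_pow_left hx1 2)) _
    rw [← pow_mul, ← pow_mul] at h12
    have h13 : 2 ^ a ≤ 2 ^ (28824 * (2 * r p)) := le_trans (by omega) (h10.trans h12)
    have := (Nat.pow_le_pow_iff_right one_lt_two).1 h13
    omega
  clear hΛ1 hx1
  have hlow := lower (r := r) hx hxy hj ha2 (by omega) fun p h =>
    ⟨(hr p h).2, by have := h2r p h; omega⟩
  rw [← hP] at hlow
  have hdiv : ∀ p ∈ P, ∀ l, 2 ≤ l → l ≤ r p → (1 : ℝ) / r p ≤ 1 / l := fun p h l h1 h2 =>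
    one_div_le_one_div_of_le (by positivity) (by exact_mod_cast h2)
  have hle : ∀ p ∈ P, ∀ l, l ∣ r p → l ≤ r p := fun p h l h1 =>
    Nat.le_of_dvd (by have := h2r p (hm p h); omega) h1
  by_cases h400 : a ≤ 400
  · have h1 := sum_le P {2, 3} r (fun l => 1 / l) hc (fun l _ => by positivity) fun p h => by
      have h2 := h2r p (hm p h)
      have h3 : ¬ 4 ≤ r p := fun h3 => hfar p h _ dvd_rfl (k1 a _ (by omega) h400 h3 (hca p h))
      exact ⟨r p, by simp only [mem_insert, mem_singleton]; omega, dvd_rfl, h2, le_rfl⟩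
    rw [sum_pair (by norm_num)] at h1
    have h2 : 2 / (a : ℝ) ≤ 2 / 13 :=
      div_le_div_of_nonneg_left (by norm_num) (by norm_num) (by exact_mod_cast (by omega : 13 ≤ a))
    push_cast at h1
    linarith
  have h2a : 2 / (a : ℝ) ≤ 2 / 401 :=
    div_le_div_of_nonneg_left (by norm_num) (by norm_num) (by exact_mod_cast (by omega : 401 ≤ a))
  by_cases h115 : a ≤ 115296
  · have h1 := sum_le P (insert 2 ((Ico 421 20000).filter Nat.Prime)) r (fun l => 1 / l) hc
      (fun l _ => by positivity) fun p h => by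
      have h2 := h2r p (hm p h)
      by_cases h3 : r p = 2
      · exact ⟨2, mem_insert_self _ _, h3 ▸ dvd_rfl, le_rfl, hdiv p h 2 le_rfl h2⟩
      obtain ⟨l, h4, h5, h6⟩ := odd_factor (r := r p) (by omega) fun h4 => hfar p h 4 h4
        (k2 4 a (Or.inl rfl) (by norm_num) (by norm_num) (by omega) h115 (hnd p h 4 (by norm_num) h4))
      have h7 : ¬ l < 421 := fun h7 => hfar p h l h6
        (k2 l a (Or.inr h4) h5 h7 (by omega) h115 (hnd p h l (by omega) h6))
      have h8 := hle p h l h6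
      have h9 := hlt p h
      exact ⟨l, mem_insert_of_mem (mem_filter.2 ⟨mem_Ico.2 ⟨by omega, by omega⟩, h4⟩), h6,
        by omega, hdiv p h l (by omega) h8⟩
    rw [sum_insert (fun h => absurd (mem_Ico.1 (mem_filter.1 h).1).1 (by norm_num))] at h1
    push_cast at h1
    linarith
  by_cases h305 : a ≤ 3055344
  · have h1 := sum_le P ((Ico 37 20000).filter Nat.Prime) r (fun l => 1 / l) hc
      (fun l _ => by positivity) fun p h => by
      have h2 := har p h
      obtain ⟨l, h4, h5, h6⟩ := odd_factor (r := r p) (by omega) fun h4 => hfar p h 4 h4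
        (k3 4 a (Or.inl rfl) (by norm_num) (by norm_num) (by omega) h305 (hnd p h 4 (by norm_num) h4))
      have h7 : ¬ l ≤ 31 := fun h7 => hfar p h l h6
        (k3 l a (Or.inr h4) h5 h7 (by omega) h305 (hnd p h l (by omega) h6))
      have h8 := hle p h l h6
      have h9 := hlt p h
      have h10 : 37 ≤ l := by
        by_contra h10
        obtain rfl | rfl | rfl | rfl | rfl : l = 32 ∨ l = 33 ∨ l = 34 ∨ l = 35 ∨ l = 36 := by omega
        all_goals norm_num at h4
      exact ⟨l, mem_filter.2 ⟨mem_Ico.2 ⟨h10, by omega⟩, h4⟩, h6, by omega,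
        hdiv p h l (by omega) h8⟩
    linarith
  have h1 := sum_le P ((range 20000).filter Nat.Prime) r
    (fun l => if l ≤ 53 then (1 : ℝ) / max 54 (l ^ 2) else 1 / l) hc
    (fun l _ => by split_ifs <;> positivity) fun p h => by
      have h2 := har p h
      have h4 := Nat.minFac_prime (n := r p) (by omega)
      have h6 := Nat.minFac_dvd (r p)
      have h8 := hle p h _ h6
      have h9 := hlt p h
      refine ⟨_, mem_filter.2 ⟨mem_range.2 (by omega), h4⟩, h6, h4.two_le, ?_⟩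
      split_ifs with h10
      · have h11 := Nat.minFac_sq_le_self (n := r p) (by omega) fun h11 => by
          rw [h11.minFac_eq] at h10
          omega
        exact one_div_le_one_div_of_le (by positivity)
          (Nat.cast_le.2 (max_le (by omega) h11))
      · exact hdiv p h _ h4.two_le h8
  linarith

end Pool.Agent.MP_089fcb_co.H7.One
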