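import Pool.Agent.MP_089fcb_co.H7.Defs

set_option autoImplicit false

open Finset

namespace Pool.Agent.MP_089fcb_co.H7.PP

/-- Few carries occur for multiples of a prime power. -/
lemma fact_le {p N k s : ℕ} (hp : p.Prime) (hk : k ≤ N) (hs : p ^ s ∣ k) :
    (N.choose k).factorization p ≤ Nat.log p N - s := by
  rw [Nat.factorization_choose hp hk (Nat.lt_succ_self _), ← Nat.card_Ioc s]
  refine card_le_card fun i hi => ?_
  rw [mem_filter, mem_Ico] at hi
  rw [mem_Ioc]
  refine ⟨?_, by omega⟩
  by_contra h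
  have h1 : k % p ^ i = 0 := Nat.mod_eq_zero_of_dvd ((pow_dvd_pow p (by omega)).trans hs)
  have h2 : (N - k) % p ^ i < p ^ i := Nat.mod_lt _ (pow_pos hp.pos i)
  omega

lemma mult_bounds {q : ℕ} (hq : 0 < q) (x : ℕ) :
    x + 1 ≤ q * (x / q + 1) ∧ q * (x / q + 1) ≤ x + q := by
  have h1 := Nat.div_add_mod x q
  have h2 := Nat.mod_lt x hq
  rw [mul_add, mul_one]
  omega

theorem pp : PPStmt := by
  intro F N x hN h
  have key : ∀ p t s k, p.Prime → p ^ t ∣ F → x + 1 ≤ k → k + x + 1 ≤ N → p ^ s ∣ k →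
      t ≤ Nat.log p N - s := by
    intro p t s k hp ht h1 h2 hs
    have hk : k ≤ N := by omega
    exact ((hp.pow_dvd_iff_le_factorization (Nat.choose_pos hk).ne').1
      (ht.trans (h k h1 h2))).trans (fact_le hp hk hs)
  have hN0 : N ≠ 0 := by omega
  constructor
  · rw [Nat.squarefree_iff_prime_squarefree]
    intro p hp hd
    rw [← sq] at hd
    have hq : 0 < p ^ (Nat.log p N - 1) := pow_pos hp.pos _
    obtain ⟨b1, b2⟩ := mult_bounds hq x
    have b3 : 2 * p ^ (Nat.log p N - 1) ≤ N := by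
      rcases Nat.eq_zero_or_pos (Nat.log p N) with h0 | h0
      · rw [h0]; simp; omega
      · have e : p ^ Nat.log p N = p * p ^ (Nat.log p N - 1) := by
          rw [← pow_succ']; congr 1; omega
        have := Nat.pow_log_le_self p hN0
        have := Nat.mul_le_mul_right (p ^ (Nat.log p N - 1)) hp.two_le
        omega
    have := key p 2 (Nat.log p N - 1) _ hp hd b1 (by omega) (dvd_mul_right _ _)
    omega
  · intro p hp hd
    refine ⟨Nat.log p N, ?_, Nat.pow_log_le_self p hN0⟩
    by_contra hc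
    have hq : 0 < p ^ Nat.log p N := pow_pos hp.pos _
    obtain ⟨b1, b2⟩ := mult_bounds hq x
    rcases lt_or_ge x (p ^ Nat.log p N) with h1 | h1
    · have := key p 1 (Nat.log p N) (p ^ Nat.log p N) hp (by simpa using hd) h1 (by omega) dvd_rfl
      omega
    · have := key p 1 (Nat.log p N) _ hp (by simpa using hd) b1 (by omega) (dvd_mul_right _ _)
      omega

lemma choose_step {p w i : ℕ} (hp : p.Prime) (hw : p ∣ w + 1) (hi : ¬ p ∣ i + 1) :
    ((w.choose (i + 1) : ℕ) : ZMod p) = -(w.choose i : ℕ) := by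
  have := Fact.mk hp
  have h0 : ((i : ZMod p) + 1) ≠ 0 := by
    intro h
    exact hi ((ZMod.natCast_eq_zero_iff _ _).1 (by push_cast; exact h))
  have hw' : (w : ZMod p) + 1 = 0 := by
    have := (ZMod.natCast_eq_zero_iff _ _).2 hw
    push_cast at this
    exact this
  rcases le_or_gt i w with h | h
  · have := congrArg (Nat.cast : ℕ → ZMod p) (Nat.choose_succ_right_eq w i)
    rw [Nat.cast_mul, Nat.cast_mul, Nat.cast_sub h] at this
    push_cast at this
    refine mul_right_cancel₀ h0 ?_
    rw [this]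
    linear_combination (w.choose i : ZMod p) * hw'
  · rw [Nat.choose_eq_zero_of_lt h, Nat.choose_eq_zero_of_lt (by omega)]
    simp

theorem anchor : AnchorStmt := by
  constructor
  · intro e w w' p hp he hw hw'
    obtain ⟨m, hm⟩ := he
    rw [← ZMod.natCast_eq_zero_iff, Phi, hm]
    push_cast
    have blk : ∀ j s, s < p → ((w.choose (p * j + s) : ℕ) : ZMod p) * (w'.choose (p * j + s) : ℕ) =
        ((w.choose (p * j) : ℕ) : ZMod p) * (w'.choose (p * j) : ℕ) := by
      intro j s hs
      induction s with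
      | zero => rfl
      | succ s ih =>
        have hi : ¬ p ∣ p * j + s + 1 := by
          rw [add_assoc, Nat.dvd_add_right (dvd_mul_right _ _)]
          exact Nat.not_dvd_of_pos_of_lt (by omega) hs
        rw [← add_assoc, choose_step hp hw hi, choose_step hp hw' hi, neg_mul_neg, ih (by omega)]
    clear hm
    induction m with
    | zero => simp
    | succ m ih =>
      rw [mul_add, mul_one, sum_range_add, ih, zero_add,
        sum_congr rfl fun s hs => blk m s (mem_range.1 hs)]
      simp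
  · intro w w' hw hw'
    obtain ⟨a, rfl⟩ : ∃ a, w = 4 * a + 2 := ⟨w / 4, by omega⟩
    obtain ⟨b, rfl⟩ : ∃ b, w' = 4 * b + 2 := ⟨w' / 4, by omega⟩
    have c : ∀ a : ℕ, (4 * a + 2).choose 2 = (2 * a + 1) * (4 * a + 1) := by
      intro a
      rw [Nat.choose_two_right]
      have : (4 * a + 2) * (4 * a + 2 - 1) = 2 * ((2 * a + 1) * (4 * a + 1)) := by
        have : 4 * a + 2 - 1 = 4 * a + 1 := by omega
        rw [this]; ring
      rw [this, Nat.mul_div_cancel_left _ (by norm_num)]
    simp only [Phi, sum_range_succ, sum_range_zero, c, Nat.choose_zero_right, Nat.choose_one_right]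
    exact ⟨1 + (4 * a + 2) * (2 * b + 1) + (4 * a ^ 2 + 3 * a) + (4 * b ^ 2 + 3 * b)
      + 2 * (4 * a ^ 2 + 3 * a) * (4 * b ^ 2 + 3 * b), by ring⟩

end Pool.Agent.MP_089fcb_co.H7.PP
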