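import Pool.Agent.MP_089fcb_co.H7.Defs

set_option autoImplicit false

open Finset

namespace Pool.Agent.MP_089fcb_co.H7.Prod

/-- Odd numbers whose `l`-th powers lie in a short interval. -/
lemma spread (M : Finset ℕ) (I x l : ℕ) (hM : M.Nonempty)
    (h : ∀ m ∈ M, m % 2 = 1 ∧ I ≤ m ^ l ∧ m ^ l ≤ I + x) :
    ∃ m, I ≤ m ^ l ∧ 1 ≤ m ∧ l * m ^ (l - 1) * (2 * (M.card - 1)) ≤ x := by
  set a := M.min' hM
  set b := M.max' hM
  have ha := h a (M.min'_mem hM)
  have hb := h b (M.max'_mem hM)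
  have hab : a ≤ b := M.min'_le b (M.max'_mem hM)
  have hc : M.card ≤ (Icc (a / 2) (b / 2)).card := by
    refine card_le_card_of_injOn (fun m => m / 2) (fun m hm => ?_) (fun m hm n hn e => ?_)
    · have h1 : a ≤ m := M.min'_le m hm
      have h2 : m ≤ b := M.le_max' m hm
      simp only [coe_Icc, Set.mem_Icc]
      omega
    · have h1 := (h m hm).1
      have h2 := (h n hn).1
      simp only at e
      omega
  rw [Nat.card_Icc] at hc
  have h1 : a + 2 * (M.card - 1) ≤ b := by omega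
  have h2 := pow_add_mul_le_add_pow (R := ℕ) (a := a) (b := 2 * (M.card - 1)) (Nat.zero_le _)
    (Nat.zero_le _) l
  have h3 := Nat.pow_le_pow_left h1 l
  simp only [Nat.cast_id] at h2
  exact ⟨a, ha.2.1, by omega, by omega⟩

lemma card_le_sqrt (M : Finset ℕ) (I x l e : ℕ) (hl : 2 ≤ l) (hx : x ^ 2 < 4 * e * I)
    (h : ∀ m ∈ M, m % 2 = 1 ∧ I ≤ m ^ l ∧ m ^ l ≤ I + x) :
    M.card ≤ Nat.sqrt ((e - 1) / 4) + 1 := by
  rcases M.eq_empty_or_nonempty with rfl | hM
  · simp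
  obtain ⟨m, h1, h2, h3⟩ := spread M I x l hM h
  set n := M.card - 1 with hn
  have h4 : I ≤ (m ^ (l - 1)) ^ 2 := by
    rw [← pow_mul]; exact h1.trans (Nat.pow_le_pow_right h2 (by omega))
  have h5 : 4 * m ^ (l - 1) * n ≤ x := by
    refine le_trans ?_ h3
    have : 2 * m ^ (l - 1) * (2 * n) ≤ l * m ^ (l - 1) * (2 * n) := by gcongr
    linarith
  have h6 : 16 * n ^ 2 * I ≤ x ^ 2 := by
    calc 16 * n ^ 2 * I ≤ 16 * n ^ 2 * (m ^ (l - 1)) ^ 2 := by gcongr
      _ = (4 * m ^ (l - 1) * n) ^ 2 := by ring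
      _ ≤ x ^ 2 := Nat.pow_le_pow_left h5 2
  have h7 : 16 * n ^ 2 < 4 * e := lt_of_mul_lt_mul_right (h6.trans_lt hx) (Nat.zero_le _)
  have h8 : n ≤ Nat.sqrt ((e - 1) / 4) := Nat.le_sqrt'.2 (by omega)
  omega

lemma card_le_one' (M : Finset ℕ) (I x l e : ℕ) (hl : 4 ≤ l) (he : e ^ 2 ≤ I)
    (hx : x ^ 2 < 4 * e * I) (h : ∀ m ∈ M, m % 2 = 1 ∧ I ≤ m ^ l ∧ m ^ l ≤ I + x) :
    M.card ≤ 1 := by
  rcases M.eq_empty_or_nonempty with rfl | hM
  · simp
  obtain ⟨m, h1, h2, h3⟩ := spread M I x l hM h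
  by_contra hc
  have h4 : I ^ 3 ≤ (m ^ (l - 1)) ^ 4 := by
    refine (Nat.pow_le_pow_left h1 3).trans ?_
    rw [← pow_mul, ← pow_mul]; exact Nat.pow_le_pow_right h2 (by omega)
  have h5 : 2 * m ^ (l - 1) ≤ x := by
    refine le_trans ?_ h3
    have : 1 * m ^ (l - 1) * (2 * 1) ≤ l * m ^ (l - 1) * (2 * (M.card - 1)) := by
      gcongr <;> omega
    linarith
  have h6 : 16 * I ^ 3 ≤ (x ^ 2) ^ 2 := by
    calc 16 * I ^ 3 ≤ 16 * (m ^ (l - 1)) ^ 4 := by gcongr
      _ = (2 * m ^ (l - 1)) ^ 4 := by ring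
      _ ≤ x ^ 4 := Nat.pow_le_pow_left h5 4
      _ = _ := by ring
  have h7 : (x ^ 2) ^ 2 < (4 * e * I) ^ 2 := Nat.pow_lt_pow_left hx (by norm_num)
  have h8 : (4 * e * I) ^ 2 ≤ 16 * I ^ 3 := by
    calc (4 * e * I) ^ 2 = 16 * (e ^ 2 * I ^ 2) := by ring
      _ ≤ 16 * (I * I ^ 2) := by gcongr
      _ = _ := by ring
  omega

theorem prod : ProdStmt := by
  classical
  intro P r I x e R s he heI hx hP hs
  set c := Nat.sqrt ((e - 1) / 4) with hc
  have hI : 1 ≤ I := le_trans (Nat.one_le_pow _ _ he) heI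
  have hL : 0 ≤ Real.log (I + x : ℕ) := Real.log_natCast_nonneg _
  set T := (range R).filter Nat.Prime with hT
  have hmaps : ∀ p ∈ P, (r p).minFac ∈ T := fun p hp =>
    mem_filter.2 ⟨mem_range.2 (hP p hp).2.2.2.1, Nat.minFac_prime (by have := (hP p hp).2.2.1; omega)⟩
  have hfib : ∀ l ∈ T, ((P.filter fun p => (r p).minFac = l).card : ℝ) ≤
      1 + if l = 2 ∨ l = 3 then (c : ℝ) else 0 := by
    intro l hl
    have hlp : l.Prime := (mem_filter.1 hl).2
    set F := P.filter fun p => (r p).minFac = l with hF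
    have hd : ∀ p ∈ F, r p / l * l = r p ∧ r p / l ≠ 0 := by
      intro p hp
      obtain ⟨h1, h2⟩ := mem_filter.1 hp
      have h3 : r p / l * l = r p := Nat.div_mul_cancel (h2 ▸ Nat.minFac_dvd _)
      refine ⟨h3, fun h0 => ?_⟩
      have := (hP p h1).2.2.1
      rw [h0] at h3; omega
    have hcard : (F.image fun p => p ^ (r p / l)).card = F.card := by
      refine card_image_of_injOn fun p hp q hq e => ?_
      have p1 := (hP p (mem_filter.1 hp).1).1
      have q1 := (hP q (mem_filter.1 hq).1).1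
      have : p ∣ q ^ (r q / l) := e ▸ dvd_pow_self p (hd p hp).2
      exact (Nat.prime_dvd_prime_iff_eq p1 q1).1 (p1.dvd_of_dvd_pow this)
    have hM : ∀ m ∈ F.image fun p => p ^ (r p / l), m % 2 = 1 ∧ I ≤ m ^ l ∧ m ^ l ≤ I + x := by
      intro m hm
      obtain ⟨p, hp, rfl⟩ := mem_image.1 hm
      obtain ⟨p1, p2, -, -, p5⟩ := hP p (mem_filter.1 hp).1
      rw [← pow_mul, (hd p hp).1]
      exact ⟨Nat.odd_iff.1 ((p1.odd_of_ne_two p2).pow), p5⟩
    rw [← hcard]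
    split_ifs with h
    · have := card_le_sqrt _ I x l e hlp.two_le hx hM
      rw [add_comm]; exact_mod_cast this
    · have h2 := hlp.two_le
      have := card_le_one' _ I x l e (by omega) heI hx hM
      rw [add_zero]; exact_mod_cast this
  have h1 : Real.log (∏ p ∈ P, p : ℕ) ≤ ∑ p ∈ P, Real.log (I + x : ℕ) * (1 / (r p).minFac) := by
    rw [Nat.cast_prod, Real.log_prod (fun p hp => by exact_mod_cast (hP p hp).1.ne_zero)]
    refine sum_le_sum fun p hp => ?_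
    obtain ⟨p1, -, p3, -, -, p6⟩ := hP p hp
    have h0 : (0 : ℝ) < (r p).minFac := by exact_mod_cast Nat.minFac_pos _
    rw [mul_one_div, le_div_iff₀ h0, mul_comm, ← Real.log_pow]
    refine Real.log_le_log (by have := p1.pos; positivity) ?_
    exact_mod_cast (Nat.pow_le_pow_right p1.pos (Nat.minFac_le (by omega))).trans p6
  refine h1.trans ?_
  rw [← mul_sum]
  refine mul_le_mul_of_nonneg_left ?_ hL
  rw [← sum_fiberwise_of_maps_to hmaps]
  have h2 : ∀ l ∈ T, ∑ p ∈ P with (r p).minFac = l, (1 : ℝ) / (r p).minFac ≤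
      1 / l + ((if l = 2 then (c : ℝ) / 2 else 0) + if l = 3 then (c : ℝ) / 3 else 0) := by
    intro l hl
    rw [sum_congr rfl (g := fun _ => (1 : ℝ) / l) (fun p hp => by rw [(mem_filter.1 hp).2]),
      sum_const, nsmul_eq_mul]
    refine (mul_le_mul_of_nonneg_right (hfib l hl) (by positivity)).trans (le_of_eq ?_)
    by_cases e2 : l = 2
    · subst e2; simp; ring
    · by_cases e3 : l = 3
      · subst e3; simp; ring
      · simp [e2, e3]
  refine (sum_le_sum h2).trans ?_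
  rw [sum_add_distrib, sum_add_distrib, sum_ite_eq', sum_ite_eq']
  have c0 : (0 : ℝ) ≤ c := Nat.cast_nonneg _
  split_ifs <;> linarith

lemma two_pow_fact (e : ℕ) (he : 6 ≤ e) : 2 ^ e * e.factorial ≤ e ^ e := by
  induction e, he using Nat.le_induction with
  | base => decide
  | succ e he ih =>
    have h1 := pow_add_mul_le_add_pow (R := ℕ) (a := e) (b := 1) (Nat.zero_le _) (Nat.zero_le _) e
    have h2 : e * e ^ (e - 1) = e ^ e := by
      rw [← pow_succ']; congr 1; omega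
    simp only [Nat.cast_id, mul_one, h2] at h1
    calc 2 ^ (e + 1) * (e + 1).factorial = (e + 1) * (2 * (2 ^ e * e.factorial)) := by
          rw [Nat.factorial_succ]; ring
      _ ≤ (e + 1) * (e + 1) ^ e := by gcongr; omega
      _ = _ := by ring

lemma poly_le (G : ℕ) (hG : 8 ≤ G) : (2 * G + 1) ^ 2 ≤ 3 * 2 ^ (G - 1) ∧
    2 * (6 * (G + 1) + (2 * G + 1) * (13 + G)) ≤ 7 * 2 ^ (G - 1) := by
  induction G, hG using Nat.le_induction with
  | base => decide
  | succ G hG ih =>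
    have : 2 ^ (G + 1 - 1) = 2 * 2 ^ (G - 1) := by
      rw [← pow_succ']; congr 1; omega
    rw [this]
    constructor <;> nlinarith [ih.1, ih.2]

lemma mono_step {A a b E N : ℕ} (hab : a ≤ b) (ha : 0 < a) (h : A * a ^ E < a ^ N) (hA : 0 < A) :
    A * b ^ E < b ^ N := by
  rcases le_or_gt E N with hE | hE
  · obtain ⟨k, rfl⟩ := Nat.exists_eq_add_of_le hE
    rw [pow_add, mul_comm] at h ⊢
    have h1 : A < a ^ k := lt_of_mul_lt_mul_left h (Nat.zero_le _)
    exact Nat.mul_lt_mul_of_pos_left (h1.trans_le (Nat.pow_le_pow_left hab k))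
      (Nat.pow_pos (by omega))
  · exfalso
    have h1 : a ^ N ≤ a ^ E := Nat.pow_le_pow_right ha hE.le
    nlinarith [Nat.pow_pos (n := E) ha]

/-- The smallest admissible value of `2 * w`. -/
def w0 (e : ℕ) : ℕ := 2 * max (max (36 * e) (e ^ 2)) (if 5 ≤ e then 400 else 300)

lemma small1 : ∀ e < 128, ∀ c < 6, 3 ≤ e ∧ c * c ≤ (e - 1) / 4 →
    (3 ^ e * e.factorial ^ 2 * (2 * (e + 1))) ^ 6 * w0 e ^ (9 + 5 * c) < w0 e ^ (6 * e) := by
  decide +kernel

/-- The finite check for large `w`. -/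
def Chk (e c G : ℕ) : Prop :=
  3 ≤ e ∧ c * c ≤ (e - 1) / 4 ∧ (G ≤ 3 ∨ 2 ^ (G - 1) < e + 1) →
    (3 ^ e * e.factorial ^ 2 * (2 * (e + 1))) ^ 6 * (3 ^ 29) ^ (13 + G + 5 * c) <
      (3 ^ 29) ^ (6 * e)

instance (e c G : ℕ) : Decidable (Chk e c G) := by unfold Chk; infer_instance

lemma small2 : ∀ e < 128, ∀ c < 6, ∀ G < 8, Chk e c G := by
  decide +kernel

theorem k8 : K8Stmt := by
  intro e w c G he h36 h300 h400 hsq hc hG
  have hA : 0 < (3 ^ e * e.factorial ^ 2 * (2 * (e + 1))) ^ 6 := by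
    have := Nat.factorial_pos e
    positivity
  have hcc : c * c ≤ (e - 1) / 4 := hc ▸ Nat.sqrt_le _
  have hG1 : e + 1 ≤ 2 ^ G := (Nat.le_pow_clog (by norm_num) _).trans
    (Nat.pow_le_pow_right (by norm_num) (hG ▸ le_max_right _ _))
  have hG2 : G ≤ 3 ∨ 2 ^ (G - 1) < e + 1 := by
    rcases le_or_gt G 3 with h | h
    · exact Or.inl h
    · exact Or.inr (Nat.pow_lt_of_lt_clog (by omega))
  rcases lt_or_ge e 128 with h128 | h128
  · have hc6 : c < 6 := by
      by_contra h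
      have : 6 * 6 ≤ c * c := Nat.mul_le_mul (by omega) (by omega)
      omega
    have s1 := small1 e h128 c hc6 ⟨he, hcc⟩
    split_ifs with h
    · refine mono_step ?_ ?_ s1 hA
      · unfold w0; split_ifs with h5
        · have := h400 h5; omega
        · omega
      · unfold w0; omega
    · refine mono_step (by omega) (by norm_num) (small2 e h128 c hc6 G ?_ ⟨he, hcc, hG2⟩) hA
      rcases hG2 with h1 | h1
      · omega
      · by_contra h2
        have : 2 ^ 7 ≤ 2 ^ (G - 1) := Nat.pow_le_pow_right (by norm_num) (by omega)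
        omega
  · have hG8 : 8 ≤ G := by
      by_contra h
      have : 2 ^ G ≤ 2 ^ 7 := Nat.pow_le_pow_right (by norm_num) (by omega)
      omega
    have hGe : 2 ^ (G - 1) ≤ e := by omega
    obtain ⟨p1, p2⟩ := poly_le G hG8
    have q1 : 10 * ((2 * G + 1) * c) ≤ 9 * e := by
      refine (Nat.pow_le_pow_iff_left (n := 2) (by norm_num)).1 ?_
      have a1 : (2 * G + 1) ^ 2 ≤ 3 * e := by omega
      have a2 : 4 * (c * c) ≤ e := by omega
      calc (10 * ((2 * G + 1) * c)) ^ 2 = 25 * ((2 * G + 1) ^ 2 * (4 * (c * c))) := by ring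
        _ ≤ 25 * (3 * e * e) := by gcongr
        _ ≤ (9 * e) ^ 2 := by nlinarith
    have q2 : 6 * (G + 1) + (2 * G + 1) * (13 + G + 5 * c) ≤ 8 * e := by nlinarith
    have q3 : 2 * e ^ 2 < 2 ^ (2 * G + 1) := by
      have : e ^ 2 < (2 ^ G) ^ 2 := Nat.pow_lt_pow_left (by omega) (by norm_num)
      rw [pow_succ 2, pow_mul']; omega
    have q4 : (2 * (e + 1)) ^ 6 * (2 * e ^ 2) ^ (13 + G + 5 * c) < 2 ^ (8 * e) := by
      calc (2 * (e + 1)) ^ 6 * (2 * e ^ 2) ^ (13 + G + 5 * c)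
          ≤ (2 ^ (G + 1)) ^ 6 * (2 * e ^ 2) ^ (13 + G + 5 * c) := by
            gcongr; rw [pow_succ]; omega
        _ < (2 ^ (G + 1)) ^ 6 * (2 ^ (2 * G + 1)) ^ (13 + G + 5 * c) :=
            Nat.mul_lt_mul_of_pos_left (Nat.pow_lt_pow_left q3 (by omega)) (by positivity)
        _ = 2 ^ (6 * (G + 1) + (2 * G + 1) * (13 + G + 5 * c)) := by ring
        _ ≤ _ := Nat.pow_le_pow_right (by norm_num) q2
    have q5 : (3 ^ e * e.factorial ^ 2) ^ 6 * 2 ^ (8 * e) ≤ (2 * e ^ 2) ^ (6 * e) := by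
      have f1 := Nat.pow_le_pow_left (two_pow_fact e (by omega)) 12
      have f2 : (3 ^ 6 * 2 ^ 8) ^ e ≤ (2 ^ 18) ^ e := Nat.pow_le_pow_left (by norm_num) e
      calc (3 ^ e * e.factorial ^ 2) ^ 6 * 2 ^ (8 * e) = (3 ^ 6 * 2 ^ 8) ^ e * e.factorial ^ 12 := by
            rw [mul_pow, mul_pow, ← pow_mul, ← pow_mul, ← pow_mul, ← pow_mul]; ring
        _ ≤ (2 ^ 18) ^ e * e.factorial ^ 12 := by gcongr
        _ = 2 ^ (6 * e) * (2 ^ e * e.factorial) ^ 12 := by
            rw [mul_pow, ← pow_mul, ← pow_mul, ← mul_assoc, ← pow_add]; congr 2; ring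
        _ ≤ 2 ^ (6 * e) * (e ^ e) ^ 12 := by gcongr
        _ = _ := by rw [mul_pow, ← pow_mul, ← pow_mul]; congr 2; ring
    have q6 : (3 ^ e * e.factorial ^ 2 * (2 * (e + 1))) ^ 6 * (2 * e ^ 2) ^ (13 + G + 5 * c) <
        (2 * e ^ 2) ^ (6 * e) := by
      rw [mul_pow, mul_assoc]
      refine lt_of_lt_of_le (Nat.mul_lt_mul_of_pos_left q4 ?_) q5
      have := Nat.factorial_pos e
      positivity
    have q7 := mono_step (b := 2 * w) (by omega) (by positivity) q6 hA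
    refine lt_of_le_of_lt ?_ q7
    gcongr
    · omega
    · split_ifs <;> omega

end Pool.Agent.MP_089fcb_co.H7.Prod
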