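import Pool.Agent.MP_089fcb_co.H7.Defs

set_option autoImplicit false

open Finset Polynomial

namespace Pool.Agent.MP_089fcb_co.H7.Spec1

open Pool.Agent.MP_089fcb_co.H7

variable {α : Type} [Fintype α] [DecidableEq α]

lemma U_apply (g : Finset α → ℚ) (S : Finset α) : Uop α g S = ∑ a ∈ S, g (S.erase a) := rfl

lemma D_apply (g : Finset α → ℚ) (S : Finset α) : Dop α g S = ∑ b ∈ Sᶜ, g (insert b S) := rfl

lemma M_apply (g : Finset α → ℚ) : Mop α g = Uop α (Dop α g) := rfl

lemma comm (g : Finset α → ℚ) (S : Finset α) :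
    Dop α (Uop α g) S = Mop α g S + ((Fintype.card α : ℚ) - 2 * S.card) * g S := by
  rw [M_apply, D_apply, U_apply]
  have h1 : ∀ b ∈ Sᶜ, Uop α g (insert b S) = g S + ∑ a ∈ S, g (insert b (S.erase a)) := by
    intro b hb
    have hb' : b ∉ S := by simpa using hb
    rw [U_apply, sum_insert hb', erase_insert hb']
    congr 1
    refine sum_congr rfl fun a ha => ?_
    rw [erase_insert_of_ne (by rintro rfl; exact hb' ha)]
  have h2 : ∀ a ∈ S, Dop α g (S.erase a) = g S + ∑ b ∈ Sᶜ, g (insert b (S.erase a)) := by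
    intro a ha
    rw [D_apply, compl_erase, sum_insert (by simpa using ha), insert_erase ha]
  rw [sum_congr rfl h1, sum_congr rfl h2, sum_add_distrib, sum_add_distrib, sum_comm (s := Sᶜ),
    sum_const, sum_const, card_compl, nsmul_eq_mul, nsmul_eq_mul,
    Nat.cast_sub (card_le_univ S)]
  ring

/-- Supported on level `i`. -/
def Supp (i : ℕ) (g : Finset α → ℚ) : Prop := ∀ S, S.card ≠ i → g S = 0

lemma Supp.D {i : ℕ} {g : Finset α → ℚ} (h : Supp (i + 1) g) : Supp i (Dop α g) := by
  intro S hS
  rw [D_apply]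
  refine sum_eq_zero fun b hb => h _ ?_
  rw [card_insert_of_notMem (by simpa using hb)]
  omega

lemma Supp.D0 {g : Finset α → ℚ} (h : Supp 0 g) : Dop α g = 0 := by
  funext S
  rw [D_apply]
  refine sum_eq_zero fun b hb => h _ ?_
  rw [card_insert_of_notMem (by simpa using hb)]
  omega

lemma Supp.U {i : ℕ} {g : Finset α → ℚ} (h : Supp i g) : Supp (i + 1) (Uop α g) := by
  intro S hS
  rw [U_apply]
  refine sum_eq_zero fun a ha => h _ ?_
  have := card_erase_add_one ha
  omega

lemma Supp.M {i : ℕ} {g : Finset α → ℚ} (h : Supp i g) : Supp i (Mop α g) := by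
  cases i with
  | zero =>
    intro S _
    rw [M_apply, h.D0, map_zero]
    rfl
  | succ i => exact h.D.U

lemma Supp.DU {i : ℕ} {g : Finset α → ℚ} (h : Supp i g) :
    Dop α (Uop α g) = Mop α g + ((Fintype.card α : ℚ) - 2 * i) • g := by
  funext S
  rw [comm]
  by_cases hS : S.card = i
  · simp [hS]
  · simp [h S hS]

/-- Product of shifted copies of `Mop`. -/
noncomputable def Pr (α : Type) [Fintype α] [DecidableEq α] (J : Finset ℕ) (a : ℕ → ℚ) :
    Module.End ℚ (Finset α → ℚ) :=
  aeval (Mop α) (∏ j ∈ J, (X - C (a j)))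

lemma Pr_empty (a : ℕ → ℚ) (g : Finset α → ℚ) : Pr α ∅ a g = g := by simp [Pr]

lemma Pr_insert {J : Finset ℕ} {j : ℕ} (hj : j ∉ J) (a : ℕ → ℚ) (g : Finset α → ℚ) :
    Pr α (insert j J) a g = Mop α (Pr α J a g) - a j • Pr α J a g := by
  simp [Pr, prod_insert hj, Module.algebraMap_end_apply]

lemma Pr_insert' {J : Finset ℕ} {j : ℕ} (hj : j ∉ J) (a : ℕ → ℚ) (g : Finset α → ℚ) :
    Pr α (insert j J) a g = Pr α J a (Mop α g - a j • g) := by
  unfold Pr
  rw [prod_insert hj, mul_comm, map_mul]
  simp [Module.algebraMap_end_apply]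

lemma Supp.pr {i : ℕ} {g : Finset α → ℚ} (h : Supp i g) (J : Finset ℕ) (a : ℕ → ℚ) :
    Supp i (Pr α J a g) := by
  induction J using Finset.induction_on with
  | empty => rwa [Pr_empty]
  | insert j J hj ih =>
    rw [Pr_insert hj]
    intro S hS
    simp [ih.M S hS, ih S hS]

lemma D_Pr {i : ℕ} {g : Finset α → ℚ} (h : Supp (i + 1) g) (J : Finset ℕ) (a : ℕ → ℚ) :
    Dop α (Pr α J a g) =
      Pr α J (fun j => a j - ((Fintype.card α : ℚ) - 2 * i)) (Dop α g) := by
  induction J using Finset.induction_on with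
  | empty => rw [Pr_empty, Pr_empty]
  | insert j J hj ih =>
    rw [Pr_insert hj, Pr_insert hj, map_sub, map_smul, M_apply, (h.pr J a).D.DU, ih]
    module

lemma Pr_U {i : ℕ} {g : Finset α → ℚ} (h : Supp i g) (J : Finset ℕ) (a : ℕ → ℚ) :
    Pr α J a (Uop α g) =
      Uop α (Pr α J (fun j => a j - ((Fintype.card α : ℚ) - 2 * i)) g) := by
  induction J using Finset.induction_on with
  | empty => rw [Pr_empty, Pr_empty]
  | insert j J hj ih =>
    rw [Pr_insert hj, Pr_insert hj, ih, M_apply, (h.pr J _).DU, map_add, map_sub, map_smul,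
      map_smul]
    module

lemma mu_succ (n i : ℕ) : (fun j => mu n (i + 1) j - ((n : ℚ) - 2 * i)) = mu n i := by
  funext j
  unfold mu
  push_cast
  ring

lemma mu_self (n i : ℕ) : mu n i i = 0 := by simp [mu]

lemma ann_aux : ∀ (i : ℕ) (g : Finset α → ℚ), Supp i g →
    Pr α (range (i + 1)) (mu (Fintype.card α) i) g = 0
  | 0, g, h => by
    rw [range_add_one, Pr_insert' (by simp), mu_self, M_apply, h.D0]
    simp
  | i + 1, g, h => by
    rw [range_add_one, Pr_insert' (by simp), mu_self, zero_smul, sub_zero, M_apply, Pr_U h.D,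
      mu_succ, ann_aux i _ h.D, map_zero]

theorem ann : AnnStmt := fun _ _ _ i g h => ann_aux i g h

/-- Deviation from the design count on level `i`. -/
def G (w : ℕ) (C : Finset (Finset α)) (φ : ℚ) (i : ℕ) : Finset α → ℚ := fun S =>
  if S.card = i then
    ((C.filter (fun A => S ⊆ A)).card : ℚ) - φ * ((Fintype.card α - i).choose (w - i) : ℕ)
  else 0

lemma G_supp (w : ℕ) (C : Finset (Finset α)) (φ : ℚ) (i : ℕ) : Supp i (G w C φ i) :=
  fun _ hS => if_neg hS

lemma G_top {w : ℕ} {C : Finset (Finset α)} (hC : ∀ A ∈ C, A.card = w) (φ : ℚ) :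
    G w C φ w = ind C - φ • lev α w := by
  funext S
  simp only [G, ind, lev, Pi.sub_apply, Pi.smul_apply, smul_eq_mul]
  by_cases hS : S.card = w
  · have : C.filter (fun A => S ⊆ A) = C.filter (fun A => A = S) :=
      filter_congr fun A hA =>
        ⟨fun h => (eq_of_subset_of_card_le h (by rw [hC A hA, hS])).symm, fun h => h ▸ Subset.rfl⟩
    rw [if_pos hS, if_pos hS, this, filter_eq']
    split_ifs <;> simp
  · rw [if_neg hS, if_neg hS, if_neg (fun h => hS (hC S h))]
    simp

lemma D_G {w : ℕ} {C : Finset (Finset α)} (hC : ∀ A ∈ C, A.card = w) (φ : ℚ) {i : ℕ}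
    (hi : i < w) (hw : w ≤ Fintype.card α) :
    Dop α (G w C φ (i + 1)) = ((w : ℚ) - i) • G w C φ i := by
  funext S
  by_cases hS : S.card = i
  · rw [D_apply]
    have h1 : ∀ b ∈ Sᶜ, G w C φ (i + 1) (insert b S) =
        (∑ A ∈ C, if insert b S ⊆ A then (1 : ℚ) else 0) -
          φ * ((Fintype.card α - (i + 1)).choose (w - (i + 1)) : ℕ) := by
      intro b hb
      unfold G
      rw [if_pos (by rw [card_insert_of_notMem (by simpa using hb), hS]), card_filter]
      push_cast
      rfl
    have h2 : ∀ A ∈ C, (∑ b ∈ Sᶜ, if insert b S ⊆ A then (1 : ℚ) else 0) =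
        ((w : ℚ) - i) * if S ⊆ A then 1 else 0 := by
      intro A hA
      by_cases hSA : S ⊆ A
      · have : Sᶜ.filter (fun b => insert b S ⊆ A) = A \ S := by
          ext b
          simp [insert_subset_iff, hSA, and_comm]
        rw [sum_boole, this, card_sdiff_of_subset hSA, hC A hA, hS, Nat.cast_sub hi.le, if_pos hSA,
          mul_one]
      · simp [insert_subset_iff, hSA]
    have h3 : ((Fintype.card α - i : ℕ) : ℚ) *
        ((Fintype.card α - (i + 1)).choose (w - (i + 1)) : ℕ) =
        ((w : ℚ) - i) * ((Fintype.card α - i).choose (w - i) : ℕ) := by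
      have h := Nat.add_one_mul_choose_eq (Fintype.card α - (i + 1)) (w - (i + 1))
      have e1 : Fintype.card α - (i + 1) + 1 = Fintype.card α - i := by omega
      have e2 : w - (i + 1) + 1 = w - i := by omega
      rw [e1, e2] at h
      rw [← Nat.cast_sub hi.le, ← Nat.cast_mul, h]
      push_cast
      ring
    rw [sum_congr rfl h1, sum_sub_distrib, sum_comm, sum_congr rfl h2, sum_const, card_compl, hS,
      nsmul_eq_mul, ← mul_sum, sum_boole]
    simp only [G, Pi.smul_apply, if_pos hS, smul_eq_mul]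
    linear_combination (-φ) * h3
  · rw [(G_supp w C φ (i + 1)).D S hS]
    simp [G, hS]

lemma Pr_of_M {g : Finset α → ℚ} (h : Mop α g = 0) (J : Finset ℕ) (a : ℕ → ℚ) :
    Pr α J a g = (∏ j ∈ J, (-a j)) • g := by
  induction J using Finset.induction_on with
  | empty => simp [Pr_empty]
  | insert j J hj ih =>
    rw [Pr_insert hj, ih, map_smul, h, prod_insert hj]
    module

theorem design : DesignStmt := by
  intro α _ _ w C J φ hC hw hJ h0
  have hdown : ∀ k i, i + k = w → Pr α J (mu (Fintype.card α) i) (G w C φ i) = 0 := by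
    intro k
    induction k with
    | zero =>
      intro i hi
      obtain rfl : i = w := by omega
      rw [G_top hC]
      exact h0
    | succ k ih =>
      intro i hi
      have h1 := congrArg (Dop α) (ih (i + 1) (by omega))
      rw [D_Pr (G_supp w C φ (i + 1)), mu_succ, D_G hC φ (by omega) (by omega), map_smul,
        map_zero] at h1
      refine (smul_eq_zero.1 h1).resolve_left ?_
      have : (i : ℚ) < w := by exact_mod_cast (by omega : i < w)
      linarith
  have hup : ∀ i, i ≤ w → (∀ j ∈ J, i < j) → G w C φ i = 0 := by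
    intro i
    have fin : ∀ i, i ≤ w → (∀ j ∈ J, i < j) → Dop α (G w C φ i) = 0 → G w C φ i = 0 := by
      intro i hi hj hD
      have h1 := hdown (w - i) i (by omega)
      rw [Pr_of_M (by rw [M_apply, hD, map_zero])] at h1
      refine (smul_eq_zero.1 h1).resolve_left (prod_ne_zero_iff.2 fun j hjJ => ?_)
      have a1 : (i : ℚ) < j := by exact_mod_cast hj j hjJ
      have a2 : (j : ℚ) ≤ w := by exact_mod_cast hJ j hjJ
      have a3 : 2 * (w : ℚ) ≤ Fintype.card α := by exact_mod_cast hw
      unfold mu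
      refine neg_ne_zero.2 (mul_ne_zero ?_ ?_)
      · linarith
      · linarith
    induction i with
    | zero => exact fun hi hj => fin 0 hi hj (G_supp w C φ 0).D0
    | succ i ih =>
      intro hi hj
      refine fin (i + 1) hi hj ?_
      rw [D_G hC φ (by omega) (by omega), ih (by omega) (fun j h => by have := hj j h; omega),
        smul_zero]
  intro i hi hj S hS
  have := congrFun (hup i hi hj) S
  simp only [G, if_pos hS, Pi.zero_apply] at this
  linarith

end Pool.Agent.MP_089fcb_co.H7.Spec1
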