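import Pool.Agent.MP_089fcb_co.H7.Defs

/-! Ball polynomials: action on codes, degree, special value and positivity. -/

open Finset Polynomial

namespace Pool.Agent.MP_089fcb_co.H7.Spec2

variable {α : Type} [Fintype α] [DecidableEq α]

/-- Radial function around `c` on level `w`. -/
def rad (w : ℕ) (c : Finset α) (φ : ℕ → ℚ) : Finset α → ℚ :=
  fun Y => if Y.card = w then φ (Y \ c).card else 0

lemma D_rad {w w' : ℕ} {c : Finset α} (hc : c.card = w) (hn : Fintype.card α = w + w')
    (φ : ℕ → ℚ) (Y : Finset α) (hY : Y.card + 1 = w) :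
    Dop α (rad w c φ) Y = ((w' : ℚ) - (Y \ c).card) * φ ((Y \ c).card + 1) +
      (((Y \ c).card : ℚ) + 1) * φ (Y \ c).card := by
  change ∑ b ∈ Yᶜ, rad w c φ (insert b Y) = _
  rw [← sum_filter_add_sum_filter_not _ (fun b => b ∉ c)]
  have e1 : ∀ b ∈ Yᶜ.filter (fun b => b ∉ c), rad w c φ (insert b Y) = φ ((Y \ c).card + 1) := by
    intro b hb
    simp only [mem_filter, mem_compl] at hb
    simp only [rad, card_insert_of_notMem hb.1, hY, if_true]
    rw [insert_sdiff_of_notMem _ hb.2, card_insert_of_notMem (by simp [hb.1])]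
  have e2 : ∀ b ∈ Yᶜ.filter (fun b => ¬ b ∉ c), rad w c φ (insert b Y) = φ (Y \ c).card := by
    intro b hb
    simp only [mem_filter, mem_compl, not_not] at hb
    simp only [rad, card_insert_of_notMem hb.1, hY, if_true]
    rw [insert_sdiff_of_mem _ hb.2]
  rw [sum_congr rfl e1, sum_congr rfl e2, sum_const, sum_const, nsmul_eq_mul, nsmul_eq_mul]
  have c1 : Yᶜ.filter (fun b => b ∉ c) = (Y ∪ c)ᶜ := by ext; simp
  have c2 : Yᶜ.filter (fun b => ¬ b ∉ c) = c \ Y := by ext; simp [and_comm]
  have k1 := card_sdiff_add_card Y c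
  have k2 := card_sdiff_add_card c Y
  rw [union_comm] at k2
  have k3 := card_add_card_compl (Y ∪ c)
  have q1 : (((Y ∪ c)ᶜ.card : ℕ) : ℚ) = w' - (Y \ c).card := by
    have : (Y ∪ c)ᶜ.card + (Y \ c).card = w' := by omega
    rw [← this]; push_cast; ring
  have q2 : (((c \ Y).card : ℕ) : ℚ) = (Y \ c).card + 1 := by
    have : (c \ Y).card = (Y \ c).card + 1 := by omega
    rw [this]; push_cast; ring
  rw [c1, c2, q1, q2]

lemma M_rad {w w' : ℕ} {c : Finset α} (hc : c.card = w) (hn : Fintype.card α = w + w')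
    (φ : ℕ → ℚ) : Mop α (rad w c φ) = rad w c fun t => (t : ℚ) ^ 2 * φ (t - 1) +
      (t * ((w' : ℚ) - t + 1) + ((w : ℚ) - t) * (t + 1)) * φ t +
      ((w : ℚ) - t) * ((w' : ℚ) - t) * φ (t + 1) := by
  funext X
  change ∑ a ∈ X, Dop α (rad w c φ) (X.erase a) = _
  by_cases hX : X.card = w
  · simp only [rad, hX, if_true]
    rw [← sum_filter_add_sum_filter_not _ (fun a => a ∉ c)]
    set t := (X \ c).card with ht
    have e1 : ∀ a ∈ X.filter (fun a => a ∉ c), Dop α (rad w c φ) (X.erase a) =
        ((w' : ℚ) - t + 1) * φ t + t * φ (t - 1) := by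
      intro a ha
      simp only [mem_filter] at ha
      have h1 : ((X.erase a) \ c).card + 1 = t := by
        rw [erase_sdiff_comm, card_erase_add_one (by simp [ha.1, ha.2])]
      rw [D_rad hc hn φ _ (by rw [card_erase_add_one ha.1, hX]), ← h1]
      simp only [Nat.add_sub_cancel]
      push_cast; ring
    have e2 : ∀ a ∈ X.filter (fun a => ¬ a ∉ c), Dop α (rad w c φ) (X.erase a) =
        ((w' : ℚ) - t) * φ (t + 1) + (t + 1) * φ t := by
      intro a ha
      simp only [mem_filter, not_not] at ha
      have h1 : ((X.erase a) \ c).card = t := by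
        rw [erase_sdiff_comm, erase_eq_of_notMem (by simp [ha.2])]
      rw [D_rad hc hn φ _ (by rw [card_erase_add_one ha.1, hX]), h1]
    change ∑ a ∈ X.filter (fun a => a ∉ c), Dop α (rad w c φ) (X.erase a) +
      ∑ a ∈ X.filter (fun a => ¬ a ∉ c), Dop α (rad w c φ) (X.erase a) = _
    rw [sum_congr rfl e1, sum_congr rfl e2, sum_const, sum_const, nsmul_eq_mul, nsmul_eq_mul]
    have c1 : X.filter (fun a => a ∉ c) = X \ c := by ext; simp
    have c2 : X.filter (fun a => ¬ a ∉ c) = X ∩ c := by ext; simp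
    have k := card_sdiff_add_card_inter X c
    have q : (((X ∩ c).card : ℕ) : ℚ) = w - t := by
      rw [← hX, ← k]; push_cast; ring
    rw [c1, c2, q, ← ht]
    ring
  · simp only [rad, hX, if_false]
    refine sum_eq_zero fun a ha => ?_
    change ∑ b ∈ (X.erase a)ᶜ, rad w c φ (insert b (X.erase a)) = 0
    refine sum_eq_zero fun b hb => ?_
    rw [mem_compl] at hb
    simp only [rad, card_insert_of_notMem hb, card_erase_add_one ha, hX, if_false]

lemma aeval_rad {w w' : ℕ} {c : Finset α} (hc : c.card = w) (hn : Fintype.card α = w + w')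
    (i : ℕ) :
    aeval (Mop α) (SpAux w w' i).1 (rad w c fun t => if t ≤ 0 then 1 else 0) =
      (rad w c fun t => if t + 1 ≤ i then 1 else 0) ∧
    aeval (Mop α) (SpAux w w' i).2 (rad w c fun t => if t ≤ 0 then 1 else 0) =
      (rad w c fun t => if t ≤ i then 1 else 0) := by
  induction i with
  | zero =>
    constructor
    · funext X; simp [SpAux, rad]
    · simp [SpAux]
  | succ i ih =>
    constructor
    · simp only [SpAux, ih.2, Nat.add_le_add_iff_right]
    · simp only [SpAux, map_mul, map_sub, aeval_C, aeval_X, Module.End.mul_apply,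
        LinearMap.sub_apply, ih.1, ih.2, Module.algebraMap_end_apply, M_rad hc hn]
      funext X
      simp only [rad, Pi.smul_apply, Pi.sub_apply, smul_eq_mul]
      by_cases hX : X.card = w
      · simp only [hX, if_true]
        generalize (X \ c).card = t
        have hi : ((i : ℚ) + 1) ^ 2 ≠ 0 := by positivity
        rcases lt_trichotomy t i with h | h | h
        · rw [if_pos (by omega), if_pos (by omega), if_pos (by omega), if_pos (by omega)]
          field_simp; ring
        · subst h
          rw [if_pos (by omega), if_pos (by omega), if_neg (by omega), if_pos (by omega)]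
          field_simp; ring
        · rcases Nat.lt_or_ge (i + 1) t with h' | h'
          · rw [if_neg (by omega), if_neg (by omega), if_neg (by omega), if_neg (by omega)]
            ring
          · obtain rfl : t = i + 1 := by omega
            rw [if_pos (by omega), if_neg (by omega), if_neg (by omega), if_pos (by omega)]
            push_cast
            field_simp; ring
      · simp [hX]

theorem ball : BallStmt := by
  intro α _ _ w w' C hC hn i X
  have e : ind C = ∑ c ∈ C, rad w c fun t => if t ≤ 0 then 1 else 0 := by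
    funext Y
    rw [Finset.sum_apply]
    have : ∀ c ∈ C, rad w c (fun t => if t ≤ 0 then 1 else 0) Y = if c = Y then (1 : ℚ) else 0 := by
      intro c hc
      simp only [rad, Nat.le_zero, card_eq_zero, sdiff_eq_empty_iff_subset]
      by_cases h : c = Y
      · subst h; simp [hC c hc]
      · rw [if_neg h]
        split_ifs with h1 h2
        · exact absurd (eq_of_subset_of_card_le h2 (by rw [h1, hC c hc])).symm h
        · rfl
        · rfl
    rw [sum_congr rfl this, sum_ite_eq']
    rfl
  rw [e, map_sum, Finset.sum_apply, Sp,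
    sum_congr rfl fun c hc => congrFun (aeval_rad (hC c hc) hn i).2 X]
  by_cases hX : X.card = w
  · simp [rad, hX]
  · simp [rad, hX]

lemma deg (w w' i : ℕ) : (SpAux w w' i).1.natDegree ≤ i ∧ (SpAux w w' i).2.natDegree ≤ i ∧
    (SpAux w w' i).2.coeff i = 1 / ((i.factorial : ℚ)) ^ 2 := by
  induction i with
  | zero => simp [SpAux]
  | succ i ih =>
    obtain ⟨h1, h2, h3⟩ := ih
    refine ⟨h2.trans (Nat.le_succ _), ?_, ?_⟩
    · simp only [SpAux]
      refine (natDegree_C_mul_le _ _).trans ((natDegree_sub_le _ _).trans (max_le ?_ ?_))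
      · refine natDegree_mul_le.trans ?_
        rw [natDegree_X_sub_C]; omega
      · exact (natDegree_C_mul_le _ _).trans (by omega)
    · simp only [SpAux]
      rw [coeff_C_mul, coeff_sub, sub_mul, coeff_sub, coeff_X_mul, coeff_C_mul, coeff_C_mul, h3,
        coeff_eq_zero_of_natDegree_lt (p := (SpAux w w' i).1) (by omega),
        coeff_eq_zero_of_natDegree_lt (p := (SpAux w w' i).2) (by omega), Nat.factorial_succ]
      push_cast
      have : (i.factorial : ℚ) ≠ 0 := by positivity
      field_simp
      ring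

lemma choose_step (w i : ℕ) :
    (w.choose (i + 1) : ℚ) * (i + 1) = w.choose i * ((w : ℚ) - i) := by
  rcases le_or_gt i w with h | h
  · have := Nat.choose_succ_right_eq w i
    rw [← Nat.cast_sub h]
    exact_mod_cast this
  · rw [Nat.choose_eq_zero_of_lt h, Nat.choose_eq_zero_of_lt (by omega)]; simp

lemma val (w w' i : ℕ) : (SpAux w w' i).2.eval ((w : ℚ) * (w' + 1)) = Phi w w' i ∧
    (SpAux w w' i).1.eval ((w : ℚ) * (w' + 1)) = Phi w w' i - w.choose i * w'.choose i := by
  induction i with
  | zero => simp [SpAux, Phi]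
  | succ i ih =>
    have e : (Phi w w' (i + 1) : ℚ) = Phi w w' i + w.choose (i + 1) * w'.choose (i + 1) := by
      simp only [Phi, sum_range_succ _ (i + 1)]; push_cast; ring
    constructor
    · simp only [SpAux, eval_mul, eval_sub, eval_C, eval_X, ih.1, ih.2, e]
      have hi : ((i : ℚ) + 1) ≠ 0 := by positivity
      have a1 : (w.choose (i + 1) : ℚ) = w.choose i * ((w : ℚ) - i) / (i + 1) := by
        rw [← choose_step]; field_simp
      have a2 : (w'.choose (i + 1) : ℚ) = w'.choose i * ((w' : ℚ) - i) / (i + 1) := by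
        rw [← choose_step]; field_simp
      rw [a1, a2]
      field_simp
      ring
    · simp only [SpAux, ih.1, e]; ring

lemma pos (w w' e : ℕ) (hw : 1 ≤ w) (he : e ≤ w) (t : ℚ)
    (ht : (2 * (e : ℚ) - 3 / 2) * (w + w') ≤ t - w) (i : ℕ) (hi : i ≤ e) :
    0 < (SpAux w w' i).2.eval t ∧ 0 ≤ (SpAux w w' i).1.eval t ∧
      ((w : ℚ) + w') / 2 * (SpAux w w' i).1.eval t ≤ i * (SpAux w w' i).2.eval t := by
  induction i with
  | zero => simp [SpAux]
  | succ i ih =>
    obtain ⟨h1, h2, h3⟩ := ih (by omega)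
    have hn : (0 : ℚ) < (w : ℚ) + w' := by positivity
    have hi0 : (0 : ℚ) ≤ i := by positivity
    have hie : (i : ℚ) + 1 ≤ e := by exact_mod_cast hi
    have hew : (e : ℚ) ≤ w := by exact_mod_cast he
    have hw' : (0 : ℚ) ≤ w' := by positivity
    have key : ((w : ℚ) + w') / 2 * (SpAux w w' i).2.eval t ≤
        ((i : ℚ) + 1) * (SpAux w w' (i + 1)).2.eval t := by
      simp only [SpAux, eval_mul, eval_sub, eval_C, eval_X]
      set a := (SpAux w w' i).2.eval t
      set b := (SpAux w w' i).1.eval t
      set n := (w : ℚ) + w' with hnn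
      have hb : ((w : ℚ) - i) * ((w' : ℚ) - i) ≤ n / 2 * (n / 2) := by
        nlinarith [sq_nonneg ((w : ℚ) - w'), mul_nonneg hi0 (show (0 : ℚ) ≤ n - i by linarith)]
      have hk : ((i : ℚ) + 1 / 2) * n ≤ t - ((w : ℚ) * (w' + 1) - ((w : ℚ) - i) * ((w' : ℚ) - i)
          - ((i : ℚ) + 1) ^ 2) := by
        nlinarith [mul_le_mul_of_nonneg_right hie hn.le]
      have b1 : ((w : ℚ) - i) * ((w' : ℚ) - i) * b ≤ n / 2 * (i * a) :=
        (mul_le_mul_of_nonneg_right hb h2).trans (by
          rw [mul_assoc]; exact mul_le_mul_of_nonneg_left h3 (by positivity))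
      have b2 := mul_le_mul_of_nonneg_right hk h1.le
      have hi1 : (0 : ℚ) < (i : ℚ) + 1 := by positivity
      rw [← mul_assoc, show ((i : ℚ) + 1) * (1 / ((i : ℚ) + 1) ^ 2) = 1 / ((i : ℚ) + 1) by
        field_simp, one_div_mul_eq_div, le_div_iff₀ hi1]
      nlinarith
    refine ⟨?_, h1.le, by push_cast; exact key⟩
    by_contra hc
    have : ((i : ℚ) + 1) * (SpAux w w' (i + 1)).2.eval t ≤ 0 :=
      mul_nonpos_of_nonneg_of_nonpos (by positivity) (not_lt.1 hc)
    have : 0 < ((w : ℚ) + w') / 2 * (SpAux w w' i).2.eval t := by positivity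
    linarith

theorem sp : SpStmt := by
  intro w w' e
  obtain ⟨-, h2, h3⟩ := deg w w' e
  have hd : (Sp w w' e).natDegree = e :=
    natDegree_eq_of_le_of_coeff_ne_zero h2 (by rw [Sp, h3]; positivity)
  refine ⟨hd, by rw [leadingCoeff, hd]; exact h3, (val w w' e).1, fun hw he _ t ht => ?_⟩
  exact (pos w w' e hw he t ht e le_rfl).1

end Pool.Agent.MP_089fcb_co.H7.Spec2
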