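import Pool.Agent.MP_089fcb_co.H7.Defs

set_option autoImplicit false

open Finset

namespace Pool.Agent.MP_089fcb_co.H7.Steiner

open Pool.Agent.MP_089fcb_co.H7

variable {α : Type} [Fintype α] [DecidableEq α]

/-- Splitting a difference along a subset. -/
theorem card_sdiff_split {A c d : Finset α} (h : A ⊆ c) :
    (c \ d).card = (A \ d).card + ((c \ A) \ d).card := by
  rw [← card_union_of_disjoint]
  · congr 1
    ext x
    simp only [mem_sdiff, mem_union]
    constructor
    · rintro ⟨h1, h2⟩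
      by_cases hx : x ∈ A
      · exact Or.inl ⟨hx, h2⟩
      · exact Or.inr ⟨⟨h1, hx⟩, h2⟩
    · rintro (⟨h1, h2⟩ | ⟨⟨h1, _⟩, h2⟩)
      · exact ⟨h h1, h2⟩
      · exact ⟨h1, h2⟩
  · rw [disjoint_left]
    intro x hx hy
    simp only [mem_sdiff] at hx hy
    exact hy.1.2 hx.1

theorem card_union_sdiff {P Q d : Finset α} (h : Disjoint P Q) :
    ((P ∪ Q) \ d).card = (P \ d).card + (Q \ d).card := by
  rw [union_sdiff_distrib, card_union_of_disjoint]
  exact h.mono sdiff_subset sdiff_subset

theorem disj_swap {A B c : Finset α} (hB : Disjoint B c) : Disjoint (c \ A) B :=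
  (hB.mono_right sdiff_subset).symm

theorem card_swap {A B c : Finset α} (hA : A ⊆ c) (hB : Disjoint B c) :
    ((c \ A) ∪ B).card + A.card = c.card + B.card := by
  rw [card_union_of_disjoint (disj_swap hB), card_sdiff_of_subset hA]
  have := card_le_card hA
  omega

theorem swap_sdiff_self {A B c : Finset α} (hB : Disjoint B c) :
    (((c \ A) ∪ B) \ c).card = B.card := by
  rw [card_union_sdiff (disj_swap hB), sdiff_eq_self_of_disjoint hB]
  have : (c \ A) \ c = ∅ := sdiff_eq_empty_iff_subset.mpr sdiff_subset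
  rw [this]
  simp

/-- Distinct codewords are far apart. -/
theorem far {w e : ℕ} {C : Finset (Finset α)} (hC : IsPerf w e C) {c d : Finset α}
    (hc : c ∈ C) (hd : d ∈ C) (hne : c ≠ d) : 2 * e + 1 ≤ (c \ d).card := by
  by_contra hlt
  have hcd : (c \ d).card = (d \ c).card :=
    card_sdiff_comm (by rw [hC.1 c hc, hC.1 d hd])
  obtain ⟨A, hA, hAc⟩ := exists_subset_card_eq (s := c \ d) (n := min e (c \ d).card)
    (min_le_right _ _)
  obtain ⟨B, hB, hBc⟩ := exists_subset_card_eq (s := d \ c) (n := min e (c \ d).card)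
    (by rw [← hcd]; exact min_le_right _ _)
  have hA' : A ⊆ c := hA.trans sdiff_subset
  have hB' : Disjoint B c := Disjoint.mono_left hB sdiff_disjoint
  have hX : ((c \ A) ∪ B).card = w := by
    have := card_swap hA' hB'
    rw [hC.1 c hc] at this
    omega
  obtain ⟨x, -, hx⟩ := hC.2 _ hX
  have h1 : c = x := hx c ⟨hc, by rw [swap_sdiff_self hB', hBc]; exact min_le_left _ _⟩
  have h2 : d = x := by
    refine hx d ⟨hd, ?_⟩
    rw [card_union_sdiff (disj_swap hB')]
    have e1 : B \ d = ∅ := sdiff_eq_empty_iff_subset.mpr (hB.trans sdiff_subset)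
    have e2 := card_sdiff_split (d := d) hA'
    have e3 : A \ d = A := sdiff_eq_self_of_disjoint (Disjoint.mono_left hA sdiff_disjoint)
    rw [e3, hAc] at e2
    rw [e1, card_empty]
    omega
  exact hne (h1.trans h2.symm)

/-- Codewords at the least distance from `c`, avoiding `A` and containing `B`. -/
def G (e : ℕ) (C : Finset (Finset α)) (c A B : Finset α) : Finset (Finset α) :=
  C.filter (fun d => Disjoint A d ∧ B ⊆ d ∧ (c \ d).card = 2 * e + 1)

theorem mem_G {e : ℕ} {C : Finset (Finset α)} {c A B d : Finset α} :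
    d ∈ G e C c A B ↔ d ∈ C ∧ Disjoint A d ∧ B ⊆ d ∧ (c \ d).card = 2 * e + 1 := by
  simp [G]

theorem ds {w e : ℕ} {C : Finset (Finset α)} (hC : IsPerf w e C) {c A B : Finset α}
    (hc : c ∈ C) (hA : A ⊆ c) (hB : Disjoint B c) (hAc : A.card = e + 1)
    (hBc : B.card = e + 1) : (G e C c A B).card = 1 := by
  have hX : ((c \ A) ∪ B).card = w := by
    have := card_swap hA hB
    rw [hC.1 c hc] at this
    omega
  obtain ⟨x, ⟨hx1, hx2⟩, hx⟩ := hC.2 _ hX
  rw [card_eq_one]
  refine ⟨x, ?_⟩
  ext d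
  rw [mem_G, mem_singleton]
  constructor
  · rintro ⟨hd, h1, h2, h3⟩
    refine hx d ⟨hd, ?_⟩
    rw [card_union_sdiff (disj_swap hB)]
    have e1 : B \ d = ∅ := sdiff_eq_empty_iff_subset.mpr h2
    have e2 := card_sdiff_split (d := d) hA
    rw [sdiff_eq_self_of_disjoint h1, hAc] at e2
    rw [e1, card_empty]
    omega
  · rintro rfl
    have hne : c ≠ d := by
      rintro rfl
      rw [swap_sdiff_self hB] at hx2
      omega
    have hf := far hC hc hx1 hne
    rw [card_union_sdiff (disj_swap hB)] at hx2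
    have e2 := card_sdiff_split (d := d) hA
    have e3 : (A \ d).card ≤ A.card := card_le_card sdiff_subset
    have e4 : A \ d = A := eq_of_subset_of_card_le sdiff_subset (by omega)
    have e5 : B \ d = ∅ := card_eq_zero.mp (by omega)
    exact ⟨hx1, Finset.sdiff_eq_self_iff_disjoint.mp e4, sdiff_eq_empty_iff_subset.mp e5,
      by omega⟩

theorem cnt_left {e m : ℕ} {C : Finset (Finset α)} {c A B : Finset α} (hA : A ⊆ c)
    (hm : ∀ z ∈ c \ A, (G e C c (insert z A) B).card = m) :
    (c \ A).card * m = (G e C c A B).card * (2 * e + 1 - A.card) := by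
  refine card_mul_eq_card_mul (fun (z : α) (d : Finset α) => z ∉ d) ?_ ?_
  · intro z hz
    rw [← hm z hz]
    congr 1
    ext d
    simp only [mem_bipartiteAbove, mem_G, disjoint_insert_left]
    tauto
  · intro d hd
    obtain ⟨-, h1, -, h3⟩ := mem_G.mp hd
    have e2 := card_sdiff_split (d := d) hA
    rw [sdiff_eq_self_of_disjoint h1] at e2
    have e1 : (c \ A).bipartiteBelow (fun (z : α) (d : Finset α) => z ∉ d) d = (c \ A) \ d := by
      ext z
      simp only [mem_bipartiteBelow, mem_sdiff]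
    rw [e1]
    omega

theorem cnt_right {w e m : ℕ} {C : Finset (Finset α)} (hC : IsPerf w e C) {c A B : Finset α}
    (hc : c ∈ C) (hB : Disjoint B c)
    (hm : ∀ z ∈ cᶜ \ B, (G e C c A (insert z B)).card = m) :
    (cᶜ \ B).card * m = (G e C c A B).card * (2 * e + 1 - B.card) := by
  refine card_mul_eq_card_mul (fun (z : α) (d : Finset α) => z ∈ d) ?_ ?_
  · intro z hz
    rw [← hm z hz]
    congr 1
    ext d
    simp only [mem_bipartiteAbove, mem_G, insert_subset_iff]
    tauto
  · intro d hd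
    obtain ⟨h0, -, h2, h3⟩ := mem_G.mp hd
    have hcd : (c \ d).card = (d \ c).card :=
      card_sdiff_comm (by rw [hC.1 c hc, hC.1 d h0])
    have e2 := card_sdiff_split (d := c) h2
    rw [sdiff_eq_self_of_disjoint hB] at e2
    have e1 : (cᶜ \ B).bipartiteBelow (fun (z : α) (d : Finset α) => z ∈ d) d = (d \ B) \ c := by
      ext z
      simp only [mem_bipartiteBelow, mem_sdiff, mem_compl]
      tauto
    rw [e1]
    omega

/-- The number of blocks through an `e`-set. -/
theorem a2 {w e : ℕ} {C : Finset (Finset α)} (hC : IsPerf w e C) {c A B : Finset α}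
    (hc : c ∈ C) (hA : A ⊆ c) (hB : Disjoint B c) (hAc : A.card = e)
    (hBc : B.card = e + 1) : (G e C c A B).card * (e + 1) + e = w := by
  have h := cnt_left (e := e) (m := 1) (C := C) (B := B) hA (fun z hz =>
    ds hC hc (insert_subset (mem_sdiff.mp hz).1 hA) hB
      (by rw [card_insert_of_notMem (mem_sdiff.mp hz).2, hAc]) hBc)
  rw [card_sdiff_of_subset hA, hC.1 c hc, hAc] at h
  have h2 := card_le_card hA
  rw [hC.1 c hc, hAc] at h2
  have h3 : 2 * e + 1 - e = e + 1 := by omega
  rw [h3] at h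
  omega

theorem a2' {w w' e : ℕ} {C : Finset (Finset α)} (hC : IsPerf w e C)
    (hn : Fintype.card α = w + w') {c A B : Finset α}
    (hc : c ∈ C) (hA : A ⊆ c) (hB : Disjoint B c) (hAc : A.card = e + 1)
    (hBc : B.card = e) : (G e C c A B).card * (e + 1) + e = w' := by
  have h := cnt_right (m := 1) (A := A) hC hc hB (fun z hz =>
    ds hC hc hA (by
        rw [disjoint_insert_left]
        exact ⟨mem_compl.mp (mem_sdiff.mp hz).1, hB⟩)
      hAc (by rw [card_insert_of_notMem (mem_sdiff.mp hz).2, hBc]))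
  have hB' : B ⊆ cᶜ := subset_compl_iff_disjoint_right.mpr hB
  have h2 := card_le_card hB'
  rw [card_sdiff_of_subset hB'] at h
  rw [card_compl, hC.1 c hc, hBc, hn] at h h2
  have h3 : 2 * e + 1 - e = e + 1 := by omega
  rw [h3] at h
  omega

/-- A point of `c` outside `A` is missed by at most one block. -/
theorem miss_le {w e : ℕ} {C : Finset (Finset α)} (hC : IsPerf w e C) {c A B : Finset α}
    (hc : c ∈ C) (hA : A ⊆ c) (hB : Disjoint B c) (hAc : A.card = e + 1)
    (hBc : B.card = e) {z : α} (hz : z ∈ c \ A) : (G e C c (insert z A) B).card ≤ 1 := by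
  rw [card_le_one]
  intro d hd f hf
  by_contra hne
  obtain ⟨d0, d1, d2, d3⟩ := mem_G.mp hd
  obtain ⟨f0, f1, f2, f3⟩ := mem_G.mp hf
  have hfar := far hC d0 f0 hne
  have hA' : insert z A ⊆ c := insert_subset (mem_sdiff.mp hz).1 hA
  have hAc' : (insert z A).card = e + 2 := by
    rw [card_insert_of_notMem (mem_sdiff.mp hz).2, hAc]
  have hcd : (c \ d).card = (d \ c).card :=
    card_sdiff_comm (by rw [hC.1 c hc, hC.1 d d0])
  have e1 := card_sdiff_split (d := f) hA'
  rw [sdiff_eq_self_of_disjoint f1] at e1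
  have e2 := card_sdiff_split (d := c) d2
  rw [sdiff_eq_self_of_disjoint hB] at e2
  have hsub : d \ f ⊆ ((c \ insert z A) \ f) ∪ ((d \ B) \ c) := by
    intro x hx
    obtain ⟨x1, x2⟩ := mem_sdiff.mp hx
    by_cases hxc : x ∈ c
    · exact mem_union_left _ (mem_sdiff.mpr ⟨mem_sdiff.mpr
        ⟨hxc, fun h => disjoint_left.mp d1 h x1⟩, x2⟩)
    · exact mem_union_right _ (mem_sdiff.mpr ⟨mem_sdiff.mpr ⟨x1, fun h => x2 (f2 h)⟩, hxc⟩)
  have e3 := (card_le_card hsub).trans (card_union_le _ _)
  omega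

/-- Double counting for the Roos bound, on any set of points missed by some block. -/
theorem roos_aux {w e : ℕ} {C : Finset (Finset α)} (hC : IsPerf w e C) {c A B : Finset α}
    (hc : c ∈ C) (hA : A ⊆ c) (hB : Disjoint B c) (hAc : A.card = e + 1)
    (hBc : B.card = e) :
    (G e C c A B).card * e = ((c \ A).filter (fun z => (G e C c (insert z A) B).card = 1)).card := by
  have h := sum_card_bipartiteAbove_eq_sum_card_bipartiteBelow
    (s := c \ A) (t := G e C c A B) (fun (z : α) (d : Finset α) => z ∉ d)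
  have h1 : ∀ d ∈ G e C c A B,
      ((c \ A).bipartiteBelow (fun (z : α) (d : Finset α) => z ∉ d) d).card = e := by
    intro d hd
    obtain ⟨-, h1, -, h3⟩ := mem_G.mp hd
    have e2 := card_sdiff_split (d := d) hA
    rw [sdiff_eq_self_of_disjoint h1] at e2
    have e1 : (c \ A).bipartiteBelow (fun (z : α) (d : Finset α) => z ∉ d) d = (c \ A) \ d := by
      ext z
      simp only [mem_bipartiteBelow, mem_sdiff]
    rw [e1]
    omega
  have h2 : ∀ z ∈ c \ A,
      ((G e C c A B).bipartiteAbove (fun (z : α) (d : Finset α) => z ∉ d) z).card =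
        if (G e C c (insert z A) B).card = 1 then 1 else 0 := by
    intro z hz
    have e1 : (G e C c A B).bipartiteAbove (fun (z : α) (d : Finset α) => z ∉ d) z =
        G e C c (insert z A) B := by
      ext d
      simp only [mem_bipartiteAbove, mem_G, disjoint_insert_left]
      tauto
    rw [e1]
    have := miss_le hC hc hA hB hAc hBc hz
    split_ifs <;> omega
  rw [sum_congr rfl h1, sum_congr rfl h2, sum_const, smul_eq_mul] at h
  rw [← h, card_filter]

theorem sizes {w w' e : ℕ} {C : Finset (Finset α)} (hC : IsPerf w e C)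
    (hn : Fintype.card α = w + w') (h2 : 2 ≤ C.card) :
    ∃ c ∈ C, 2 * e + 1 ≤ c.card ∧ 2 * e + 1 ≤ cᶜ.card := by
  obtain ⟨c, hc, d, hd, hne⟩ := one_lt_card.mp h2
  refine ⟨c, hc, (far hC hc hd hne).trans (card_le_card sdiff_subset),
    (far hC hd hc hne.symm).trans (card_le_card ?_)⟩
  intro x hx
  exact mem_compl.mpr (mem_sdiff.mp hx).2

theorem pick_out {c : Finset α} {k : ℕ} (h : k ≤ cᶜ.card) :
    ∃ B : Finset α, Disjoint B c ∧ B.card = k := by
  obtain ⟨B, hB, hBc⟩ := exists_subset_card_eq h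
  exact ⟨B, subset_compl_iff_disjoint_right.mp hB, hBc⟩

theorem roos {w w' e : ℕ} {C : Finset (Finset α)} (hC : IsPerf w e C)
    (hn : Fintype.card α = w + w') (h2 : 2 ≤ C.card) :
    e * w' + 2 * e + 1 ≤ (e + 1) * w := by
  obtain ⟨c, hc, s1, s2⟩ := sizes hC hn h2
  obtain ⟨A, hA, hAc⟩ := exists_subset_card_eq (s := c) (n := e + 1) (by omega)
  obtain ⟨B, hB, hBc⟩ := pick_out (c := c) (k := e) (by omega)
  have h1 := a2' hC hn hc hA hB hAc hBc
  have h3 := roos_aux hC hc hA hB hAc hBc
  have h4 := card_filter_le (c \ A) (fun z => (G e C c (insert z A) B).card = 1)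
  rw [← h3, card_sdiff_of_subset hA, hAc, hC.1 c hc] at h4
  rw [hC.1 c hc] at s1
  obtain ⟨u, rfl⟩ : ∃ u, w = u + (e + 1) := ⟨w - (e + 1), by omega⟩
  rw [Nat.add_sub_cancel] at h4
  rw [← h1]
  nlinarith [Nat.mul_le_mul_left (e + 1) h4]

theorem dvd_left {w w' e : ℕ} {C : Finset (Finset α)} (hC : IsPerf w e C)
    (hn : Fintype.card α = w + w') (h2 : 2 ≤ C.card) : (e + 1) ∣ (w + 1) := by
  obtain ⟨c, hc, s1, s2⟩ := sizes hC hn h2
  obtain ⟨A, hA, hAc⟩ := exists_subset_card_eq (s := c) (n := e) (by omega)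
  obtain ⟨B, hB, hBc⟩ := pick_out (c := c) (k := e + 1) (by omega)
  have h1 := a2 hC hc hA hB hAc hBc
  exact ⟨(G e C c A B).card + 1, by rw [← h1]; ring⟩

theorem fisher {w w' e : ℕ} {C : Finset (Finset α)} (hC : IsPerf w e C)
    (hn : Fintype.card α = w + w') (he : 1 ≤ e) (h2 : 2 ≤ C.card) (hw : 2 * e + 1 < w) :
    e ^ 2 + 4 * e + 2 ≤ w := by
  obtain ⟨c, hc, s1, s2⟩ := sizes hC hn h2
  obtain ⟨A, hA, hAc⟩ := exists_subset_card_eq (s := c) (n := e + 1) (by omega)
  obtain ⟨B, hB, hBc⟩ := pick_out (c := c) (k := e + 1) (by omega)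
  obtain ⟨c1, hc1⟩ := card_eq_one.mp (ds hC hc hA hB hAc hBc)
  obtain ⟨p0, p1, p2, p3⟩ := mem_G.mp (hc1 ▸ mem_singleton_self c1 : c1 ∈ G e C c A B)
  obtain ⟨A2, hA2, hA2c⟩ := exists_subset_card_eq (s := A) (n := e - 1) (by omega)
  have hA2c' : A2 ⊆ c := hA2.trans hA
  have hd2 : Disjoint A2 c1 := p1.mono_left hA2
  obtain ⟨z, hz⟩ : (c ∩ c1).Nonempty := by
    rw [← card_pos]
    have := card_sdiff_add_card_inter c c1
    rw [hC.1 c hc] at this
    omega
  obtain ⟨z1, z2⟩ := mem_inter.mp hz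
  have z3 : z ∉ A2 := fun h => disjoint_left.mp hd2 h z2
  have hA1 : insert z A2 ⊆ c := insert_subset z1 hA2c'
  have hA1c : (insert z A2).card = e := by
    rw [card_insert_of_notMem z3, hA2c]
    omega
  have h1 := a2 hC hc hA1 hB hA1c hBc
  have hβ : ((c \ A2) \ c1).card = e + 2 := by
    have e2 := card_sdiff_split (d := c1) hA2c'
    rw [sdiff_eq_self_of_disjoint hd2] at e2
    omega
  have h3 : ((c \ A2) \ c1).card * 1 ≤ (G e C c (insert z A2) B).card * 1 := by
    refine card_mul_le_card_mul (fun (y : α) (d : Finset α) => y ∉ d) ?_ ?_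
    · intro y hy
      obtain ⟨y1, y2⟩ := mem_sdiff.mp hy
      obtain ⟨y3, y4⟩ := mem_sdiff.mp y1
      have y5 : y ∉ insert z A2 := by
        rw [mem_insert]
        rintro (rfl | h)
        · exact y2 z2
        · exact y4 h
      have := ds hC hc (insert_subset y3 hA1) hB
        (by rw [card_insert_of_notMem y5, hA1c]) hBc
      rw [← this]
      apply card_le_card
      intro d hd
      simp only [mem_bipartiteAbove, mem_G, disjoint_insert_left] at hd ⊢
      tauto
    · intro d hd
      obtain ⟨d0, d1, d2, d3⟩ := mem_G.mp hd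
      rw [card_le_one]
      intro x hx y hy
      by_contra hne
      simp only [mem_bipartiteBelow, mem_sdiff] at hx hy
      have hxy : x ∉ insert y A2 := by
        rw [mem_insert]
        rintro (h | h)
        · exact hne h
        · exact hx.1.1.2 h
      have hone := ds hC hc (A := insert x (insert y A2)) (B := B)
        (insert_subset hx.1.1.1 (insert_subset hy.1.1.1 hA2c')) hB
        (by rw [card_insert_of_notMem hxy, card_insert_of_notMem hy.1.1.2, hA2c]; omega) hBc
      rw [disjoint_insert_left] at d1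
      have hdc : d = c1 := by
        refine card_le_one.mp hone.le d ?_ c1 ?_
        · rw [mem_G, disjoint_insert_left, disjoint_insert_left]
          exact ⟨d0, ⟨hx.2, hy.2, d1.2⟩, d2, d3⟩
        · rw [mem_G, disjoint_insert_left, disjoint_insert_left]
          exact ⟨p0, ⟨hx.1.2, hy.1.2, hd2⟩, p2, p3⟩
      exact d1.1 (hdc ▸ z2)
  rw [hβ, mul_one, mul_one] at h3
  rw [← h1]
  nlinarith [Nat.mul_le_mul_right (e + 1) h3]

theorem mod_four_left {w w' : ℕ} {C : Finset (Finset α)} (hC : IsPerf w 2 C)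
    (hn : Fintype.card α = w + w') (h2 : 2 ≤ C.card) : w % 4 = 1 ∨ w % 4 = 2 := by
  obtain ⟨c, hc, s1, s2⟩ := sizes hC hn h2
  obtain ⟨A, hA, hAc⟩ := exists_subset_card_eq (s := c) (n := 1) (by omega)
  obtain ⟨B, hB, hBc⟩ := pick_out (c := c) (k := 3) (by omega)
  have h := cnt_left (e := 2) (m := (w - 2) / 3) (C := C) (B := B) hA (fun z hz => by
    have := a2 hC hc (insert_subset (mem_sdiff.mp hz).1 hA) hB
      (by rw [card_insert_of_notMem (mem_sdiff.mp hz).2, hAc]) hBc
    omega)
  obtain ⟨k, hk⟩ := dvd_left hC hn h2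
  rw [card_sdiff_of_subset hA, hC.1 c hc, hAc] at h
  rw [hC.1 c hc] at s1
  obtain ⟨u, rfl⟩ : ∃ u, w = 3 * u + 2 := ⟨k - 1, by omega⟩
  have e1 : (3 * u + 2 - 2) / 3 = u := by omega
  have e2 : 3 * u + 2 - 1 = 3 * u + 1 := by omega
  rw [e1, e2] at h
  have e3 : ((3 * u + 1) * u) % 4 = 0 := by omega
  have e4 : u % 4 = 0 ∨ u % 4 = 1 ∨ u % 4 = 2 ∨ u % 4 = 3 := by omega
  rcases e4 with e4 | e4 | e4 | e4
  · omega
  · omega
  · simp [Nat.mul_mod, Nat.add_mod, e4] at e3
  · simp [Nat.mul_mod, Nat.add_mod, e4] at e3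

/-- Counting pairs outside a set of size `w - 2` that is far from the code. -/
theorem pairs {w w' e : ℕ} {C : Finset (Finset α)} (hC : IsPerf w e C)
    (hn : Fintype.card α = w + w') {T : Finset α} (hT : T.card + 2 = w)
    (hfar : ∀ d ∈ C, e ≤ (T \ d).card) :
    (w' + 2) * (w' + 2) - (w' + 2) =
      (C.filter (fun d => (T \ d).card = e)).card * ((e + 2) * (e + 2) - (e + 2)) := by
  have hTc : Tᶜ.card = w' + 2 := by
    rw [card_compl, hn]
    omega
  have h : (Tᶜ.offDiag).card * 1 =
      (C.filter (fun d => (T \ d).card = e)).card * ((e + 2) * (e + 2) - (e + 2)) := by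
    refine card_mul_eq_card_mul (fun (p : α × α) (d : Finset α) => p.1 ∈ d ∧ p.2 ∈ d) ?_ ?_
    · rintro ⟨x, y⟩ hp
      simp only [mem_offDiag, mem_compl] at hp
      obtain ⟨hx, hy, hxy⟩ := hp
      have hdis : Disjoint T {x, y} := by
        rw [disjoint_insert_right, disjoint_singleton_right]
        exact ⟨hx, hy⟩
      have hX : (T ∪ {x, y}).card = w := by
        rw [card_union_of_disjoint hdis, card_pair hxy, hT]
      obtain ⟨f, ⟨f0, f1⟩, hf⟩ := hC.2 _ hX
      rw [card_eq_one]
      refine ⟨f, ?_⟩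
      ext d
      simp only [mem_bipartiteAbove, mem_filter, mem_singleton]
      constructor
      · rintro ⟨⟨d0, d1⟩, d2, d3⟩
        refine hf d ⟨d0, ?_⟩
        rw [card_union_sdiff hdis, sdiff_eq_empty_iff_subset.mpr
          (insert_subset d2 (singleton_subset_iff.mpr d3)), card_empty]
        omega
      · rintro rfl
        rw [card_union_sdiff hdis] at f1
        have := hfar d f0
        have e5 : ({x, y} : Finset α) \ d = ∅ := card_eq_zero.mp (by omega)
        have e6 := sdiff_eq_empty_iff_subset.mp e5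
        exact ⟨⟨f0, by omega⟩, e6 (mem_insert_self _ _),
          e6 (mem_insert_of_mem (mem_singleton_self _))⟩
    · intro d hd
      obtain ⟨d0, d1⟩ := mem_filter.mp hd
      have e1 : (Tᶜ.offDiag).bipartiteBelow
          (fun (p : α × α) (d : Finset α) => p.1 ∈ d ∧ p.2 ∈ d) d = (d \ T).offDiag := by
        ext p
        simp only [mem_bipartiteBelow, mem_offDiag, mem_compl, mem_sdiff]
        tauto
      have e2 := card_sdiff_add_card_inter d T
      have e3 := card_sdiff_add_card_inter T d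
      rw [inter_comm] at e3
      rw [hC.1 d d0] at e2
      have e4 : (d \ T).card = e + 2 := by omega
      rw [e1, offDiag_card, e4]
  rw [offDiag_card, hTc, mul_one] at h
  exact h

theorem strict {w w' : ℕ} {C : Finset (Finset α)} (hC : IsPerf w 2 C)
    (hn : Fintype.card α = w + w') (h2 : 2 ≤ C.card) (hs : 2 * w' + 5 < 3 * w) :
    w' % 4 = 2 ∨ w' % 4 = 3 := by
  obtain ⟨c, hc, s1, s2⟩ := sizes hC hn h2
  obtain ⟨A, hA, hAc⟩ := exists_subset_card_eq (s := c) (n := 2 + 1) (by omega)
  obtain ⟨B, hB, hBc⟩ := pick_out (c := c) (k := 2) (by omega)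
  have h1 := a2' hC hn hc hA hB hAc hBc
  have h3 := roos_aux hC hc hA hB hAc hBc
  have hcw := hC.1 c hc
  have h4 : (c \ A).card + 3 = w := by
    rw [card_sdiff_of_subset hA]
    omega
  obtain ⟨z, hz, hz'⟩ : ∃ z ∈ c \ A, ¬ (G 2 C c (insert z A) B).card = 1 := by
    by_contra hcon
    push Not at hcon
    rw [filter_true_of_mem hcon] at h3
    omega
  have h5 := miss_le hC hc hA hB hAc hBc hz
  have h6 : G 2 C c (insert z A) B = ∅ := card_eq_zero.mp (by omega)
  have hA' : insert z A ⊆ c := insert_subset (mem_sdiff.mp hz).1 hA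
  have hAc' : (insert z A).card = 4 := by
    rw [card_insert_of_notMem (mem_sdiff.mp hz).2, hAc]
  have hT : ((c \ insert z A) ∪ B).card + 2 = w := by
    have := card_swap hA' hB
    omega
  have hp := pairs hC hn hT (fun d hd => by
    by_cases hcd : c = d
    · rw [← hcd, swap_sdiff_self hB, hBc]
    · by_contra hlt
      have hf := far hC hc hd hcd
      rw [card_union_sdiff (disj_swap hB)] at hlt
      have e2 := card_sdiff_split (d := d) hA'
      have e3 : (insert z A \ d).card ≤ (insert z A).card := card_le_card sdiff_subset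
      have e4 : insert z A \ d = insert z A := eq_of_subset_of_card_le sdiff_subset (by omega)
      have e5 : B \ d = ∅ := card_eq_zero.mp (by omega)
      have : d ∈ G 2 C c (insert z A) B := mem_G.mpr
        ⟨hd, Finset.sdiff_eq_self_iff_disjoint.mp e4, sdiff_eq_empty_iff_subset.mp e5, by omega⟩
      rw [h6] at this
      exact notMem_empty _ this)
  have e1 : (w' + 2) * (w' + 2) - (w' + 2) = (w' + 2) * (w' + 1) := by
    rw [show (w' + 2) * (w' + 2) = (w' + 2) * (w' + 1) + (w' + 2) by ring, Nat.add_sub_cancel]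
  rw [e1] at hp
  have e3 : ((w' + 2) * (w' + 1)) % 4 = 0 := by omega
  have e4 : w' % 4 = 0 ∨ w' % 4 = 1 ∨ w' % 4 = 2 ∨ w' % 4 = 3 := by omega
  rcases e4 with e4 | e4 | e4 | e4
  · simp [Nat.mul_mod, Nat.add_mod, e4] at e3
  · simp [Nat.mul_mod, Nat.add_mod, e4] at e3
  · omega
  · omega

theorem perf_compl {w w' e : ℕ} {C : Finset (Finset α)} (hC : IsPerf w e C)
    (hn : Fintype.card α = w + w') : IsPerf w' e (C.image compl) := by
  have key : ∀ X A : Finset α, X.card = w' → A.card = w → (X \ Aᶜ).card = (Xᶜ \ A).card := by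
    intro X A hX hA
    have e1 : X \ Aᶜ = A \ Xᶜ := by
      ext x
      simp only [mem_sdiff, mem_compl]
      tauto
    rw [e1]
    exact card_sdiff_comm (by rw [card_compl, hn, hX, hA]; omega)
  constructor
  · intro A hA
    obtain ⟨B, hB, rfl⟩ := mem_image.mp hA
    rw [card_compl, hn, hC.1 B hB]
    omega
  · intro X hX
    obtain ⟨A, ⟨hA, hA'⟩, hu⟩ := hC.2 Xᶜ (by rw [card_compl, hn, hX]; omega)
    refine ⟨Aᶜ, ⟨mem_image_of_mem _ hA, by rw [key X A hX (hC.1 A hA)]; exact hA'⟩, ?_⟩
    rintro B ⟨hB, hB'⟩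
    obtain ⟨D, hD, rfl⟩ := mem_image.mp hB
    rw [key X D hX (hC.1 D hD)] at hB'
    rw [hu D ⟨hD, hB'⟩]

theorem steiner : SteinerStmt := by
  intro α _ _ w w' e C hC hn he h2 hw
  have hC' := perf_compl hC hn
  have hn' : Fintype.card α = w' + w := by omega
  have h2' : 2 ≤ (C.image compl).card := by
    rw [card_image_of_injective _ compl_injective]
    exact h2
  have r1 := roos hC hn h2
  have r2 := roos hC' hn' h2'
  have hw' : 2 * e + 1 < w' := by
    by_contra hcon
    have a1 : (e + 1) * w' ≤ (e + 1) * (2 * e + 1) := Nat.mul_le_mul_left _ (by omega)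
    have a2 : e * (2 * e + 2) ≤ e * w := Nat.mul_le_mul_left _ (by omega)
    nlinarith
  refine ⟨dvd_left hC hn h2, dvd_left hC' hn' h2', fisher hC hn he h2 hw,
    fisher hC' hn' he h2' hw', r1, r2, ?_⟩
  rintro rfl
  have m1 := mod_four_left hC hn h2
  have m2 := mod_four_left hC' hn' h2'
  have s1 := strict hC hn h2
  have s2 := strict hC' hn' h2'
  omega

end Pool.Agent.MP_089fcb_co.H7.Steiner
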