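import Pool.Agent.MP_089fcb_co.H7.TwoLogA

/-! A lower bound for the distance of two powers: choice of the parameters. -/

set_option autoImplicit false

open Finset

namespace Pool.Agent.MP_089fcb_co.H7.TwoLog

lemma sq_le_pow (s : ℕ) : 153 * (11 + s) ^ 2 ≤ 20000 * 2 ^ s := by
  induction s with
  | zero => norm_num
  | succ s ih =>
    have : (11 + (s + 1)) ^ 2 ≤ 2 * (11 + s) ^ 2 := by nlinarith [Nat.zero_le (s * s)]
    rw [pow_succ 2 s]
    linarith

/-- The final numerical contradiction. -/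
lemma numeric {l s K L S W T X : ℝ} (hl : 0.6931 ≤ l) (hl' : l ≤ 0.6932) (hs : 0 ≤ s)
    (hL : L = 11 + s) (hK : 431 ≤ K) (hS0 : 0 ≤ S) (hS : S ≤ 0.296 * K) (hW : W ≤ 1.13 * (K * L))
    (hT : T + l ≤ 0.036 * K) (hX : X = (18 + s) * l)
    (h : 3 * l * (K * L * (K * L - 1) / 2) ≤ (L - 1) / 4 * S * W + K * L * T + K * L * l +
      L * (K * (K - 1) / 2) * X + L * K ^ 2 / 2 + K * L ^ 2 * S) : False := by
  have hL0 : 0 < L := by linarith
  have hK0 : 0 < K := by linarith
  have hD : 0 < K * L := by positivity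
  have t1 : (L - 1) / 4 * S * W ≤ (K * L) * K * ((10 + s) / 4 * (0.296 * 1.13)) := by
    have e1 : S * W ≤ (0.296 * K) * (1.13 * (K * L)) :=
      (mul_le_mul_of_nonneg_left hW hS0).trans (mul_le_mul_of_nonneg_right hS (by positivity))
    have e2 := mul_le_mul_of_nonneg_left e1 (show 0 ≤ (L - 1) / 4 by linarith)
    have e3 : (L - 1) / 4 = (10 + s) / 4 := by rw [hL]; ring
    rw [e3] at e2 ⊢
    linarith
  have t2 : K * L * T + K * L * l ≤ (K * L) * K * 0.036 := by
    have := mul_le_mul_of_nonneg_left hT hD.le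
    linarith
  have t4 : L * (K * (K - 1) / 2) * X ≤ (K * L) * K * ((18 + s) * 0.6932 / 2) := by
    have e1 : X ≤ (18 + s) * 0.6932 := by
      rw [hX]; exact mul_le_mul_of_nonneg_left hl' (by linarith)
    have e0 : 0 ≤ X := by rw [hX]; exact mul_nonneg (by linarith) (by linarith)
    have e2 : (K - 1) * X ≤ K * ((18 + s) * 0.6932) := mul_le_mul (by linarith) e1 e0 hK0.le
    have := mul_le_mul_of_nonneg_left e2 hD.le
    linarith
  have t6 : K * L ^ 2 * S ≤ (K * L) * K * (0.296 * (11 + s)) := by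
    have := mul_le_mul_of_nonneg_left hS (show 0 ≤ K * L ^ 2 by positivity)
    rw [← hL]
    linarith
  have t0 : (K * L) * K * (3 * 0.6931 * (11 + s - 0.003) / 2) ≤
      3 * l * (K * L * (K * L - 1) / 2) := by
    have e1 : K * (11 + s - 0.003) ≤ K * L - 1 := by rw [hL]; linarith
    have e0 : 0 ≤ K * (11 + s - 0.003) := mul_nonneg hK0.le (by linarith)
    have e2 : 0.6931 * (K * (11 + s - 0.003)) ≤ l * (K * L - 1) :=
      mul_le_mul hl e1 e0 (by linarith)
    have := mul_le_mul_of_nonneg_left e2 hD.le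
    linarith
  have hQ : 0 < (K * L) * K := by positivity
  have t5 : L * K ^ 2 / 2 = (K * L) * K * (1 / 2) := by ring
  have key : (10 + s) / 4 * (0.296 * 1.13) + 0.036 + (18 + s) * 0.6932 / 2 + 1 / 2 +
      0.296 * (11 + s) < 3 * 0.6931 * (11 + s - 0.003) / 2 := by linarith
  have := mul_lt_mul_of_pos_left key hQ
  linarith

theorem twoLog (h1 : DetStmt) (h2 : MajStmt) (h3 : ZeroStmt) : TwoLogStmt := by
  intro g G m a b hg hgG hm hab hb
  by_contra hcon
  have hcon' : ((m : ℝ) ^ b - (g : ℝ) ^ a) ^ 2 ≤ 2 ^ (G + 2) * (g : ℝ) ^ a := by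
    exact_mod_cast not_lt.1 hcon
  clear hcon
  have hl : (0.6931 : ℝ) ≤ Real.log 2 := by have := Real.log_two_gt_d9; linarith
  have hl' : Real.log 2 ≤ (0.6932 : ℝ) := by have := Real.log_two_lt_d9; linarith
  obtain ⟨G0, hG0, hG0G, hgG0, hG0g⟩ : ∃ G0, 1 ≤ G0 ∧ G0 ≤ G ∧ g ≤ 2 ^ G0 ∧ 2 ^ (G0 - 1) ≤ g :=
    ⟨Nat.clog 2 g, Nat.clog_pos (by norm_num) hg, (Nat.clog_le_iff_le_pow (by norm_num)).2 hgG,
      Nat.le_pow_clog (by norm_num) g, (Nat.pow_pred_clog_lt_self (by norm_num) hg).le⟩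
  have hgR : (2 : ℝ) ≤ g := by exact_mod_cast hg
  have hmR : (3 : ℝ) ≤ m := by exact_mod_cast hm
  have hG0R : (1 : ℝ) ≤ G0 := by exact_mod_cast hG0
  have hGR : (G0 : ℝ) ≤ G := by exact_mod_cast hG0G
  have hbG : 20000 * (G : ℝ) ≤ b := by exact_mod_cast hb
  have hbR : (0 : ℝ) < b := by linarith
  have hlg1 : Real.log g ≤ G0 * Real.log 2 := by
    rw [← Real.log_pow]
    exact Real.log_le_log (by linarith) (by exact_mod_cast hgG0)
  have hlg2 : G0 * Real.log 2 ≤ 2 * Real.log g := by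
    have e1 : Real.log 2 ≤ Real.log g := Real.log_le_log (by norm_num) hgR
    have e2 : ((G0 - 1 : ℕ) : ℝ) * Real.log 2 ≤ Real.log g := by
      rw [← Real.log_pow]
      exact Real.log_le_log (by positivity) (by exact_mod_cast hG0g)
    rw [Nat.cast_sub hG0, Nat.cast_one] at e2
    linarith
  have hy : (0 : ℝ) < (g : ℝ) ^ a := by positivity
  have hx : (0 : ℝ) < (m : ℝ) ^ b := by positivity
  have hxy : (m : ℝ) ^ b ≤ 2 * (g : ℝ) ^ a := by
    by_contra hc
    rw [not_le] at hc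
    have e1 : (2 : ℝ) ^ (G + 3) ≤ (m : ℝ) ^ b :=
      (pow_le_pow_right₀ (by norm_num) (by omega)).trans
        (pow_le_pow_left₀ (by norm_num) (by linarith) b)
    have e2 : ((m : ℝ) ^ b / 2) ^ 2 ≤ ((m : ℝ) ^ b - (g : ℝ) ^ a) ^ 2 :=
      pow_le_pow_left₀ (by positivity) (by linarith) 2
    have e3 : (2 : ℝ) ^ (G + 3) = 2 * 2 ^ (G + 2) := by ring
    have e4 : (0 : ℝ) < 2 ^ (G + 2) := by positivity
    generalize (m : ℝ) ^ b = x at *
    generalize (g : ℝ) ^ a = y at *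
    generalize (2 : ℝ) ^ (G + 2) = p at *
    have e5 := mul_lt_mul_of_pos_left hc e4
    have e6 := mul_le_mul_of_nonneg_right (e3 ▸ e1 : 2 * p ≤ x) hx.le
    nlinarith
  obtain ⟨al, hal⟩ : ∃ al : ℝ, b * al = a * Real.log g := ⟨a * Real.log g / b, by field_simp⟩
  have hal1 : 1.09 ≤ al := by
    have e1 := Real.log_le_log hx hxy
    rw [Real.log_mul (by norm_num) hy.ne', Real.log_pow, Real.log_pow, ← hal] at e1
    have e2 : (1.0986 : ℝ) ≤ Real.log m :=
      le_trans (by have := Real.log_three_gt_d9; linarith) (Real.log_le_log (by norm_num) hmR)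
    have e3 := mul_le_mul_of_nonneg_left e2 hbR.le
    by_contra hc
    have e4 := mul_lt_mul_of_pos_left (not_le.1 hc) hbR
    linarith
  obtain ⟨s, hs1, hs2⟩ : ∃ s : ℕ, 2 ^ s * (20000 * G0) ≤ b ∧ b < 2 ^ (s + 1) * (20000 * G0) := by
    have e0 : 0 < 20000 * G0 := by omega
    have e1 : b / (20000 * G0) ≠ 0 := (Nat.div_pos (by omega) e0).ne'
    exact ⟨Nat.log 2 (b / (20000 * G0)),
      (Nat.le_div_iff_mul_le e0).1 (Nat.pow_log_le_self 2 e1),
      (Nat.div_lt_iff_lt_mul e0).1 (Nat.lt_pow_succ_log_self (by norm_num) _)⟩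
  obtain ⟨L, hL⟩ : ∃ L : ℕ, L = 11 + s := ⟨_, rfl⟩
  have hbL : 153 * L ^ 2 * G0 ≤ b := by
    refine le_trans ?_ hs1
    have := Nat.mul_le_mul_right G0 (sq_le_pow s)
    rw [hL]
    linarith
  have hLR : (L : ℝ) = 11 + s := by exact_mod_cast hL
  have hs0 : (0 : ℝ) ≤ s := by positivity
  have hL11 : (11 : ℝ) ≤ L := by linarith
  have hbLR : 153 * (L : ℝ) ^ 2 * G0 ≤ b := by exact_mod_cast hbL
  have hs2R : (b : ℝ) ≤ 40000 * 2 ^ s * G0 := by
    have : (b : ℝ) ≤ 2 ^ (s + 1) * (20000 * G0) := by exact_mod_cast hs2.le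
    rw [pow_succ] at this
    linarith
  obtain ⟨P, hP⟩ : ∃ P : ℝ, P = L * G0 * al := ⟨_, rfl⟩
  have hLG : (L : ℝ) ≤ L * G0 := le_mul_of_one_le_right (by linarith) hG0R
  have hP1 : 1.09 * ((L : ℝ) * G0) ≤ P := by
    rw [hP, mul_comm]; exact mul_le_mul_of_nonneg_left hal1 (by positivity)
  obtain ⟨K, hK1, hK2⟩ : ∃ K : ℕ, 36 * P ≤ K ∧ (K : ℝ) ≤ 36 * P + 1 :=
    ⟨⌈36 * P⌉₊, Nat.le_ceil _, (Nat.ceil_lt_add_one (by linarith)).le⟩
  have hK : (431 : ℝ) ≤ K := by linarith
  have hK0 : 0 < K := by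
    have : (0 : ℝ) < K := by linarith
    exact_mod_cast this
  obtain ⟨U, hU1, hU2⟩ : ∃ U : ℕ, K < 5 * G0 * U ∧ 5 * G0 * U ≤ K + 5 * G0 :=
    ⟨K / (5 * G0) + 1, Nat.lt_mul_div_succ K (by omega), by
      have := Nat.mul_div_le K (5 * G0)
      rw [mul_add]; omega⟩
  have hU1R : (K : ℝ) ≤ 5 * G0 * U := by exact_mod_cast hU1.le
  have hU2R : 5 * (G0 : ℝ) * U ≤ K + 5 * G0 := by exact_mod_cast hU2
  have hU0 : (0 : ℝ) ≤ U := by positivity
  have hN : ((U + L - 1 : ℕ) : ℝ) = U + L - 1 := by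
    rw [Nat.cast_sub (by omega)]; push_cast; ring
  have hLal : 1.09 * (L : ℝ) ≤ L * al := by
    rw [mul_comm]; exact mul_le_mul_of_nonneg_left hal1 (by positivity)
  have hU3 : (U : ℝ) + L - 1 - 1 ≤ 7.2 * (L * al) + L := by
    have e1 : (G0 : ℝ) * (5 * U) ≤ G0 * (36 * (L * al) + 6) := by
      rw [hP] at hK2; linarith
    have e2 := le_of_mul_le_mul_left e1 (by linarith)
    linarith
  have hLL : L * (5 * L * G0) ≤ b := le_trans (by nlinarith) hbL
  have hlg0 : 0 ≤ Real.log g := Real.log_nonneg (by linarith)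
  obtain ⟨Z, hZ⟩ : ∃ Z : ℝ, Z = b * ((U : ℝ) + L - 1 - 1) + a * (5 * L * G0 - 1) := ⟨_, rfl⟩
  have ha0 : (0 : ℝ) ≤ a := by positivity
  have hKZ : (K : ℝ) ≤ Z := by
    have e1 : 0 ≤ (a : ℝ) * (5 * L * G0 - 1) := mul_nonneg ha0 (by linarith)
    have e2 : 5 * (G0 : ℝ) * U ≤ b * ((U : ℝ) + L - 1 - 1) :=
      mul_le_mul (by linarith) (by linarith) hU0 hbR.le
    linarith
  have hZ2 : Z ≤ 22.55 * (b * (L * al)) := by
    have e1 : (a : ℝ) * G0 ≤ 2.886 * (b * al) := by
      have e2 := mul_le_mul_of_nonneg_left hlg2 ha0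
      have e3 : (a : ℝ) * G0 * 0.6931 ≤ a * G0 * Real.log 2 :=
        mul_le_mul_of_nonneg_left hl (by positivity)
      have e4 : 0 ≤ (b : ℝ) * al := by positivity
      linarith
    have e2 := mul_le_mul_of_nonneg_left e1 (show (0 : ℝ) ≤ L by positivity)
    have e3 : (b : ℝ) * ((U : ℝ) + L - 1 - 1) ≤ b * (8.118 * (L * al)) :=
      mul_le_mul_of_nonneg_left (by linarith) hbR.le
    linarith
  have hX : 9 * Z / K ≤ Real.exp ((18 + (s : ℝ)) * Real.log 2) := by
    have e0 : Real.exp ((18 + (s : ℝ)) * Real.log 2) = 262144 * 2 ^ s := by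
      rw [show (18 + (s : ℝ)) = ((18 + s : ℕ) : ℝ) by push_cast; ring, Real.exp_nat_mul,
        Real.exp_log (by norm_num), pow_add]
      norm_num
    rw [e0, div_le_iff₀ (by linarith)]
    have e1 := mul_le_mul_of_nonneg_right hs2R (show 0 ≤ (L : ℝ) * al by positivity)
    have e2 := mul_le_mul_of_nonneg_left hK1 (show (0 : ℝ) ≤ 2 ^ s by positivity)
    have e3 : 40000 * 2 ^ s * (G0 : ℝ) * (L * al) = 40000 * (2 ^ s * P) := by rw [hP]; ring
    have e4 : 0 ≤ (2 : ℝ) ^ s * P := mul_nonneg (by positivity) (by linarith)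
    linarith
  have hη : |Real.exp (b * Real.log m - a * Real.log g) - 1| ≤ 1 / 8 ^ (K * L) := by
    rw [Real.exp_sub, Real.exp_nat_mul, Real.exp_nat_mul, Real.exp_log (by linarith),
      Real.exp_log (by linarith)]
    refine abs_le_of_sq_le_sq ?_ (by positivity)
    have e1 : (2 : ℝ) ^ (G + 2) * (8 ^ (K * L)) ^ 2 ≤ (g : ℝ) ^ a := by
      rw [← Real.log_le_log_iff (by positivity) hy, Real.log_mul (by positivity) (by positivity),
        Real.log_pow, Real.log_pow, Real.log_pow, Real.log_pow, ← hal,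
        show (8 : ℝ) = 2 ^ 3 by norm_num, Real.log_pow]
      push_cast
      have f1 : ((G : ℝ) + 2 + 6 * (K * L)) * Real.log 2 ≤ ((G : ℝ) + 2 + 6 * (K * L)) * 0.6932 :=
        mul_le_mul_of_nonneg_left hl' (by positivity)
      have f2 := mul_le_mul_of_nonneg_right hK2 (show (0 : ℝ) ≤ L by positivity)
      have f3 := mul_le_mul_of_nonneg_right hbLR (show 0 ≤ al by linarith)
      have f4 : 153 * (L : ℝ) ^ 2 * G0 * al = 153 * (P * L) := by rw [hP]; ring
      have f5 : 1683 * (L : ℝ) ≤ b := by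
        have f6 := mul_le_mul hL11 hLG (by linarith) (by linarith)
        have f7 : 153 * (L : ℝ) ^ 2 * G0 = 153 * (L * (L * G0)) := by ring
        linarith
      have f8 := mul_le_mul_of_nonneg_left hal1 hbR.le
      linarith
    rw [div_sub_one hy.ne', div_pow, div_pow, one_pow,
      div_le_div_iff₀ (by positivity) (by positivity), one_mul, sq ((g : ℝ) ^ a)]
    refine (mul_le_mul_of_nonneg_right hcon' (by positivity)).trans ?_
    rw [mul_right_comm]
    exact mul_le_mul_of_nonneg_right e1 hy.le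
  have hcore := core h1 h2 h3 (K := K) (L := L) (U := U) (V := 5 * L * G0) hg (by omega)
    (by omega) hab (le_trans (Nat.mul_le_mul_right _ (by omega)) hLL)
    (by
      have := Nat.mul_lt_mul_of_pos_right hU1 (show 0 < L by omega)
      calc K * L < 5 * G0 * U * L := this
        _ = U * (5 * L * G0) := by ring)
    (by omega) hLL hK0 (Z := Z) (by rw [hN, hZ]; push_cast; ring) hKZ hX rfl hη
  have hS : Real.log g / b * Z =
      Real.log g * ((U : ℝ) + L - 1 - 1) + al * (5 * L * G0 - 1) := by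
    have e1 : Real.log g / b * a = al := by
      rw [div_mul_eq_mul_div, div_eq_iff hbR.ne']; linarith
    rw [hZ, mul_add, ← mul_assoc, ← mul_assoc, e1, div_mul_cancel₀ _ hbR.ne']
  refine numeric (S := Real.log g / b * Z) (W := ((U + L - 1 : ℕ) : ℝ) * ((5 * L * G0 : ℕ) : ℝ))
    (T := Real.log (K * L)) hl hl' hs0 hLR hK (mul_nonneg (by positivity) (by linarith)) ?_ ?_ ?_
    rfl (hcore.trans (le_of_eq (by ring)))
  · rw [hS]
    have e1 : Real.log g ≤ G0 * 0.6932 :=
      hlg1.trans (mul_le_mul_of_nonneg_left hl' (by positivity))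
    have e2 : Real.log g * ((U : ℝ) + L - 1 - 1) ≤ G0 * 0.6932 * (7.2 * (L * al) + L) :=
      mul_le_mul e1 hU3 (by linarith) (by positivity)
    have e3 : (G0 : ℝ) * 0.6932 * (7.2 * (L * al) + L) = 0.6932 * (7.2 * P + L * G0) := by
      rw [hP]; ring
    have e4 : al * (5 * L * G0 - 1) = 5 * P - al := by rw [hP]; ring
    linarith
  · rw [hN]
    push_cast
    have e1 := mul_le_mul_of_nonneg_right hU2R (show (0 : ℝ) ≤ L by positivity)
    have e2 : 5 * ((L : ℝ) * G0) ≤ 0.13 * K := by linarith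
    have e3 := mul_le_mul_of_nonneg_right e2 (show (0 : ℝ) ≤ L by positivity)
    linarith
  · have e1 : Real.log (K * L) + Real.log 2 ≤ 2 * Real.log K := by
      rw [← Real.log_mul (by positivity) (by norm_num), two_mul,
        ← Real.log_mul (by positivity) (by positivity), mul_assoc]
      exact Real.log_le_log (by positivity)
        (mul_le_mul_of_nonneg_left (by linarith) (by positivity))
    have e2 := Real.log_le_sub_one_of_pos (show (0 : ℝ) < K / 2 ^ 7 by positivity)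
    rw [Real.log_div (by positivity) (by positivity), Real.log_pow] at e2
    push_cast at e2
    linarith

end Pool.Agent.MP_089fcb_co.H7.TwoLog
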