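import Pool.Agent.MP_089fcb_co.H7.Defs

/-! The interpolation determinant: analytic upper bound against the integrality lower bound. -/

set_option autoImplicit false

open Finset

namespace Pool.Agent.MP_089fcb_co.H7.TwoLog

lemma sum_id (n : ℕ) : ∑ i : Fin n, ((i : ℕ) : ℝ) = n * ((n : ℝ) - 1) / 2 := by
  rw [Fin.sum_univ_eq_sum_range (fun i => (i : ℝ)) n]
  induction n with
  | zero => simp
  | succ n ih => rw [sum_range_succ, ih]; push_cast; ring

lemma sum_abs (n : ℕ) : ∑ i : Fin n, |((i : ℕ) : ℝ) - ((n : ℝ) - 1) / 2| ≤ (n : ℝ) ^ 2 / 4 := by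
  rw [Fin.sum_univ_eq_sum_range (fun i => |(i : ℝ) - ((n : ℝ) - 1) / 2|) n]
  induction n using Nat.twoStepInduction with
  | zero => simp
  | one => norm_num
  | more n ih _ =>
    rw [sum_range_succ, sum_range_succ']
    have h0 : (0 : ℝ) ≤ n := by positivity
    have h1 : ∀ i : ℕ, ((i + 1 : ℕ) : ℝ) - (((n + 2 : ℕ) : ℝ) - 1) / 2 = i - ((n : ℝ) - 1) / 2 := by
      intro i; push_cast; ring
    simp_rw [h1]
    have h2 : |((0 : ℕ) : ℝ) - (((n + 2 : ℕ) : ℝ) - 1) / 2| = ((n : ℝ) + 1) / 2 := by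
      rw [abs_of_nonpos (by push_cast; linarith)]; push_cast; ring
    have h3 : |(n : ℝ) - ((n : ℝ) - 1) / 2| = ((n : ℝ) + 1) / 2 := by
      rw [abs_of_nonneg (by linarith)]; ring
    rw [h2, h3]
    push_cast
    linarith

lemma abs_exp_sub {θ Λ : ℝ} (h0 : 0 ≤ θ) (h1 : θ ≤ 1) :
    |Real.exp (θ * Λ) - 1| ≤ |Real.exp Λ - 1| := by
  rcases le_total 0 Λ with h | h
  · have e1 : 1 ≤ Real.exp (θ * Λ) := Real.one_le_exp (mul_nonneg h0 h)
    have e2 : Real.exp (θ * Λ) ≤ Real.exp Λ := Real.exp_le_exp.2 (mul_le_of_le_one_left h h1)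
    rw [abs_of_nonneg (by linarith), abs_of_nonneg (by linarith)]
    linarith
  · have e1 : Real.exp (θ * Λ) ≤ 1 := Real.exp_le_one_iff.2 (mul_nonpos_of_nonneg_of_nonpos h0 h)
    have e2 : Real.exp Λ ≤ Real.exp (θ * Λ) := Real.exp_le_exp.2 (by nlinarith)
    rw [abs_of_nonpos (by linarith), abs_of_nonpos (by linarith)]
    linarith

theorem core (h1 : DetStmt) (h2 : MajStmt) (h3 : ZeroStmt) {g m a b K L U V : ℕ} (hg : 2 ≤ g)
    (hm : 1 ≤ m) (hL : 1 ≤ L) (hab : Nat.gcd a b ≤ 2) (hV : 2 * V ≤ b) (hUV : K * L < U * V)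
    (hb : 0 < b) (hLV : L * V ≤ b) (hK : 0 < K) {Z X τ : ℝ}
    (hZ : Z = b * (((U + L - 1 : ℕ) : ℝ) - 1) + a * ((V : ℝ) - 1)) (hKZ : (K : ℝ) ≤ Z)
    (hX : 9 * Z / K ≤ Real.exp X) (hτ : τ = Real.log g / b)
    (hη : |Real.exp (b * Real.log m - a * Real.log g) - 1| ≤ 1 / 8 ^ (K * L)) :
    3 * Real.log 2 * ((K * L : ℝ) * (K * L - 1) / 2) ≤
      ((L : ℝ) - 1) / 2 * τ * (((U + L - 1 : ℕ) : ℝ) * V * Z / 2) +
        K * L * Real.log (K * L) + K * L * Real.log 2 + L * (K * ((K : ℝ) - 1) / 2) * X +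
        L * (K : ℝ) ^ 2 / 2 + K * (L : ℝ) ^ 2 * (τ * Z) := by
  have hz := h3 g m a b K L U V hg hm hL hab hV hUV
  generalize U + L - 1 = N at hz hZ ⊢
  obtain ⟨σ, hσ, hdet⟩ := hz
  set Λ := b * Real.log m - a * Real.log g with hΛ
  have hbR : (0 : ℝ) < b := by exact_mod_cast hb
  have hKR : (0 : ℝ) < K := by exact_mod_cast hK
  have hLR : (1 : ℝ) ≤ L := by exact_mod_cast hL
  have hgR : (2 : ℝ) ≤ g := by exact_mod_cast hg
  have hmR : (1 : ℝ) ≤ m := by exact_mod_cast hm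
  have hlg : 0 ≤ Real.log g := Real.log_nonneg (by linarith)
  have hτ0 : 0 ≤ τ := by rw [hτ]; positivity
  have hZ0 : 0 ≤ Z := hKR.le.trans hKZ
  let zz : Fin N × Fin V → ℝ := fun p => b * ((p.1 : ℕ) : ℝ) + a * ((p.2 : ℕ) : ℝ)
  have hz0 : ∀ p, 0 ≤ zz p := fun p => by positivity
  have hzZ : ∀ p, zz p ≤ Z := fun p => by
    have e1 : ((p.1 : ℕ) : ℝ) + 1 ≤ N := by exact_mod_cast p.1.2
    have e2 : ((p.2 : ℕ) : ℝ) + 1 ≤ V := by exact_mod_cast p.2.2
    rw [hZ]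
    exact add_le_add (mul_le_mul_of_nonneg_left (by linarith) hbR.le)
      (mul_le_mul_of_nonneg_left (by linarith) (by positivity))
  have hzs : ∑ j, zz (σ j) ≤ (N : ℝ) * V * Z / 2 := by
    have e1 : ∑ j, zz (σ j) = ∑ p ∈ univ.map ⟨σ, hσ⟩, zz p := by rw [sum_map]; rfl
    rw [e1]
    refine (sum_le_sum_of_subset_of_nonneg (subset_univ _) fun p _ _ => hz0 p).trans (le_of_eq ?_)
    rw [Fintype.sum_prod_type]
    simp only [zz, sum_add_distrib, sum_const, card_univ, Fintype.card_fin, nsmul_eq_mul,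
      ← mul_sum, sum_id]
    rw [hZ]; ring
  let ζ : Fin K × Fin L → ℝ := fun j => zz (σ j) - Z / 2
  have hζ : ∀ j, |ζ j| ≤ Z / 2 := fun j => by
    have := hz0 (σ j)
    have := hzZ (σ j)
    exact abs_le.2 ⟨by simp only [ζ]; linarith, by simp only [ζ]; linarith⟩
  let β : Fin K × Fin L → ℝ := fun i => (((i.2 : ℕ) : ℝ) - ((L : ℝ) - 1) / 2) * τ
  have hc : ∀ i : Fin K × Fin L, _ := fun i => h2 (Z / 2) 8 (β i) i.1 (by positivity) (by norm_num)
    (by
      have : ((i.1 : ℕ) : ℝ) ≤ K := by exact_mod_cast i.1.2.le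
      linarith)
  choose c hc1 hc2 hc3 using hc
  let f : Fin K × Fin L → Fin K × Fin L → ℝ := fun i j =>
    (∏ t ∈ range i.1, (ζ j + Z / 2 - t)) / (i.1 : ℕ).factorial * Real.exp (β i * ζ j)
  let ε : Fin K × Fin L → Fin K × Fin L → ℝ := fun i j =>
    Real.exp ((((i.2 : ℕ) : ℝ) * (((σ j).2 : ℕ) : ℝ) / b) * Λ) - 1
  let M : Fin K × Fin L → ℝ := fun i =>
    ((8 + 1) * (Z / 2)) ^ (i.1 : ℕ) / (i.1 : ℕ).factorial * Real.exp (|β i| * (8 * (Z / 2)))
  have hcard : Fintype.card (Fin K × Fin L) = K * L := by simp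
  have hfM : ∀ i j, |f i j| ≤ M i := fun i j => by
    refine le_trans ?_ (hc3 i)
    refine (hc1 i (ζ j) (hζ j)).norm_le_of_bounded (hc2 i).hasSum fun n => ?_
    rw [Real.norm_eq_abs, abs_mul, abs_pow]
    refine mul_le_mul_of_nonneg_left (pow_le_pow_left₀ (abs_nonneg _) ?_ n) (abs_nonneg _)
    have := hζ j
    linarith
  have hε : ∀ i j, |ε i j| ≤ 1 / 8 ^ (K * L) := fun i j => by
    refine le_trans (abs_exp_sub (by positivity) ?_) hη
    rw [div_le_one hbR]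
    have : (i.2 : ℕ) * ((σ j).2 : ℕ) ≤ b := (Nat.mul_le_mul i.2.2.le (σ j).2.2.le).trans hLV
    exact_mod_cast this
  have hD := h1 (Fin K × Fin L) (Z / 2) 8 ζ c f (fun i j => f i j * ε i j) M (by positivity)
    (by norm_num) hζ (fun i j => hc1 i (ζ j) (hζ j)) hc2 hc3 (fun i j => by
      rw [abs_mul, hcard, div_eq_mul_one_div]
      exact mul_le_mul (hfM i j) (hε i j) (abs_nonneg _) ((abs_nonneg _).trans (hfM i j)))
  rw [hcard] at hD
  -- the integer determinant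
  have hone : (1 : ℝ) ≤ |Matrix.det (Matrix.of fun i j : Fin K × Fin L =>
      Real.exp (β i * (Z / 2)) * (Real.exp (((L : ℝ) - 1) / 2 * τ * zz (σ j)) *
        (f i j + f i j * ε i j)))| := by
    have e1 := Int.one_le_abs hdet
    have e2 : (1 : ℝ) ≤ |((Matrix.det (Matrix.of fun i j : Fin K × Fin L =>
        (((b * (σ j).1 + a * (σ j).2).choose i.1 *
          (g ^ ((σ j).1 : ℕ) * m ^ ((σ j).2 : ℕ)) ^ (i.2 : ℕ) : ℕ) : ℤ)) : ℤ) : ℝ)| := by
      exact_mod_cast e1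
    rw [Int.cast_det] at e2
    refine e2.trans (le_of_eq ?_)
    congr 2
    ext i j
    simp only [Matrix.map_apply, Matrix.of_apply, Int.cast_natCast]
    rw [Nat.cast_mul, Nat.cast_choose_eq_descPochhammer_div, descPochhammer_eval_eq_prod_range]
    have e3 : (((g ^ ((σ j).1 : ℕ) * m ^ ((σ j).2 : ℕ)) ^ (i.2 : ℕ) : ℕ) : ℝ) =
        Real.exp (((i.2 : ℕ) : ℝ) * ((((σ j).1 : ℕ) : ℝ) * Real.log g +
          (((σ j).2 : ℕ) : ℝ) * Real.log m)) := by
      rw [Real.exp_nat_mul, Real.exp_add, Real.exp_nat_mul, Real.exp_nat_mul,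
        Real.exp_log (by linarith), Real.exp_log (by linarith)]
      push_cast; rfl
    have e4 : ∀ t : ℕ, ζ j + Z / 2 - t = ((b * (σ j).1 + a * (σ j).2 : ℕ) : ℝ) - t := fun t => by
      simp only [ζ, zz]; push_cast; ring
    have e5 : ((i.2 : ℕ) : ℝ) * ((((σ j).1 : ℕ) : ℝ) * Real.log g +
          (((σ j).2 : ℕ) : ℝ) * Real.log m) = β i * (Z / 2) + ((L : ℝ) - 1) / 2 * τ * zz (σ j) +
          β i * ζ j + (((i.2 : ℕ) : ℝ) * (((σ j).2 : ℕ) : ℝ) / b) * Λ := by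
      simp only [β, ζ, zz, hτ, hΛ]
      field_simp
      ring
    rw [e3, e5, Real.exp_add, Real.exp_add, Real.exp_add]
    simp only [f, ε, e4]
    ring
  have d1 := Matrix.det_mul_column (fun i => Real.exp (β i * (Z / 2)))
    (Matrix.of fun i j => Real.exp (((L : ℝ) - 1) / 2 * τ * zz (σ j)) * (f i j + f i j * ε i j))
  have d2 := Matrix.det_mul_row (fun j => Real.exp (((L : ℝ) - 1) / 2 * τ * zz (σ j)))
    (Matrix.of fun i j => f i j + f i j * ε i j)
  simp only [Matrix.of_apply] at d1 d2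
  rw [d1, d2, ← Real.exp_sum, ← Real.exp_sum] at hone
  have hrow : ∑ i, β i * (Z / 2) = 0 := by
    rw [← sum_mul, Fintype.sum_prod_type]
    simp only [β, ← sum_mul, sum_sub_distrib, sum_id, sum_const, card_univ, Fintype.card_fin,
      nsmul_eq_mul]
    ring
  rw [hrow, Real.exp_zero, one_mul, abs_mul, abs_of_pos (Real.exp_pos _)] at hone
  have hcol : Real.exp (∑ j, ((L : ℝ) - 1) / 2 * τ * zz (σ j)) ≤
      Real.exp (((L : ℝ) - 1) / 2 * τ * ((N : ℝ) * V * Z / 2)) := by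
    rw [← mul_sum]
    exact Real.exp_le_exp.2 (mul_le_mul_of_nonneg_left hzs (mul_nonneg (by linarith) hτ0))
  have hM : ∀ i, 2 * M i ≤
      Real.exp (Real.log 2 + ((i.1 : ℕ) * X + K / 2) + |β i| * (8 * (Z / 2))) := fun i => by
    rw [Real.exp_add, Real.exp_add, Real.exp_log (by norm_num), Real.exp_add, Real.exp_nat_mul,
      mul_assoc]
    refine mul_le_mul_of_nonneg_left
      (mul_le_mul_of_nonneg_right ?_ (Real.exp_pos _).le) (by norm_num)
    have e1 : (8 + 1) * (Z / 2) = 9 * Z / K * (K / 2) := by field_simp; ring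
    rw [e1, mul_pow, mul_div_assoc]
    exact mul_le_mul (pow_le_pow_left₀ (by positivity) hX _)
      (Real.pow_div_factorial_le_exp _ (by positivity) _) (by positivity) (by positivity)
  have hMs : ∏ i, 2 * M i ≤ Real.exp (K * L * Real.log 2 + L * (K * ((K : ℝ) - 1) / 2) * X +
      L * (K : ℝ) ^ 2 / 2 + K * (L : ℝ) ^ 2 * (τ * Z)) := by
    refine (prod_le_prod (fun i _ => by positivity) fun i _ => hM i).trans ?_
    rw [← Real.exp_sum]
    refine Real.exp_le_exp.2 ?_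
    rw [Fintype.sum_prod_type]
    simp only [β, abs_mul, abs_of_nonneg hτ0, sum_add_distrib, ← sum_mul, ← mul_sum, sum_const,
      card_univ, Fintype.card_fin, nsmul_eq_mul, sum_id]
    have e1 := mul_le_mul_of_nonneg_right (sum_abs L) (mul_nonneg hτ0 hZ0)
    have e2 := mul_le_mul_of_nonneg_left e1 hKR.le
    nlinarith
  have hDpos : (0 : ℝ) < K * L := by positivity
  have hfac : ((K * L).factorial : ℝ) ≤ Real.exp (K * L * Real.log (K * L)) := by
    have e1 : ((K * L).factorial : ℝ) ≤ ((K * L : ℕ) : ℝ) ^ (K * L) := by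
      exact_mod_cast Nat.factorial_le_pow (K * L)
    refine e1.trans (le_of_eq ?_)
    rw [← Nat.cast_mul, Real.exp_nat_mul, Real.exp_log (by push_cast; exact hDpos)]
  have h8 : (8 : ℝ) ^ (K * L * (K * L - 1) / 2) =
      Real.exp (3 * Real.log 2 * ((K * L : ℝ) * (K * L - 1) / 2)) := by
    rw [← Nat.choose_two_right, ← Nat.cast_mul, ← Nat.cast_choose_two,
      mul_comm (3 * Real.log 2), Real.exp_nat_mul]
    congr 1
    rw [show (3 : ℝ) = ((3 : ℕ) : ℝ) by norm_num, Real.exp_nat_mul, Real.exp_log (by norm_num)]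
    norm_num
  have hfin := hone.trans (mul_le_mul hcol (hD.trans (div_le_div_of_nonneg_right
    (mul_le_mul hfac hMs (prod_nonneg fun i _ => by positivity) (by positivity))
    (by positivity))) (abs_nonneg _) (by positivity))
  rw [h8, ← Real.exp_add, ← Real.exp_sub, ← Real.exp_add, Real.one_le_exp_iff] at hfin
  linarith

end Pool.Agent.MP_089fcb_co.H7.TwoLog
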