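import Pool.Agent.MP_089fcb_co.H7.Defs

set_option autoImplicit false

open Finset Polynomial

namespace Pool.Agent.MP_089fcb_co.H7.Zero

theorem coeff_prod_top {ι : Type} [DecidableEq ι] (s : Finset ι) (f : ι → ℚ[X]) (d : ι → ℕ)
    (h : ∀ i, (f i).natDegree ≤ d i) :
    (∏ i ∈ s, f i).natDegree ≤ ∑ i ∈ s, d i ∧
      (∏ i ∈ s, f i).coeff (∑ i ∈ s, d i) = ∏ i ∈ s, (f i).coeff (d i) := by
  induction s using Finset.induction_on with
  | empty => simp
  | insert a s ha ih =>
    rw [prod_insert ha, sum_insert ha, prod_insert ha]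
    refine ⟨natDegree_mul_le.trans (Nat.add_le_add (h a) ih.1), ?_⟩
    rw [coeff_mul_add_eq_of_natDegree_le (h a) ih.1, ih.2]

theorem det_top {ι : Type} [Fintype ι] [DecidableEq ι] (M : Matrix ι ι ℚ[X]) (d : ι → ℕ)
    (h : ∀ c j, (M c j).natDegree ≤ d j) :
    M.det.natDegree ≤ ∑ j, d j ∧
      M.det.coeff (∑ j, d j) = (Matrix.of fun c j => (M c j).coeff (d j)).det := by
  constructor
  · rw [Matrix.det_apply]
    refine natDegree_sum_le_of_forall_le _ _ fun σ _ => ?_
    refine le_trans ?_ (coeff_prod_top univ (fun j => M (σ j) j) d fun j => h _ _).1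
    rcases Int.units_eq_one_or (Equiv.Perm.sign σ) with h1 | h1 <;> simp [h1]
  · rw [Matrix.det_apply, Matrix.det_apply, finsetSum_coeff]
    refine sum_congr rfl fun σ _ => ?_
    have := (coeff_prod_top univ (fun j => M (σ j) j) d fun j => h _ _).2
    rcases Int.units_eq_one_or (Equiv.Perm.sign σ) with h1 | h1 <;> simp [h1, this]

theorem pts_inj {a b U V : ℕ} (hg : Nat.gcd a b ≤ 2) (hb : 2 * V ≤ b) :
    Function.Injective fun p : Fin U × Fin V => ((b * p.1 + a * p.2 : ℕ) : ℚ) := by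
  have key : ∀ u u' v v' : ℕ, v < V → v' < v → b * u + a * v = b * u' + a * v' → False := by
    intro u u' v v' hv hv' h
    obtain ⟨d, rfl⟩ := Nat.exists_eq_add_of_lt hv'
    have h1 : b * u + a * (d + 1) = b * u' := by nlinarith
    have h2 : b ∣ a * (d + 1) := by
      have : b ∣ b * u + a * (d + 1) := h1 ▸ Dvd.intro _ rfl
      exact (Nat.dvd_add_right (Dvd.intro _ rfl)).1 this
    have h3 : b ∣ Nat.gcd a b * (d + 1) := by
      rw [← Nat.gcd_mul_right]
      exact Nat.dvd_gcd h2 (Dvd.intro _ rfl)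
    have h4 : 0 < Nat.gcd a b := Nat.gcd_pos_of_pos_right _ (by omega)
    have h5 := Nat.le_of_dvd (by positivity) h3
    nlinarith
  rintro ⟨u, v⟩ ⟨u', v'⟩ h
  have h' : b * (u : ℕ) + a * (v : ℕ) = b * (u' : ℕ) + a * (v' : ℕ) :=
    Nat.cast_injective (R := ℚ) h
  rcases lt_trichotomy (v : ℕ) v' with h1 | h1 | h1
  · exact (key _ _ _ _ v'.2 h1 h'.symm).elim
  · have hv := v.2
    have : (u : ℕ) = u' := by
      rw [h1] at h'
      exact Nat.eq_of_mul_eq_mul_left (by omega) (Nat.add_right_cancel h')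
    exact Prod.ext (Fin.ext this) (Fin.ext h1)
  · exact (key _ _ _ _ v.2 h1 h').elim

theorem polys_zero {g m a b K L U V : ℕ} (hg : 2 ≤ g) (hm : 1 ≤ m) (hab : Nat.gcd a b ≤ 2)
    (hb : 2 * V ≤ b) (hK : K * L < U * V) (Q : Fin L → ℚ[X]) (hQ : ∀ l, (Q l).natDegree ≤ K)
    (h : ∀ u v : ℕ, u < U + L - 1 → v < V →
      ∑ l, (Q l).eval ((b * u + a * v : ℕ) : ℚ) * ((g : ℚ) ^ u * (m : ℚ) ^ v) ^ (l : ℕ) = 0) :
    ∀ l, Q l = 0 := by
  classical
  by_contra hne
  push Not at hne
  obtain ⟨l0, hl0⟩ := hne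
  set T : Finset (Fin L) := univ.filter fun l => Q l ≠ 0 with hT
  have hTL : T.card ≤ L := by simpa using card_le_univ T
  have hTpos : 0 < T.card := card_pos.2 ⟨l0, by simp [hT, hl0]⟩
  let e : Fin T.card ↪o Fin L := T.orderEmbOfFin rfl
  have he : ∀ j, Q (e j) ≠ 0 := fun j => (mem_filter.1 (T.orderEmbOfFin_mem rfl j)).2
  let M : Matrix (Fin T.card) (Fin T.card) ℚ[X] := Matrix.of fun c j =>
    taylor ((b * c : ℕ) : ℚ) (Q (e j)) * C (((g : ℚ) ^ (e j : ℕ)) ^ (c : ℕ))
  have hdeg : ∀ c j, (M c j).natDegree ≤ (Q (e j)).natDegree := fun c j => by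
    exact (natDegree_mul_C_le _ _).trans (natDegree_taylor _ _).le
  obtain ⟨h1, h2⟩ := det_top M (fun j => (Q (e j)).natDegree) hdeg
  have h3 : (Matrix.of fun c j => (M c j).coeff (Q (e j)).natDegree) =
      Matrix.of fun c j => (Q (e j)).leadingCoeff *
        (Matrix.vandermonde fun j => (g : ℚ) ^ (e j : ℕ)).transpose c j := by
    ext c j
    simp only [M, Matrix.of_apply, coeff_mul_C, Matrix.transpose_apply, Matrix.vandermonde_apply]
    congr 1
    conv_lhs => rw [← natDegree_taylor (Q (e j)) ((b * c : ℕ) : ℚ)]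
    exact leadingCoeff_taylor _ _
  have h4 : M.det ≠ 0 := by
    intro h0
    rw [h0, coeff_zero, h3, Matrix.det_mul_row, Matrix.det_transpose] at h2
    refine mul_ne_zero (prod_ne_zero_iff.2 fun j _ => leadingCoeff_ne_zero.2 (he j)) ?_ h2.symm
    refine Matrix.det_vandermonde_ne_zero_iff.2 fun i j hij => ?_
    have hg' : (1 : ℚ) < g := by exact_mod_cast hg
    exact e.injective (Fin.ext (pow_right_injective₀ (by linarith) hg'.ne' hij))
  refine h4 (eq_zero_of_natDegree_lt_card_of_eval_eq_zero _ (pts_inj (U := U) hab hb) ?_ ?_)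
  · rintro ⟨u, v⟩
    have := (evalRingHom ((b * u + a * v : ℕ) : ℚ)).map_det M
    simp only [coe_evalRingHom] at this
    simp only
    rw [this]
    refine Matrix.exists_mulVec_eq_zero_iff.1
      ⟨fun j => ((g : ℚ) ^ (u : ℕ) * (m : ℚ) ^ (v : ℕ)) ^ (e j : ℕ), ?_, ?_⟩
    · intro h0
      have h5 := congrFun h0 ⟨0, hTpos⟩
      have : (0 : ℚ) < ((g : ℚ) ^ (u : ℕ) * (m : ℚ) ^ (v : ℕ)) ^ (e ⟨0, hTpos⟩ : ℕ) := by
        have : (0 : ℚ) < g := by exact_mod_cast (by omega : 0 < g)
        have : (0 : ℚ) < m := by exact_mod_cast (by omega : 0 < m)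
        positivity
      exact this.ne' h5
    · funext c
      have hu := u.2
      have hc := c.2
      have h5 := h (u + c) v (by omega) v.2
      have h6 : ∑ l, (Q l).eval ((b * (u + c) + a * v : ℕ) : ℚ) *
          ((g : ℚ) ^ ((u : ℕ) + c) * (m : ℚ) ^ (v : ℕ)) ^ (l : ℕ) =
          ∑ j, (Q (e j)).eval ((b * (u + c) + a * v : ℕ) : ℚ) *
            ((g : ℚ) ^ ((u : ℕ) + c) * (m : ℚ) ^ (v : ℕ)) ^ (e j : ℕ) := by
        symm
        refine Finset.sum_of_injOn e e.injective.injOn (fun _ _ => mem_univ _) ?_ fun _ _ => rfl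
        intro l _ hl
        have : Q l = 0 := by
          by_contra h7
          apply hl
          have : l ∈ Set.range e := by
            rw [T.range_orderEmbOfFin rfl]
            simp [hT, h7]
          obtain ⟨j, rfl⟩ := this
          exact ⟨j, by simp, rfl⟩
        simp [this]
      rw [h6] at h5
      simp only [Matrix.mulVec, dotProduct, Pi.zero_apply, RingHom.mapMatrix_apply,
        Matrix.map_apply, M, Matrix.of_apply, coe_evalRingHom, eval_mul, eval_C, taylor_eval]
      rw [← h5]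
      refine sum_congr rfl fun j _ => ?_
      have h8 : ((b * u + a * v : ℕ) : ℚ) + ((b * c : ℕ) : ℚ) =
          ((b * (u + c) + a * v : ℕ) : ℚ) := by
        push_cast; ring
      rw [h8]
      ring
  · have : ∑ j, (Q (e j)).natDegree ≤ T.card * K := by
      have := sum_le_card_nsmul univ (fun j => (Q (e j)).natDegree) K fun j _ => hQ _
      simpa using this
    have h5 : T.card * K ≤ K * L := by rw [mul_comm]; exact Nat.mul_le_mul_left _ hTL
    simp only [Fintype.card_prod, Fintype.card_fin]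
    omega

theorem tri_zero {K : ℕ} (γ : Fin K → ℚ) (h : ∀ n : ℕ, ∑ k, γ k * (n.choose k : ℕ) = 0) :
    ∀ k, γ k = 0 := by
  intro k
  induction' hk : (k : ℕ) using Nat.strong_induction_on with n ih generalizing k
  have := h n
  rw [sum_eq_single k] at this
  · simpa [hk] using this
  · intro j _ hj
    rcases lt_trichotomy (j : ℕ) n with h1 | h1 | h1
    · rw [ih j h1 j rfl, zero_mul]
    · exact (hj (Fin.ext (h1.trans hk.symm))).elim
    · rw [Nat.choose_eq_zero_of_lt h1]; simp
  · simp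

theorem zero : ZeroStmt := by
  classical
  intro g m a b K L U V hg hm hL hab hb hK
  let A : Matrix (Fin K × Fin L) (Fin (U + L - 1) × Fin V) ℚ := Matrix.of fun i p =>
    (((b * p.1 + a * p.2).choose i.1 * (g ^ (p.1 : ℕ) * m ^ (p.2 : ℕ)) ^ (i.2 : ℕ) : ℕ) : ℚ)
  have hrow : LinearIndependent ℚ A.row := by
    rw [Fintype.linearIndependent_iff]
    intro γ hγ
    let Q : Fin L → ℚ[X] := fun l =>
      ∑ k : Fin K, C (γ (k, l) / ((k : ℕ).factorial : ℚ)) * descPochhammer ℚ k
    have hev : ∀ l (n : ℕ), (Q l).eval (n : ℚ) = ∑ k : Fin K, γ (k, l) * (n.choose k : ℕ) := by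
      intro l n
      simp only [Q, eval_finsetSum, eval_mul, eval_C, descPochhammer_eval_eq_descFactorial]
      refine sum_congr rfl fun k _ => ?_
      rw [Nat.descFactorial_eq_factorial_mul_choose]
      have : (((k : ℕ).factorial : ℕ) : ℚ) ≠ 0 := by exact_mod_cast (Nat.factorial_pos _).ne'
      push_cast
      field_simp
    have hQ := polys_zero hg hm hab hb hK Q (fun l => ?_) (fun u v hu hv => ?_)
    · rintro ⟨k, l⟩
      refine tri_zero (fun k => γ (k, l)) (fun n => ?_) k
      rw [← hev, hQ, eval_zero]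
    · refine natDegree_sum_le_of_forall_le _ _ fun k _ => (natDegree_C_mul_le _ _).trans ?_
      rw [descPochhammer_natDegree]
      exact k.2.le
    · have := congrFun hγ (⟨u, hu⟩, ⟨v, hv⟩)
      simp only [Finset.sum_apply, Pi.smul_apply, smul_eq_mul, Pi.zero_apply, Matrix.row, A,
        Matrix.of_apply, Fintype.sum_prod_type_right] at this
      rw [← this]
      refine sum_congr rfl fun l _ => ?_
      rw [hev, sum_mul]
      refine sum_congr rfl fun k _ => ?_
      push_cast
      ring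
  have hrank : Module.finrank ℚ (Submodule.span ℚ (Set.range A.col)) =
      Fintype.card (Fin K × Fin L) := by
    rw [← Matrix.rank_eq_finrank_span_cols, Matrix.rank_eq_finrank_span_row,
      finrank_span_eq_card hrow]
  obtain ⟨κ, s, hs, hsp, hli⟩ := exists_linearIndependent' ℚ A.col
  have : Finite κ := Finite.of_injective s hs
  let _ : Fintype κ := Fintype.ofFinite κ
  have hc : Fintype.card (Fin K × Fin L) = Fintype.card κ := by
    rw [← hrank, ← hsp, finrank_span_eq_card hli]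
  let e := Fintype.equivOfCardEq hc
  refine ⟨s ∘ e, hs.comp e.injective, fun h0 => ?_⟩
  let B : Matrix (Fin K × Fin L) (Fin K × Fin L) ℚ := Matrix.of fun i j => A i (s (e j))
  have hB : IsUnit B := by
    rw [← Matrix.linearIndependent_cols_iff_isUnit]
    exact hli.comp e e.injective
  have h1 := (Int.castRingHom ℚ).map_det (Matrix.of fun i j : Fin K × Fin L =>
    (((b * ((s ∘ e) j).1 + a * ((s ∘ e) j).2).choose i.1 *
      (g ^ (((s ∘ e) j).1 : ℕ) * m ^ (((s ∘ e) j).2 : ℕ)) ^ (i.2 : ℕ) : ℕ) : ℤ))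
  rw [h0, map_zero] at h1
  have h2 := ((Matrix.isUnit_iff_isUnit_det B).1 hB).ne_zero
  apply h2
  rw [h1]
  congr 1

end Pool.Agent.MP_089fcb_co.H7.Zero
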